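import Mathlib
import Pool.Agent.Helper115_ME.Bound2
import Pool.Agent.Helper115_ME.Gen

/-!
# Zonal functions `v ↦ p(⟨e, v⟩)` with `p` smooth
-/

set_option autoImplicit false

namespace Pool.Agent.Helper115_ME

open MeasureTheory Metric Set Filter Topology
open scoped ContDiff

noncomputable section

variable {n : ℕ}

theorem contDiff_deriv_infty {p : ℝ → ℝ} (hp : ContDiff ℝ ∞ p) : ContDiff ℝ ∞ (deriv p) :=
  (contDiff_infty_iff_deriv.1 hp).2

theorem second_deriv_smooth {p : ℝ → ℝ} (hp : ContDiff ℝ ∞ p) (a b : ℝ) :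
    iteratedDeriv 2 (fun s : ℝ => p (Real.cos s * a + Real.sin s * b)) 0 =
      deriv (deriv p) a * b ^ 2 - deriv p a * a := by
  have h1 : ∀ s, HasDerivAt (fun s : ℝ => Real.cos s * a + Real.sin s * b)
      (-Real.sin s * a + Real.cos s * b) s := fun s =>
    ((Real.hasDerivAt_cos s).mul_const a).add ((Real.hasDerivAt_sin s).mul_const b)
  have h2 : ∀ (q : ℝ → ℝ), ContDiff ℝ ∞ q → ∀ s, HasDerivAt (fun s : ℝ => q (Real.cos s * a + Real.sin s * b))
      (deriv q (Real.cos s * a + Real.sin s * b) * (-Real.sin s * a + Real.cos s * b)) s := fun q hq s =>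
    HasDerivAt.comp (h₂ := q) (h := fun s : ℝ => Real.cos s * a + Real.sin s * b) s
      ((hq.differentiable (by simp) _).hasDerivAt) (h1 s)
  have e1 : deriv (fun s : ℝ => p (Real.cos s * a + Real.sin s * b)) = fun s =>
      deriv p (Real.cos s * a + Real.sin s * b) *
        (-Real.sin s * a + Real.cos s * b) := funext fun s => (h2 p hp s).deriv
  have h3 : HasDerivAt (fun s : ℝ => -Real.sin s * a + Real.cos s * b)
      (-Real.cos 0 * a + -Real.sin 0 * b) 0 :=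
    (((Real.hasDerivAt_sin 0).neg).mul_const a).add ((Real.hasDerivAt_cos 0).mul_const b)
  have h4 := (h2 (deriv p) (contDiff_deriv_infty hp) 0).mul h3
  rw [iteratedDeriv_succ, iteratedDeriv_one, e1]
  refine h4.deriv.trans ?_
  simp
  ring

theorem contDiff_zonalF (e : E n) {p : ℝ → ℝ} (hp : ContDiff ℝ ∞ p) : ContDiff ℝ ∞ fun x : E n => p (inner ℝ e x) :=
  hp.comp (contDiff_const.inner ℝ contDiff_id)

/-- the function `v ↦ p(⟨e, v⟩)` -/
def zonF (e : E n) {p : ℝ → ℝ} (hp : ContDiff ℝ ∞ p) : SmoothFun n :=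
  ⟨fun v => p (inner ℝ e (v : E n)), isSmooth_of_contDiff (F := fun x => p (inner ℝ e x)) (contDiff_zonalF e hp)⟩

/-- the function `v ↦ p(⟨e, v⟩) ⟨w, v⟩²` -/
def sqF (e w : E n) {p : ℝ → ℝ} (hp : ContDiff ℝ ∞ p) : SmoothFun n :=
  ⟨fun v => p (inner ℝ e (v : E n)) * (inner ℝ w (v : E n)) ^ 2,
    isSmooth_of_contDiff (F := fun x => p (inner ℝ e x) * (inner ℝ w x) ^ 2)
      ((contDiff_zonalF e hp).mul ((contDiff_const.inner ℝ contDiff_id).pow 2))⟩

theorem ext0_zonF {e : E n} {p : ℝ → ℝ} (hp : ContDiff ℝ ∞ p) {x : E n} (hx : ‖x‖ = 1) :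
    ext0 (zonF e hp).1 x = p (inner ℝ e x) :=
  ext0_sphere (zonF e hp).1 ⟨x, by simpa using hx⟩

theorem Rc_zonF {e : E n} {p : ℝ → ℝ} (hp : ContDiff ℝ ∞ p) {u v : E n} (huv : Orthonormal ℝ ![u, v]) :
    Rc (zonF e hp).1 (u, v) = p (inner ℝ e u) - inner ℝ e u * deriv p (inner ℝ e u) +
      deriv (deriv p) (inner ℝ e u) * (inner ℝ e v) ^ 2 := by
  have h1 : (fun s : ℝ => ext0 (zonF e hp).1 (Real.cos s • u + Real.sin s • v)) =
      fun s : ℝ => p (Real.cos s * inner ℝ e u + Real.sin s * inner ℝ e v) := by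
    ext s
    rw [ext0_zonF hp (norm_circle huv s), inner_add_right, inner_smul_right, inner_smul_right]
  show ext0 (zonF e hp).1 u + iteratedDeriv 2 (fun s : ℝ => ext0 (zonF e hp).1 (Real.cos s • u + Real.sin s • v)) 0 = _
  rw [h1, second_deriv_smooth hp, ext0_zonF hp (pair_orthonormal huv).1]
  ring

/-- a zonal function with nonnegative principal radii -/
theorem Rc_zonF_nonneg {e : E n} (he : ‖e‖ = 1) {p : ℝ → ℝ} (hp : ContDiff ℝ ∞ p)
    (h1 : ∀ t ∈ Icc (-1 : ℝ) 1, 0 ≤ p t - t * deriv p t)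
    (h2 : ∀ t ∈ Icc (-1 : ℝ) 1, 0 ≤ (1 - t ^ 2) * deriv (deriv p) t + (p t - t * deriv p t))
    {u v : E n} (huv : Orthonormal ℝ ![u, v]) : 0 ≤ Rc (zonF e hp).1 (u, v) := by
  obtain ⟨hu, hv, huv0⟩ := pair_orthonormal huv
  rw [Rc_zonF hp huv]
  set a : ℝ := inner ℝ e u with ha
  set b : ℝ := inner ℝ e v with hb
  -- Bessel
  have hab : a ^ 2 + b ^ 2 ≤ 1 := by
    have h2 : ‖e - a • u - b • v‖ ^ 2 = 1 - a ^ 2 - b ^ 2 := by
      have hvu0 : inner ℝ v u = (0 : ℝ) := by rw [real_inner_comm]; exact huv0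
      rw [← real_inner_self_eq_norm_sq]
      simp only [inner_sub_left, inner_sub_right, inner_smul_left, inner_smul_right,
        real_inner_self_eq_norm_sq, he, hu, hv, huv0, hvu0, RCLike.conj_to_real,
        real_inner_comm e u, real_inner_comm e v]
      rw [← ha, ← hb]
      ring
    have := sq_nonneg ‖e - a • u - b • v‖
    linarith
  have ha1 : a ∈ Set.Icc (-1 : ℝ) 1 := by
    constructor <;> nlinarith [sq_nonneg b]
  have A1 := h1 a ha1
  have A2 := h2 a ha1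
  have hb2 : 0 ≤ b ^ 2 := sq_nonneg b
  have hb3 : b ^ 2 ≤ 1 - a ^ 2 := by linarith
  rcases le_total 0 (deriv (deriv p) a) with hs0 | hs0
  · nlinarith [mul_nonneg hs0 hb2]
  · nlinarith [mul_le_mul_of_nonpos_left hb3 hs0]

theorem ell_zonF_aux {e w : E n} (h : Orthonormal ℝ ![e, w]) {μ : SmoothFun n →ₗ[ℝ] ℝ} (hμ : IsContFun μ)
    {p : ℝ → ℝ} (hp : ContDiff ℝ ∞ p) :
    ell h hμ (zonF e hp) = μ (zonF e hp) + (μ (sqF e w (contDiff_deriv_infty (contDiff_deriv_infty hp))) -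
      μ (zonF e (p := fun t => t * deriv p t) (contDiff_id.mul (contDiff_deriv_infty hp)))) := by
  obtain ⟨g, hg1, hg2⟩ := exists_second h (zonF e hp)
  rw [hg2 μ hμ, ← map_sub]
  congr 2
  apply Subtype.ext
  funext v
  rw [hg1 v]
  have h1 : (fun s : ℝ => ext0 (zonF e hp).1 (planeRot h s (v : E n))) =
      fun s : ℝ => p (Real.cos s * inner ℝ e (v : E n) + Real.sin s * (-inner ℝ w (v : E n))) := by
    ext s
    rw [ext0_zonF hp (by rw [LinearIsometryEquiv.norm_map]; simp), inner_planeRot_fst]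
  rw [h1, second_deriv_smooth hp]
  show _ = deriv (deriv p) (inner ℝ e (v : E n)) * (inner ℝ w (v : E n)) ^ 2 -
    (inner ℝ e (v : E n) : ℝ) * deriv p (inner ℝ e (v : E n))
  ring

theorem sqF_eq {e w w' : E n} (hn : 3 ≤ n) (h : Orthonormal ℝ ![e, w]) (h' : Orthonormal ℝ ![e, w'])
    {μ : SmoothFun n →ₗ[ℝ] ℝ} (hz : IsZonalFun e μ) {p : ℝ → ℝ} (hp : ContDiff ℝ ∞ p) :
    μ (sqF e w hp) = μ (sqF e w' hp) := by
  obtain ⟨ϑ, hϑ, he, hw⟩ := exists_rot_two hn h h'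
  have hz' : μ (smComp (sqF e w' hp) ϑ) = μ (sqF e w' hp) := hz ϑ hϑ he (sqF e w' hp)
  rw [← hz']
  congr 1
  apply Subtype.ext
  funext v
  show p (inner ℝ e (v : E n)) * (inner ℝ w (v : E n)) ^ 2 =
    p (inner ℝ e (ϑ (v : E n))) * (inner ℝ w' (ϑ (v : E n))) ^ 2
  have e1 : inner ℝ e (ϑ (v : E n)) = (inner ℝ e (v : E n) : ℝ) := by
    conv_lhs => rw [← he]
    rw [LinearIsometryEquiv.inner_map_map]
  have e2 : inner ℝ w' (ϑ (v : E n)) = (inner ℝ w (v : E n) : ℝ) := by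
    rw [← hw, LinearIsometryEquiv.inner_map_map]
  rw [e1, e2]

theorem sum_sqF (hn : 3 ≤ n) {e w : E n} (h : Orthonormal ℝ ![e, w])
    {μ : SmoothFun n →ₗ[ℝ] ℝ} (hz : IsZonalFun e μ) {p : ℝ → ℝ} (hp : ContDiff ℝ ∞ p) :
    ((n : ℝ) - 1) * μ (sqF e w hp) =
      μ (zonF e (p := fun t => (1 - t ^ 2) * p t) ((contDiff_const.sub (contDiff_id.pow 2)).mul hp)) := by
  obtain ⟨b, i, hb⟩ := exists_basis (by omega) (pair_orthonormal h).1
  have h1 : ∑ j ∈ Finset.univ.erase i, sqF e (b j) hp =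
      zonF e (p := fun t => (1 - t ^ 2) * p t) ((contDiff_const.sub (contDiff_id.pow 2)).mul hp) := by
    apply Subtype.ext
    funext v
    have h2 : (∑ j ∈ Finset.univ.erase i, sqF e (b j) hp).1 v =
        ∑ j ∈ Finset.univ.erase i, p (inner ℝ e (v : E n)) * (inner ℝ (b j) (v : E n)) ^ 2 := by
      rw [Submodule.coe_sum, Finset.sum_apply]
      rfl
    rw [h2, ← Finset.mul_sum]
    have h3 : ∑ j, (inner ℝ (b j) (v : E n)) ^ 2 = (1 : ℝ) := by
      have := b.sum_sq_norm_inner_right (v : E n)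
      simpa using this
    rw [← Finset.add_sum_erase _ _ (Finset.mem_univ i), hb] at h3
    have h4 : ∑ j ∈ Finset.univ.erase i, (inner ℝ (b j) (v : E n)) ^ 2 = (1 : ℝ) - (inner ℝ e (v : E n)) ^ 2 := by
      linarith
    rw [h4]
    show _ = (1 - (inner ℝ e (v : E n)) ^ 2) * p (inner ℝ e (v : E n))
    ring
  rw [← h1, map_sum]
  have h5 : ∀ j ∈ Finset.univ.erase i, μ (sqF e (b j) hp) = μ (sqF e w hp) := by
    intro j hj
    have hji : j ≠ i := Finset.ne_of_mem_erase hj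
    refine sqF_eq hn (orthonormal_pair (pair_orthonormal h).1 (b.orthonormal.1 j) ?_) h hz hp
    rw [← hb]
    exact b.orthonormal.2 hji.symm
  rw [Finset.sum_congr rfl h5, Finset.sum_const, Finset.card_erase_of_mem (Finset.mem_univ i)]
  simp only [Finset.card_univ, Fintype.card_fin, nsmul_eq_mul]
  rw [Nat.cast_sub (by omega)]
  simp

/-- `(n-1) ℓ(p) = μ(P + (n-2) r)` -/
theorem ell_zonF (hn : 3 ≤ n) {e w : E n} (h : Orthonormal ℝ ![e, w]) {μ : SmoothFun n →ₗ[ℝ] ℝ}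
    (hμ : IsContFun μ) (hz : IsZonalFun e μ) {p : ℝ → ℝ} (hp : ContDiff ℝ ∞ p) (k : SmoothFun n)
    (hk : ∀ v : Sph n, k.1 v = ((1 - (inner ℝ e (v : E n) : ℝ) ^ 2) * deriv (deriv p) (inner ℝ e (v : E n)) +
      (p (inner ℝ e (v : E n)) - (inner ℝ e (v : E n) : ℝ) * deriv p (inner ℝ e (v : E n)))) +
      ((n : ℝ) - 2) * (p (inner ℝ e (v : E n)) - (inner ℝ e (v : E n) : ℝ) * deriv p (inner ℝ e (v : E n)))) :
    ((n : ℝ) - 1) * ell h hμ (zonF e hp) = μ k := by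
  have hk' : k = zonF e (p := fun t => (1 - t ^ 2) * deriv (deriv p) t)
      ((contDiff_const.sub (contDiff_id.pow 2)).mul (contDiff_deriv_infty (contDiff_deriv_infty hp))) +
      ((n : ℝ) - 1) • (zonF e hp - zonF e (p := fun t => t * deriv p t) (contDiff_id.mul (contDiff_deriv_infty hp))) := by
    apply Subtype.ext
    funext v
    rw [hk v]
    show _ = (1 - (inner ℝ e (v : E n) : ℝ) ^ 2) * deriv (deriv p) (inner ℝ e (v : E n)) +
      ((n : ℝ) - 1) * (p (inner ℝ e (v : E n)) - (inner ℝ e (v : E n) : ℝ) * deriv p (inner ℝ e (v : E n)))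
    ring
  rw [hk', ell_zonF_aux, map_add, map_smul, map_sub,
    ← sum_sqF hn h hz (contDiff_deriv_infty (contDiff_deriv_infty hp))]
  simp only [smul_eq_mul]
  ring

end

end Pool.Agent.Helper115_ME
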