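import Mathlib
import Pool.Agent.Helper115_ME.VV.ZonF
import Pool.Agent.Helper115_ME.UU.SumCase

/-!
# Functionals with a density: positivity of the curvature functional
-/

set_option autoImplicit false

namespace Pool.Agent.Helper115_ME

open MeasureTheory Metric Set Filter Topology
open scoped ContDiff

noncomputable section

variable {n : ℕ}

theorem isContFun_of_density {G : Sph n → ℝ} (hG : Integrable G (sig n)) {μ : Distr n}
    (hμ : ∀ f : SmoothFun n, val μ f = ∫ v : Sph n, f.1 v * G v ∂(sig n)) : IsContFun μ := by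
  refine ⟨0, ∫ v, |G v| ∂(sig n), fun f M hM => ?_⟩
  have h1 : ∀ v : Sph n, |f.1 v| ≤ M := fun v => by
    have h2 := hM 0 le_rfl (v : E n) (norm_coe_sph v)
    have h3 : ‖iteratedFDeriv ℝ 0 (ext0 f.1) (v : E n)‖ = ‖ext0 f.1 (v : E n)‖ := norm_iteratedFDeriv_zero
    rw [h3, ext0_sphere, Real.norm_eq_abs] at h2
    exact h2
  rw [hμ f, ← Real.norm_eq_abs]
  refine (norm_integral_le_integral_norm _).trans ?_
  rw [← integral_mul_const]
  refine integral_mono (integrable_mul_density hG (IsSmooth.continuous f.2)).norm (hG.abs.mul_const M) fun v => ?_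
  show ‖f.1 v * G v‖ ≤ |G v| * M
  rw [norm_mul, mul_comm, Real.norm_eq_abs, Real.norm_eq_abs]
  exact mul_le_mul_of_nonneg_left (h1 v) (abs_nonneg _)

theorem integral_comp_act (ϑ : E n ≃ₗᵢ[ℝ] E n) {F : Sph n → ℝ} (hF : AEStronglyMeasurable F (sig n)) :
    ∫ v : Sph n, F (act ϑ v) ∂(sig n) = ∫ v : Sph n, F v ∂(sig n) := by
  conv_rhs => rw [← map_act ϑ]
  rw [integral_map (continuous_act ϑ).measurable.aemeasurable (by rw [map_act ϑ]; exact hF)]

theorem isZonalFun_of_density {e : E n} {g : ℝ → ℝ}
    (hG : Integrable (fun v : Sph n => g (inner ℝ e (v : E n))) (sig n)) {μ : Distr n}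
    (hμ : ∀ f : SmoothFun n, val μ f = ∫ v : Sph n, f.1 v * g (inner ℝ e (v : E n)) ∂(sig n)) : IsZonalFun e μ := by
  intro ϑ hϑ he f
  rw [hμ, hμ, ← integral_comp_act ϑ (integrable_mul_density hG (IsSmooth.continuous f.2)).aestronglyMeasurable]
  refine integral_congr_ae (Eventually.of_forall fun v => ?_)
  show f.1 (act ϑ v) * g (inner ℝ e (v : E n)) = f.1 (act ϑ v) * g (inner ℝ e (ϑ (v : E n)))
  have e1 : inner ℝ e (ϑ (v : E n)) = (inner ℝ e (v : E n) : ℝ) := by
    conv_lhs => rw [← he]
    rw [LinearIsometryEquiv.inner_map_map]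
  rw [e1]

/-- the isometry `x ↦ P x - P^⊥ x`, `P` the projection to the plane of `e, w` -/
def planeRefl {e w : E n} (h : Orthonormal ℝ ![e, w]) : E n ≃ₗᵢ[ℝ] E n :=
  (planeRot h Real.pi).trans (LinearIsometryEquiv.neg ℝ)

theorem planeRefl_apply {e w : E n} (h : Orthonormal ℝ ![e, w]) (x : E n) :
    planeRefl h x = -(x - (2 * inner ℝ e x : ℝ) • e - (2 * inner ℝ w x : ℝ) • w) := by
  show -(planeRot h Real.pi x) = _
  rw [planeRot_apply, Real.cos_pi, Real.sin_pi]
  module

/-- the map `P^⊥ + c P` -/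
def squash (e w : E n) (c : ℝ) (x : E n) : E n :=
  x + ((c - 1) * inner ℝ e x : ℝ) • e + ((c - 1) * inner ℝ w x : ℝ) • w

theorem rot_add_rot {e w : E n} (h : Orthonormal ℝ ![e, w]) (s : ℝ) (x : E n) :
    planeRot h s x + planeRot h (-s) x = (2 : ℝ) • squash e w (Real.cos s) x := by
  rw [planeRot_apply, planeRot_apply, Real.cos_neg, Real.sin_neg]
  unfold squash
  module

theorem squash_ineq {e w : E n} (h : Orthonormal ℝ ![e, w]) (K : ConvexBody (E n)) {c : ℝ} (hc0 : 0 ≤ c)
    (hc1 : c ≤ 1) (x : E n) :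
    c * (supp K x + supp K (planeRefl h x)) ≤ supp K (squash e w c x) + supp K (squash e w c (planeRefl h x)) := by
  obtain ⟨he, hw, hew⟩ := pair_orthonormal h
  have hwe : inner ℝ w e = (0 : ℝ) := by rw [real_inner_comm]; exact hew
  have hee : inner ℝ e e = (1 : ℝ) := by rw [real_inner_self_eq_norm_sq, he]; norm_num
  have hww : inner ℝ w w = (1 : ℝ) := by rw [real_inner_self_eq_norm_sq, hw]; norm_num
  have i1 : inner ℝ e (planeRefl h x) = (inner ℝ e x : ℝ) := by
    rw [planeRefl_apply]
    simp only [inner_neg_right, inner_sub_right, inner_smul_right, hee, hew]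
    ring
  have i2 : inner ℝ w (planeRefl h x) = (inner ℝ w x : ℝ) := by
    rw [planeRefl_apply]
    simp only [inner_neg_right, inner_sub_right, inner_smul_right, hww, hwe]
    ring
  have e1 : c • x = ((1 + c) / 2) • squash e w c x + ((1 - c) / 2) • squash e w c (planeRefl h x) := by
    unfold squash
    rw [i1, i2, planeRefl_apply]
    module
  have e2 : c • planeRefl h x = ((1 - c) / 2) • squash e w c x + ((1 + c) / 2) • squash e w c (planeRefl h x) := by
    unfold squash
    rw [i1, i2, planeRefl_apply]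
    module
  have h1 : c * supp K x ≤ (1 + c) / 2 * supp K (squash e w c x) +
      (1 - c) / 2 * supp K (squash e w c (planeRefl h x)) := by
    rw [← supp_smul K hc0, e1, ← supp_smul K (by linarith : (0 : ℝ) ≤ (1 + c) / 2),
      ← supp_smul K (by linarith : (0 : ℝ) ≤ (1 - c) / 2)]
    exact supp_add_le _ _ _
  have h2 : c * supp K (planeRefl h x) ≤ (1 - c) / 2 * supp K (squash e w c x) +
      (1 + c) / 2 * supp K (squash e w c (planeRefl h x)) := by
    rw [← supp_smul K hc0, e2, ← supp_smul K (by linarith : (0 : ℝ) ≤ (1 - c) / 2),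
      ← supp_smul K (by linarith : (0 : ℝ) ≤ (1 + c) / 2)]
    exact supp_add_le _ _ _
  linarith

/-- nonnegative densities -/
theorem ell_density_nonneg (hn : 2 ≤ n) {e w : E n} (h : Orthonormal ℝ ![e, w]) {g : ℝ → ℝ}
    (hG : Integrable (fun v : Sph n => g (inner ℝ e (v : E n))) (sig n)) (hg0 : ∀ t ∈ Ioo (-1 : ℝ) 1, 0 ≤ g t)
    {μ : Distr n} (hμ : ∀ f : SmoothFun n, val μ f = ∫ v : Sph n, f.1 v * g (inner ℝ e (v : E n)) ∂(sig n))
    (hμc : IsContFun μ) {K : ConvexBody (E n)} (hK : IsSmooth (hS K)) : 0 ≤ ell h hμc (suppS K hK) := by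
  obtain ⟨he, hw, hew⟩ := pair_orthonormal h
  have hwe : inner ℝ w e = (0 : ℝ) := by rw [real_inner_comm]; exact hew
  have hee : inner ℝ e e = (1 : ℝ) := by rw [real_inner_self_eq_norm_sq, he]; norm_num
  set q : ℝ → ℝ := circF h μ (suppS K hK) with hq
  have hqs : ∀ s, q s = ∫ v : Sph n, supp K (planeRot h s (v : E n)) * g (inner ℝ e (v : E n)) ∂(sig n) :=
    fun s => hμ _
  have hq0 : q 0 = ∫ v : Sph n, supp K (v : E n) * g (inner ℝ e (v : E n)) ∂(sig n) := by
    rw [hqs 0]
    refine integral_congr_ae (Eventually.of_forall fun v => ?_)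
    simp only [planeRot_zero]
  have hq0' : q 0 = μ (suppS K hK) := by
    rw [hq0]; exact (hμ (suppS K hK)).symm
  rw [ell_apply, ← hq0']
  refine second_deriv_nonneg (contDiff_circF h hμc _) ?_
  have hcos : ∀ᶠ s in 𝓝 (0 : ℝ), 0 ≤ Real.cos s := by
    have h1 : Tendsto Real.cos (𝓝 0) (𝓝 1) := by simpa using Real.continuous_cos.tendsto 0
    exact (h1.eventually (eventually_gt_nhds one_pos)).mono fun s hs => hs.le
  filter_upwards [hcos] with s hs
  have hKc : Continuous (supp K) := continuous_supp K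
  have ha : ∀ (F : E n → ℝ), Continuous F → Integrable (fun v : Sph n => F (v : E n) * g (inner ℝ e (v : E n))) (sig n) :=
    fun F hF => integrable_mul_density hG (hF.comp continuous_subtype_val)
  have hsq : Continuous (squash e w (Real.cos s)) := by unfold squash; fun_prop
  have hpr : Continuous (planeRefl h) := (planeRefl h).continuous
  have a1 : ∀ r : ℝ, Integrable (fun v : Sph n => supp K (planeRot h r (v : E n)) * g (inner ℝ e (v : E n))) (sig n) :=
    fun r => ha (fun x => supp K (planeRot h r x)) (hKc.comp (planeRot h r).continuous)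
  have a2 : Integrable (fun v : Sph n => supp K (squash e w (Real.cos s) (v : E n)) * g (inner ℝ e (v : E n))) (sig n) :=
    ha (fun x => supp K (squash e w (Real.cos s) x)) (hKc.comp hsq)
  have a3 : Integrable (fun v : Sph n => supp K (squash e w (Real.cos s) (planeRefl h (v : E n))) *
      g (inner ℝ e (v : E n))) (sig n) :=
    ha (fun x => supp K (squash e w (Real.cos s) (planeRefl h x))) ((hKc.comp hsq).comp hpr)
  have a4 : Integrable (fun v : Sph n => supp K (planeRefl h (v : E n)) * g (inner ℝ e (v : E n))) (sig n) :=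
    ha (fun x => supp K (planeRefl h x)) (hKc.comp hpr)
  have a5 : Integrable (fun v : Sph n => supp K (v : E n) * g (inner ℝ e (v : E n))) (sig n) := ha _ hKc
  -- the reflection does not change the integrals
  have hrefl : ∀ (F : E n → ℝ), Continuous F → ∫ v : Sph n, F (planeRefl h (v : E n)) * g (inner ℝ e (v : E n)) ∂(sig n) =
      ∫ v : Sph n, F (v : E n) * g (inner ℝ e (v : E n)) ∂(sig n) := by
    intro F hF
    rw [← integral_comp_act (planeRefl h) (ha F hF).aestronglyMeasurable]
    refine integral_congr_ae (Eventually.of_forall fun v => ?_)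
    show F (planeRefl h (v : E n)) * g (inner ℝ e (v : E n)) = F (planeRefl h (v : E n)) * g (inner ℝ e (planeRefl h (v : E n)))
    have i1 : inner ℝ e (planeRefl h (v : E n)) = (inner ℝ e (v : E n) : ℝ) := by
      rw [planeRefl_apply]
      simp only [inner_neg_right, inner_sub_right, inner_smul_right, hee, hew]
      ring
    rw [i1]
  have hmem : ∀ᵐ v : Sph n ∂(sig n), (inner ℝ e (v : E n) : ℝ) ∈ Ioo (-1 : ℝ) 1 := ae_mem_Ioo hn he
  -- first step
  have h1 : (2 : ℝ) * ∫ v : Sph n, supp K (squash e w (Real.cos s) (v : E n)) * g (inner ℝ e (v : E n)) ∂(sig n) ≤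
      q s + q (-s) := by
    rw [hqs s, hqs (-s), ← integral_add (a1 s) (a1 (-s)), ← integral_const_mul]
    refine integral_mono_ae (a2.const_mul 2) ((a1 s).add (a1 (-s))) ?_
    filter_upwards [hmem] with v hv
    have h2 := supp_add_le K (planeRot h s (v : E n)) (planeRot h (-s) (v : E n))
    rw [rot_add_rot, supp_smul K (by norm_num : (0 : ℝ) ≤ 2)] at h2
    show 2 * (supp K (squash e w (Real.cos s) (v : E n)) * g (inner ℝ e (v : E n))) ≤
      supp K (planeRot h s (v : E n)) * g (inner ℝ e (v : E n)) + supp K (planeRot h (-s) (v : E n)) * g (inner ℝ e (v : E n))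
    have h3 := mul_le_mul_of_nonneg_right h2 (hg0 _ hv)
    linarith
  -- second step
  have h2 : 2 * Real.cos s * q 0 ≤
      2 * ∫ v : Sph n, supp K (squash e w (Real.cos s) (v : E n)) * g (inner ℝ e (v : E n)) ∂(sig n) := by
    have e1 : 2 * ∫ v : Sph n, supp K (squash e w (Real.cos s) (v : E n)) * g (inner ℝ e (v : E n)) ∂(sig n) =
        ∫ v : Sph n, (supp K (squash e w (Real.cos s) (v : E n)) * g (inner ℝ e (v : E n)) +
          supp K (squash e w (Real.cos s) (planeRefl h (v : E n))) * g (inner ℝ e (v : E n))) ∂(sig n) := by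
      rw [integral_add a2 a3, hrefl (fun x => supp K (squash e w (Real.cos s) x)) (hKc.comp hsq)]
      ring
    have e2 : 2 * Real.cos s * q 0 = ∫ v : Sph n, Real.cos s * (supp K (v : E n) * g (inner ℝ e (v : E n)) +
          supp K (planeRefl h (v : E n)) * g (inner ℝ e (v : E n))) ∂(sig n) := by
      rw [integral_const_mul, integral_add a5 a4, hrefl (supp K) hKc, hq0]
      ring
    rw [e1, e2]
    refine integral_mono_ae ((a5.add a4).const_mul _) (a2.add a3) ?_
    filter_upwards [hmem] with v hv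
    have h3 := mul_le_mul_of_nonneg_right (squash_ineq h K hs (Real.cos_le_one s) (v : E n)) (hg0 _ hv)
    show Real.cos s * (supp K (v : E n) * g (inner ℝ e (v : E n)) + supp K (planeRefl h (v : E n)) * g (inner ℝ e (v : E n))) ≤
      supp K (squash e w (Real.cos s) (v : E n)) * g (inner ℝ e (v : E n)) +
        supp K (squash e w (Real.cos s) (planeRefl h (v : E n))) * g (inner ℝ e (v : E n))
    linarith
  linarith

end

end Pool.Agent.Helper115_ME
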