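import Mathlib
import Pool.Agent.Helper115_ME.CC.C04
set_option autoImplicit false

namespace Pool.Agent.Helper115_ME.VV

open MeasureTheory Set Filter Topology

/-- `s = (1+z²)^(-1/2)` -/
noncomputable def sg (z : ℝ) : ℝ := (√(1 + z ^ 2))⁻¹

theorem sg_pos (z : ℝ) : 0 < sg z := inv_pos.2 (Real.sqrt_pos.2 (by positivity))

theorem sg_sq (z : ℝ) : sg z ^ 2 * (1 + z ^ 2) = 1 := by
  unfold sg
  rw [inv_pow, Real.sq_sqrt (by positivity)]
  exact inv_mul_cancel₀ (by positivity)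

theorem sg_le_one (z : ℝ) : sg z ≤ 1 := by
  unfold sg
  apply inv_le_one_of_one_le₀
  rw [Real.one_le_sqrt]
  nlinarith [sq_nonneg z]

theorem sg_deriv (z : ℝ) : HasDerivAt sg (-z * sg z ^ 3) z := by
  have hr : 0 < √(1 + z ^ 2) := Real.sqrt_pos.2 (by positivity)
  have h1 : HasDerivAt (fun z : ℝ => 1 + z ^ 2) (2 * z) z := by
    have := (hasDerivAt_pow 2 z).const_add 1
    simpa using this
  have h2 := (h1.sqrt (by positivity)).fun_inv hr.ne'
  refine h2.congr_deriv ?_
  unfold sg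
  field_simp

theorem sg_pow_deriv (k : ℕ) (z : ℝ) :
    HasDerivAt (fun z => sg z ^ k) (-(k : ℝ) * z * sg z ^ (k + 2)) z := by
  rcases k with _ | k
  · simp only [pow_zero]
    refine (hasDerivAt_const z (1 : ℝ)).congr_deriv ?_
    simp
  · refine ((sg_deriv z).fun_pow (k + 1)).congr_deriv ?_
    simp only [Nat.add_sub_cancel]
    push_cast
    ring

theorem T_deriv (z : ℝ) : HasDerivAt (fun z => z * sg z) (sg z ^ 3) z := by
  refine ((hasDerivAt_id z).fun_mul (sg_deriv z)).congr_deriv ?_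
  simp only [id]
  linear_combination (-sg z) * sg_sq z

theorem T_abs (z : ℝ) : z * sg z ∈ Icc (-1 : ℝ) 1 := by
  have h := sg_sq z
  have h2 : (z * sg z) ^ 2 ≤ 1 := by nlinarith [sq_nonneg (sg z)]
  exact abs_le.1 ((sq_le_one_iff_abs_le_one _).1 h2)

theorem sg_cont : Continuous sg := continuous_iff_continuousAt.2 fun z => (sg_deriv z).continuousAt

theorem abs_le_sg (z : ℝ) : (1 + |z|) * sg z ≤ 3 / 2 := by
  have h := sg_sq z
  have h0 := sg_pos z
  have h1 : ((1 + |z|) * sg z) ^ 2 ≤ (3 / 2) ^ 2 := by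
    have h2 : (1 + |z|) ^ 2 ≤ 2 * (1 + z ^ 2) := by
      have := sq_abs z
      nlinarith [sq_nonneg (1 - |z|)]
    calc ((1 + |z|) * sg z) ^ 2 = (1 + |z|) ^ 2 * sg z ^ 2 := by ring
      _ ≤ 2 * (1 + z ^ 2) * sg z ^ 2 := mul_le_mul_of_nonneg_right h2 (sq_nonneg _)
      _ = 2 * (sg z ^ 2 * (1 + z ^ 2)) := by ring
      _ = 2 := by rw [h]; ring
      _ ≤ (3 / 2) ^ 2 := by norm_num
  exact (sq_le_sq₀ (by positivity) (by norm_num)).1 h1

theorem B_deriv (m : ℕ) (f κ : ℝ → ℝ) (z : ℝ) {F1 F2 K1 K2 : ℝ} {f' κ' : ℝ → ℝ}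
    (hf : HasDerivAt f F1 (z * sg z)) (hfe : f' (z * sg z) = F1) (hf' : HasDerivAt f' F2 (z * sg z))
    (hk : HasDerivAt κ K1 z) (hke : κ' z = K1) (hk' : HasDerivAt κ' K2 z) :
    HasDerivAt (fun z => sg z ^ m * f (z * sg z) * κ' z -
        (z * sg z ^ (m + 2) * f (z * sg z) + sg z ^ (m + 3) * f' (z * sg z)) * κ z)
      (sg z ^ m * f (z * sg z) * K2 + ((m : ℝ) + 1) * (sg z ^ (m + 2) * f (z * sg z) * (κ z - z * K1)) -
        κ z * ((1 - (z * sg z) ^ 2) * F2 - ((m : ℝ) + 2) * (z * sg z) * F1 +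
          ((m : ℝ) + 2) * f (z * sg z)) * sg z ^ (m + 4)) z := by
  have hT := T_deriv z
  have hfT : HasDerivAt (fun z => f (z * sg z)) (F1 * sg z ^ 3) z := hf.comp z hT
  have hfT' : HasDerivAt (fun z => f' (z * sg z)) (F2 * sg z ^ 3) z := hf'.comp z hT
  have e1 := ((sg_pow_deriv m z).fun_mul hfT).fun_mul hk'
  have e2 := (((hasDerivAt_id z).fun_mul (sg_pow_deriv (m + 2) z)).fun_mul hfT).fun_add
    ((sg_pow_deriv (m + 3) z).fun_mul hfT')
  have e3 := e1.fun_sub (e2.fun_mul hk)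
  refine e3.congr_deriv ?_
  simp only [id]
  rw [hfe, hke]
  have h := sg_sq z
  push_cast
  set F := f (z * sg z)
  set K := κ z
  set S := sg z
  have hm2 : S ^ (m + 2) = S ^ m * S ^ 2 := pow_add _ _ _
  have hm3 : S ^ (m + 3) = S ^ m * S ^ 3 := pow_add _ _ _
  have hm22 : S ^ (m + 2 + 2) = S ^ m * S ^ 4 := by rw [← pow_add]
  have hm32 : S ^ (m + 3 + 2) = S ^ m * S ^ 5 := by rw [← pow_add]
  rw [hm22, hm32, hm2, hm3]
  linear_combination (K * F * ((m : ℝ) + 2) * S ^ m * S ^ 2 - K * F2 * S ^ m * S ^ 4) * h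

theorem sg_neg (z : ℝ) : sg (-z) = sg z := by
  unfold sg
  rw [neg_sq]

theorem kap_bound {R : ℝ} {κ : ℝ → ℝ} (h1 : ∀ z, |deriv κ z| ≤ R)
    (h2 : ∀ z, |κ z - z * deriv κ z| ≤ R) (z : ℝ) : |κ z| ≤ R * (1 + |z|) := by
  have e : κ z = (κ z - z * deriv κ z) + z * deriv κ z := by ring
  rw [e]
  refine (abs_add_le _ _).trans ?_
  rw [abs_mul]
  have := mul_le_mul_of_nonneg_left (h1 z) (abs_nonneg z)
  have := h2 z
  linarith

theorem der_bound {R : ℝ} {κ : ℝ → ℝ} (h1 : ∀ z, |deriv κ z| ≤ R)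
    (h2 : ∀ z, |κ z - z * deriv κ z| ≤ R) (z : ℝ) :
    |deriv κ z - z * (κ z - z * deriv κ z)| ≤ R * (1 + |z|) := by
  refine (abs_sub _ _).trans ?_
  rw [abs_mul]
  have := mul_le_mul_of_nonneg_left (h2 z) (abs_nonneg z)
  have := h1 z
  linarith

theorem part_one {R : ℝ} (hR : 0 ≤ R) (κ : ℝ → ℝ) (hκ : ContDiff ℝ 2 κ)
    (h1 : ∀ z, |deriv κ z| ≤ R) (h2 : ∀ z, |κ z - z * deriv κ z| ≤ R) {N : ℝ} (hN : 0 ≤ N) :
    ∫ z in (-N)..N, (sg z)⁻¹ * deriv (deriv κ) z ≤ 8 * R := by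
  have hκd : ContDiff ℝ 1 (deriv κ) := by
    have h : ContDiff ℝ (1 + 1) κ := by
      rw [one_add_one_eq_two]
      exact hκ
    exact (contDiff_succ_iff_deriv.1 h).2.2
  have hk1 : ∀ x, HasDerivAt κ (deriv κ x) x := fun x =>
    (hκ.differentiable (by norm_num) x).hasDerivAt
  have hk2 : ∀ x, HasDerivAt (deriv κ) (deriv (deriv κ) x) x := fun x =>
    (hκd.differentiable (by norm_num) x).hasDerivAt
  have hc2 : Continuous (deriv (deriv κ)) := hκd.continuous_deriv le_rfl
  have hc0 : Continuous κ := hκ.continuous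
  have hsc := sg_cont
  have hinvd : ∀ z, HasDerivAt (fun z => (sg z)⁻¹) (z * sg z) z := by
    intro z
    refine ((sg_deriv z).fun_inv (sg_pos z).ne').congr_deriv ?_
    have := (sg_pos z).ne'
    field_simp
  have hinvc : Continuous (fun z => (sg z)⁻¹) := hsc.inv₀ fun z => (sg_pos z).ne'
  have hD : ∀ z, HasDerivAt (fun z => (sg z)⁻¹ * deriv κ z - (z * sg z) * κ z)
      ((sg z)⁻¹ * deriv (deriv κ) z - sg z ^ 3 * κ z) z := by
    intro z
    refine (((hinvd z).fun_mul (hk2 z)).fun_sub ((T_deriv z).fun_mul (hk1 z))).congr_deriv ?_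
    ring
  have hc3 : Continuous (fun z => sg z ^ 3 * κ z) := by fun_prop
  have hc4 : Continuous (fun z => (sg z)⁻¹ * deriv (deriv κ) z) := hinvc.mul hc2
  have hint := intervalIntegral.integral_eq_sub_of_hasDerivAt (a := -N) (b := N)
    (fun z _ => hD z) ((hc4.sub hc3).intervalIntegrable _ _)
  rw [intervalIntegral.integral_sub (hc4.intervalIntegrable _ _) (hc3.intervalIntegrable _ _)] at hint
  have hDb : ∀ z, |(sg z)⁻¹ * deriv κ z - (z * sg z) * κ z| ≤ 3 / 2 * R := by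
    intro z
    have hs := sg_sq z
    have hs0 := sg_pos z
    have e : (sg z)⁻¹ * deriv κ z - (z * sg z) * κ z =
        sg z * (deriv κ z - z * (κ z - z * deriv κ z)) := by
      have e1 : (sg z)⁻¹ = sg z * (1 + z ^ 2) :=
        inv_eq_of_mul_eq_one_right (by linear_combination hs)
      rw [e1]
      ring
    rw [e, abs_mul, abs_of_pos hs0]
    have h3 := mul_le_mul_of_nonneg_left (der_bound h1 h2 z) hs0.le
    have h4 := mul_le_mul_of_nonneg_left (abs_le_sg z) hR
    linarith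
  have hI : ∫ z in (-N)..N, sg z ^ 3 * κ z ≤ 3 / 2 * R * Real.pi := by
    have h3 : ∫ z in (-N)..N, sg z ^ 3 * κ z ≤ ∫ z in (-N)..N, 3 / 2 * R * (1 + z ^ 2)⁻¹ := by
      refine intervalIntegral.integral_mono_on (by linarith) (hc3.intervalIntegrable _ _) ?_ ?_
      · apply Continuous.intervalIntegrable
        refine continuous_const.mul (Continuous.inv₀ (by fun_prop) fun z => by positivity)
      · intro z _
        have hs := sg_sq z
        have hs0 := sg_pos z
        have e1 : (1 + z ^ 2)⁻¹ = sg z ^ 2 := by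
          rw [eq_comm, ← one_div, eq_div_iff (by positivity)]
          exact hs
        rw [e1]
        have h4 := (le_abs_self _).trans (kap_bound h1 h2 z)
        have h5 := mul_le_mul_of_nonneg_left (abs_le_sg z) hR
        calc sg z ^ 3 * κ z ≤ sg z ^ 3 * (R * (1 + |z|)) :=
              mul_le_mul_of_nonneg_left h4 (by positivity)
          _ = sg z ^ 2 * (R * ((1 + |z|) * sg z)) := by ring
          _ ≤ sg z ^ 2 * (R * (3 / 2)) := mul_le_mul_of_nonneg_left h5 (by positivity)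
          _ = 3 / 2 * R * sg z ^ 2 := by ring
    refine h3.trans ?_
    rw [intervalIntegral.integral_const_mul, integral_inv_one_add_sq]
    refine mul_le_mul_of_nonneg_left ?_ (by positivity)
    have h4 := Real.arctan_lt_pi_div_two N
    have h5 := Real.neg_pi_div_two_lt_arctan (-N)
    linarith
  have h3 := abs_le.1 (hDb N)
  have h4 := abs_le.1 (hDb (-N))
  have h5 := Real.pi_lt_d2
  have h6 : 3 / 2 * R * Real.pi ≤ 3 / 2 * R * 3.15 :=
    mul_le_mul_of_nonneg_left h5.le (by positivity)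
  linarith [h3.1, h3.2, h4.1, h4.2]

theorem part_two (m : ℕ) {C₂ : ℝ} (f : ℝ → ℝ) (hf : Continuous f)
    (hf0 : ∀ t ∈ Icc (-1 : ℝ) 1, 0 ≤ f t)
    (hC₂ : ∫ t in (-1 : ℝ)..1, f t * (1 - t ^ 2) ^ ((((m + 3 : ℕ) : ℝ) - 4) / 2) ≤ C₂) {N : ℝ}
    (hN : 0 ≤ N) : ∫ z in (-N)..N, sg z ^ (m + 2) * f (z * sg z) ≤ C₂ := by
  set w : ℝ → ℝ := fun t => f t * (1 - t ^ 2) ^ ((((m + 3 : ℕ) : ℝ) - 4) / 2) with hw
  have hsub := intervalIntegral.integral_comp_mul_deriv' (a := -N) (b := N)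
    (f := fun z => z * sg z) (f' := fun z => sg z ^ 3) (g := w) (fun x _ => T_deriv x)
    ((sg_cont.pow 3).continuousOn) ?_
  · have e1 : ∀ z, (w ∘ fun z => z * sg z) z * sg z ^ 3 = sg z ^ (m + 2) * f (z * sg z) := by
      intro z
      have hs0 := sg_pos z
      simp only [Function.comp, hw]
      have e2 : 1 - (z * sg z) ^ 2 = sg z ^ 2 := by
        linear_combination (-1 : ℝ) * sg_sq z
      rw [e2, ← Real.rpow_natCast (sg z) 2, ← Real.rpow_mul hs0.le, mul_assoc,
        ← Real.rpow_natCast (sg z) 3, ← Real.rpow_add hs0, ← Real.rpow_natCast (sg z) (m + 2),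
        mul_comm]
      congr 2
      push_cast
      ring
    simp only [e1] at hsub
    rw [hsub]
    refine le_trans ?_ hC₂
    have hTmono : (-N) * sg (-N) ≤ N * sg N := by
      rw [sg_neg]
      have := mul_nonneg hN (sg_pos N).le
      linarith
    refine intervalIntegral.integral_mono_interval (T_abs (-N)).1 hTmono (T_abs N).2 ?_ ?_
    · refine (ae_restrict_mem measurableSet_Ioc).mono fun t ht => ?_
      show 0 ≤ w t
      refine mul_nonneg (hf0 t ⟨ht.1.le, ht.2⟩) (Real.rpow_nonneg ?_ _)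
      nlinarith [ht.1, ht.2]
    · rw [intervalIntegrable_iff_integrableOn_Icc_of_le (by norm_num)]
      exact Pool.Agent.Helper115_ME.C04.w_mul_int (n := m + 3) (by omega) hf
  · rintro _ ⟨z, -, rfl⟩
    apply ContinuousAt.continuousWithinAt
    refine hf.continuousAt.mul ?_
    refine ContinuousAt.rpow_const (by fun_prop) (Or.inl ?_)
    have e2 : 1 - (z * sg z) ^ 2 = sg z ^ 2 := by
      linear_combination (-1 : ℝ) * sg_sq z
    rw [e2]
    have := sg_pos z
    positivity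

theorem line_bound {n : ℕ} (hn : 3 ≤ n) (f : ℝ → ℝ) (hf : ContDiff ℝ 2 f) (hf0 : ∀ t ∈ Icc (-1 : ℝ) 1, 0 ≤ f t)
    {C₁ C₂ R : ℝ} (hC₁ : ∀ t ∈ Icc (-1 : ℝ) 1, f t * (√(1 - t ^ 2)) ^ (n - 2) ≤ C₁)
    (hC₂ : ∫ t in (-1 : ℝ)..1, f t * (1 - t ^ 2) ^ (((n : ℝ) - 4) / 2) ≤ C₂) (hR : 0 ≤ R)
    (κ : ℝ → ℝ) (hκ : ContDiff ℝ 2 κ) (hκ2 : ∀ z, 0 ≤ deriv (deriv κ) z)
    (h1 : ∀ z, |deriv κ z| ≤ R) (h2 : ∀ z, |κ z - z * deriv κ z| ≤ R) :
    ∫ z : ℝ, κ z * ((1 - (z / √(1 + z ^ 2)) ^ 2) * deriv (deriv f) (z / √(1 + z ^ 2)) -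
        ((n : ℝ) - 1) * (z / √(1 + z ^ 2)) * deriv f (z / √(1 + z ^ 2)) +
        ((n : ℝ) - 1) * f (z / √(1 + z ^ 2))) * ((√(1 + z ^ 2)) ^ (n + 1))⁻¹ ≤
      (8 * C₁ + ((n : ℝ) - 2) * C₂) * R := by
  obtain ⟨m, rfl⟩ : ∃ m, n = m + 3 := ⟨n - 3, by omega⟩
  have hfd : ContDiff ℝ 1 (deriv f) := by
    have h : ContDiff ℝ (1 + 1) f := by
      rw [one_add_one_eq_two]
      exact hf
    exact (contDiff_succ_iff_deriv.1 h).2.2
  have hκd : ContDiff ℝ 1 (deriv κ) := by
    have h : ContDiff ℝ (1 + 1) κ := by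
      rw [one_add_one_eq_two]
      exact hκ
    exact (contDiff_succ_iff_deriv.1 h).2.2
  have hf1 : ∀ x, HasDerivAt f (deriv f x) x := fun x =>
    (hf.differentiable (by norm_num) x).hasDerivAt
  have hf2 : ∀ x, HasDerivAt (deriv f) (deriv (deriv f) x) x := fun x =>
    (hfd.differentiable (by norm_num) x).hasDerivAt
  have hk1 : ∀ x, HasDerivAt κ (deriv κ x) x := fun x =>
    (hκ.differentiable (by norm_num) x).hasDerivAt
  have hk2 : ∀ x, HasDerivAt (deriv κ) (deriv (deriv κ) x) x := fun x =>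
    (hκd.differentiable (by norm_num) x).hasDerivAt
  have cf0 : Continuous f := hf.continuous
  have cf1 : Continuous (deriv f) := hfd.continuous
  have cf2 : Continuous (deriv (deriv f)) := hfd.continuous_deriv le_rfl
  have ck0 : Continuous κ := hκ.continuous
  have ck1 : Continuous (deriv κ) := hκd.continuous
  have ck2 : Continuous (deriv (deriv κ)) := hκd.continuous_deriv le_rfl
  have hsc := sg_cont
  have hTc : Continuous (fun z => z * sg z) := continuous_id.mul hsc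
  have cfT : Continuous (fun z => f (z * sg z)) := cf0.comp hTc
  have cfT1 : Continuous (fun z => deriv f (z * sg z)) := cf1.comp hTc
  have cfT2 : Continuous (fun z => deriv (deriv f) (z * sg z)) := cf2.comp hTc
  -- the integrand
  set I0 : ℝ → ℝ := fun z => κ z * ((1 - (z * sg z) ^ 2) * deriv (deriv f) (z * sg z) -
      ((m : ℝ) + 2) * (z * sg z) * deriv f (z * sg z) + ((m : ℝ) + 2) * f (z * sg z)) *
      sg z ^ (m + 4) with hI0
  have hI : ∀ z : ℝ, κ z * ((1 - (z / √(1 + z ^ 2)) ^ 2) * deriv (deriv f) (z / √(1 + z ^ 2)) -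
        (((m + 3 : ℕ) : ℝ) - 1) * (z / √(1 + z ^ 2)) * deriv f (z / √(1 + z ^ 2)) +
        (((m + 3 : ℕ) : ℝ) - 1) * f (z / √(1 + z ^ 2))) * ((√(1 + z ^ 2)) ^ (m + 3 + 1))⁻¹ = I0 z := by
    intro z
    have e1 : z / √(1 + z ^ 2) = z * sg z := div_eq_mul_inv _ _
    have e2 : ((√(1 + z ^ 2)) ^ (m + 3 + 1))⁻¹ = sg z ^ (m + 4) := by
      unfold sg
      rw [inv_pow]
    have e3 : (((m + 3 : ℕ) : ℝ) - 1) = (m : ℝ) + 2 := by push_cast; ring
    rw [e1, e2, e3]
  simp only [hI]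
  have hm2 : (((m + 3 : ℕ) : ℝ) - 2) = (m : ℝ) + 1 := by push_cast; ring
  rw [hm2]
  have cI0 : Continuous I0 := by
    rw [hI0]
    fun_prop
  -- bounds on `f`, `f'`
  obtain ⟨P0, hP0⟩ := (isCompact_Icc (a := (-1 : ℝ)) (b := 1)).exists_bound_of_continuousOn
    cf0.continuousOn
  obtain ⟨P1, hP1⟩ := (isCompact_Icc (a := (-1 : ℝ)) (b := 1)).exists_bound_of_continuousOn
    cf1.continuousOn
  obtain ⟨P2, hP2⟩ := (isCompact_Icc (a := (-1 : ℝ)) (b := 1)).exists_bound_of_continuousOn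
    (f := fun t => (1 - t ^ 2) * deriv (deriv f) t - ((m : ℝ) + 2) * t * deriv f t +
      ((m : ℝ) + 2) * f t) (by fun_prop)
  have hP00 : 0 ≤ P0 := (norm_nonneg _).trans (hP0 0 (by simp))
  have hP10 : 0 ≤ P1 := (norm_nonneg _).trans (hP1 0 (by simp))
  have hP20 : 0 ≤ P2 := (norm_nonneg _).trans (hP2 0 (by simp))
  have hC₁0 : 0 ≤ C₁ := by
    have h := hC₁ 0 (by simp)
    have h' := hf0 0 (by simp)
    simp at h
    linarith
  -- integrability
  have hint : Integrable I0 := by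
    have h3 := Pool.Agent.Helper115_ME.C04.int_rho (n := m + 3) (by omega)
      (φ := fun z => κ z * ((1 - (z * sg z) ^ 2) * deriv (deriv f) (z * sg z) -
      ((m : ℝ) + 2) * (z * sg z) * deriv f (z * sg z) + ((m : ℝ) + 2) * f (z * sg z)))
      (by fun_prop) (A := R * P2) (by
        intro z
        rw [abs_mul]
        have h4 := hP2 _ (T_abs z)
        rw [Real.norm_eq_abs] at h4
        calc |κ z| * _ ≤ (R * (1 + |z|)) * P2 :=
              mul_le_mul (kap_bound h1 h2 z) h4 (abs_nonneg _) (by positivity)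
          _ = R * P2 * (1 + |z|) := by ring)
    refine h3.congr (Eventually.of_forall fun z => ?_)
    have e2 : ((√(1 + z ^ 2)) ^ (m + 3 + 1))⁻¹ = sg z ^ (m + 4) := by
      unfold sg
      rw [inv_pow]
    simp only [e2]
    rfl
  -- the boundary term
  set B : ℝ → ℝ := fun z => sg z ^ m * f (z * sg z) * deriv κ z -
        (z * sg z ^ (m + 2) * f (z * sg z) + sg z ^ (m + 3) * deriv f (z * sg z)) * κ z with hB
  have hBd : ∀ z, HasDerivAt B (sg z ^ m * f (z * sg z) * deriv (deriv κ) z +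
      ((m : ℝ) + 1) * (sg z ^ (m + 2) * f (z * sg z) * (κ z - z * deriv κ z)) - I0 z) z := fun z =>
    B_deriv m f κ z (hf1 _) rfl (hf2 _) (hk1 z) rfl (hk2 z)
  have hBb : ∀ z, |B z| ≤ 3 / 2 * R * (P0 + P1) * sg z := by
    intro z
    have hs := sg_sq z
    have hs0 := sg_pos z
    have hs1 := sg_le_one z
    have hab := abs_le_sg z
    have e : B z = sg z ^ m * f (z * sg z) * (sg z ^ 2 * (deriv κ z - z * (κ z - z * deriv κ z))) -
        sg z ^ (m + 3) * deriv f (z * sg z) * κ z := by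
      simp only [hB]
      have e2 : sg z ^ (m + 2) = sg z ^ m * sg z ^ 2 := pow_add _ _ _
      rw [e2]
      linear_combination (-(sg z ^ m * f (z * sg z) * deriv κ z)) * hs
    have hp0 : |f (z * sg z)| ≤ P0 := by
      have := hP0 _ (T_abs z)
      rwa [Real.norm_eq_abs] at this
    have hp1 : |deriv f (z * sg z)| ≤ P1 := by
      have := hP1 _ (T_abs z)
      rwa [Real.norm_eq_abs] at this
    have hpm : sg z ^ m ≤ 1 := pow_le_one₀ hs0.le hs1
    have t1 : |sg z ^ m * f (z * sg z) * (sg z ^ 2 * (deriv κ z - z * (κ z - z * deriv κ z)))| ≤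
        3 / 2 * R * P0 * sg z := by
      rw [abs_mul, abs_mul, abs_mul, abs_of_nonneg (pow_nonneg hs0.le m),
        abs_of_nonneg (pow_nonneg hs0.le 2)]
      calc sg z ^ m * |f (z * sg z)| * (sg z ^ 2 * |deriv κ z - z * (κ z - z * deriv κ z)|)
          ≤ 1 * P0 * (sg z ^ 2 * (R * (1 + |z|))) := by
            refine mul_le_mul (mul_le_mul hpm hp0 (abs_nonneg _) zero_le_one)
              (mul_le_mul_of_nonneg_left (der_bound h1 h2 z) (by positivity)) (by positivity)
              (by positivity)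
        _ = (R * P0 * sg z) * ((1 + |z|) * sg z) := by ring
        _ ≤ (R * P0 * sg z) * (3 / 2) := mul_le_mul_of_nonneg_left hab (by positivity)
        _ = _ := by ring
    have t2 : |sg z ^ (m + 3) * deriv f (z * sg z) * κ z| ≤ 3 / 2 * R * P1 * sg z := by
      rw [abs_mul, abs_mul, abs_of_nonneg (pow_nonneg hs0.le (m + 3))]
      have e3 : sg z ^ (m + 3) = sg z ^ (m + 1) * sg z * sg z := by ring
      have hpm1 : sg z ^ (m + 1) ≤ 1 := pow_le_one₀ hs0.le hs1
      calc sg z ^ (m + 3) * |deriv f (z * sg z)| * |κ z|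
          ≤ sg z ^ (m + 3) * P1 * (R * (1 + |z|)) := by
            refine mul_le_mul (mul_le_mul_of_nonneg_left hp1 (by positivity)) (kap_bound h1 h2 z)
              (abs_nonneg _) (by positivity)
        _ = sg z ^ (m + 1) * ((R * P1 * sg z) * ((1 + |z|) * sg z)) := by rw [e3]; ring
        _ ≤ 1 * ((R * P1 * sg z) * (3 / 2)) := by
            refine mul_le_mul hpm1 (mul_le_mul_of_nonneg_left hab (by positivity)) ?_ zero_le_one
            have : 0 ≤ 1 + |z| := by positivity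
            positivity
        _ = _ := by ring
    rw [e]
    refine (abs_sub _ _).trans ?_
    linarith
  -- the bound on intervals
  have key : ∀ N : ℝ, 0 ≤ N → ∫ z in (-N)..N, I0 z ≤
      (8 * C₁ + ((m : ℝ) + 1) * C₂) * R + 3 * R * (P0 + P1) * sg N := by
    intro N hN
    have cI1 : Continuous (fun z => sg z ^ m * f (z * sg z) * deriv (deriv κ) z) := by fun_prop
    have cI2 : Continuous (fun z => ((m : ℝ) + 1) *
        (sg z ^ (m + 2) * f (z * sg z) * (κ z - z * deriv κ z))) := by fun_prop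
    have cI12 : Continuous (fun z => sg z ^ m * f (z * sg z) * deriv (deriv κ) z + ((m : ℝ) + 1) *
        (sg z ^ (m + 2) * f (z * sg z) * (κ z - z * deriv κ z))) := cI1.add cI2
    have hFT := intervalIntegral.integral_eq_sub_of_hasDerivAt (a := -N) (b := N)
      (fun z _ => hBd z) ((cI12.sub cI0).intervalIntegrable _ _)
    rw [intervalIntegral.integral_sub (cI12.intervalIntegrable _ _)
      (cI0.intervalIntegrable _ _), intervalIntegral.integral_add (cI1.intervalIntegrable _ _)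
      (cI2.intervalIntegrable _ _), intervalIntegral.integral_const_mul] at hFT
    have hinvc : Continuous (fun z => (sg z)⁻¹) := hsc.inv₀ fun z => (sg_pos z).ne'
    have p1 : ∫ z in (-N)..N, sg z ^ m * f (z * sg z) * deriv (deriv κ) z ≤ C₁ * (8 * R) := by
      have h3 : ∫ z in (-N)..N, sg z ^ m * f (z * sg z) * deriv (deriv κ) z ≤
          ∫ z in (-N)..N, C₁ * ((sg z)⁻¹ * deriv (deriv κ) z) := by
        refine intervalIntegral.integral_mono_on (by linarith) (cI1.intervalIntegrable _ _)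
          ((continuous_const.mul (hinvc.mul ck2)).intervalIntegrable _ _) fun z _ => ?_
        have hs0 := sg_pos z
        have h4 := hC₁ _ (T_abs z)
        have e2 : 1 - (z * sg z) ^ 2 = sg z ^ 2 := by
          linear_combination (-1 : ℝ) * sg_sq z
        have e3 : m + 3 - 2 = m + 1 := by omega
        rw [e2, Real.sqrt_sq hs0.le, e3] at h4
        have h5 : sg z ^ m * f (z * sg z) ≤ C₁ * (sg z)⁻¹ := by
          rw [← div_eq_mul_inv, le_div_iff₀ hs0]
          calc sg z ^ m * f (z * sg z) * sg z = f (z * sg z) * sg z ^ (m + 1) := by ring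
            _ ≤ C₁ := h4
        calc sg z ^ m * f (z * sg z) * deriv (deriv κ) z ≤ C₁ * (sg z)⁻¹ * deriv (deriv κ) z :=
              mul_le_mul_of_nonneg_right h5 (hκ2 z)
          _ = C₁ * ((sg z)⁻¹ * deriv (deriv κ) z) := by ring
      refine h3.trans ?_
      rw [intervalIntegral.integral_const_mul]
      exact mul_le_mul_of_nonneg_left (part_one hR κ hκ h1 h2 hN) hC₁0
    have p2 : ∫ z in (-N)..N, sg z ^ (m + 2) * f (z * sg z) * (κ z - z * deriv κ z) ≤ C₂ * R := by
      have h3 : ∫ z in (-N)..N, sg z ^ (m + 2) * f (z * sg z) * (κ z - z * deriv κ z) ≤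
          ∫ z in (-N)..N, (sg z ^ (m + 2) * f (z * sg z)) * R := by
        refine intervalIntegral.integral_mono_on (by linarith) ?_ ?_ fun z _ => ?_
        · apply Continuous.intervalIntegrable
          fun_prop
        · apply Continuous.intervalIntegrable
          fun_prop
        · exact mul_le_mul_of_nonneg_left ((le_abs_self _).trans (h2 z))
            (mul_nonneg (pow_nonneg (sg_pos z).le _) (hf0 _ (T_abs z)))
      refine h3.trans ?_
      rw [intervalIntegral.integral_mul_const]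
      exact mul_le_mul_of_nonneg_right (part_two m f cf0 hf0 hC₂ hN) hR
    have b1 := abs_le.1 (hBb N)
    have b2 := abs_le.1 (hBb (-N))
    rw [sg_neg] at b2
    have hm0 : (0 : ℝ) ≤ (m : ℝ) + 1 := by positivity
    have p3 := mul_le_mul_of_nonneg_left p2 hm0
    nlinarith [b1.1, b1.2, b2.1, b2.2, hFT, p1, p3]
  -- the limit
  have hlim := intervalIntegral_tendsto_integral hint (Filter.tendsto_neg_atTop_atBot (G := ℝ))
      (Filter.tendsto_id (α := ℝ))
  have hsg0 : Tendsto sg atTop (𝓝 0) := by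
    refine squeeze_zero' (Eventually.of_forall fun z => (sg_pos z).le) ?_ tendsto_inv_atTop_zero
    filter_upwards [eventually_gt_atTop (0 : ℝ)] with z hz
    unfold sg
    refine inv_anti₀ hz ?_
    apply Real.le_sqrt_of_sq_le
    linarith
  have hlim2 : Tendsto (fun N : ℝ => (8 * C₁ + ((m : ℝ) + 1) * C₂) * R + 3 * R * (P0 + P1) * sg N)
      atTop (𝓝 ((8 * C₁ + ((m : ℝ) + 1) * C₂) * R + 3 * R * (P0 + P1) * 0)) :=
    (hsg0.const_mul _).const_add _
  rw [mul_zero, add_zero] at hlim2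
  refine le_of_tendsto_of_tendsto hlim hlim2 ?_
  filter_upwards [eventually_ge_atTop (0 : ℝ)] with N hN
  exact key N hN

end Pool.Agent.Helper115_ME.VV
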