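import Mathlib
import Pool.Agent.Helper115_ME.VV.Dens
import Pool.Agent.Helper115_ME.VV.V04

/-!
# Upper bound of the curvature functional of a smooth nonnegative density
-/

set_option autoImplicit false

namespace Pool.Agent.Helper115_ME

open MeasureTheory Metric Set Filter Topology
open scoped ContDiff

noncomputable section

variable {n : ℕ}

/-- `L f(t) = (1-t²) f''(t) - (n-1) t f'(t) + (n-1) f(t)` -/
def Lz (n : ℕ) (f : ℝ → ℝ) (t : ℝ) : ℝ :=
  (1 - t ^ 2) * deriv (deriv f) t - ((n : ℝ) - 1) * t * deriv f t + ((n : ℝ) - 1) * f t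

/-- the curvature functional of a smooth density -/
theorem ell_smooth_density {e w : E n} (h : Orthonormal ℝ ![e, w]) {f : ℝ → ℝ} (hf : ContDiff ℝ 2 f)
    {μ : Distr n} (hμ : ∀ F : SmoothFun n, val μ F = ∫ v : Sph n, F.1 v * f (inner ℝ e (v : E n)) ∂(sig n))
    (hμc : IsContFun μ) {K : ConvexBody (E n)} (hK : IsSmooth (hS K)) :
    ell h hμc (suppS K hK) = ∫ v : Sph n, hS K v * (f (inner ℝ e (v : E n)) -
      inner ℝ e (v : E n) * deriv f (inner ℝ e (v : E n)) +
      deriv (deriv f) (inner ℝ e (v : E n)) * (inner ℝ w (v : E n)) ^ 2) ∂(sig n) := by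
  have hcont : ∀ x : E n, Continuous fun v : Sph n => hS K v * f (inner ℝ x (v : E n)) := fun x =>
    (continuous_hS K).mul (hf.continuous.comp (by fun_prop : Continuous fun v : Sph n => (inner ℝ x (v : E n) : ℝ)))
  have h1 : circF h μ (suppS K hK) =
      fun θ : ℝ => ∫ v : Sph n, hS K v * f (inner ℝ (Real.cos θ • e + Real.sin θ • w) (v : E n)) ∂(sig n) := by
    funext θ
    have h2 : circF h μ (suppS K hK) θ =
        ∫ v : Sph n, hS K (act (planeRot h θ) v) * f (inner ℝ e (v : E n)) ∂(sig n) := hμ _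
    rw [h2, ← planeRot_fst h θ, ← integral_comp_act (planeRot h θ)
      (integrable_sig (hcont (planeRot h θ e))).aestronglyMeasurable]
    refine integral_congr_ae (Eventually.of_forall fun v => ?_)
    show hS K (act (planeRot h θ) v) * f (inner ℝ e (v : E n)) =
      hS K (act (planeRot h θ) v) * f (inner ℝ (planeRot h θ e) (planeRot h θ (v : E n)))
    rw [LinearIsometryEquiv.inner_map_map]
  have h3 : μ (suppS K hK) = ∫ v : Sph n, hS K v * f (inner ℝ e (v : E n)) ∂(sig n) := hμ _
  rw [ell_apply, h1, h3]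
  exact (C07.sphere_second_deriv f hf (hS K) (continuous_hS K) e w).2

/-- the trace bound -/
theorem ell_le_trace (hn : 2 ≤ n) {e w : E n} (h : Orthonormal ℝ ![e, w]) {f : ℝ → ℝ} (hf : ContDiff ℝ 2 f)
    (hf0 : ∀ t ∈ Ioo (-1 : ℝ) 1, 0 ≤ f t)
    {μ : Distr n} (hμ : ∀ F : SmoothFun n, val μ F = ∫ v : Sph n, F.1 v * f (inner ℝ e (v : E n)) ∂(sig n))
    (hμc : IsContFun μ) {K : ConvexBody (E n)} (hK : IsSmooth (hS K)) :
    ell h hμc (suppS K hK) ≤ ∫ v : Sph n, hS K v * Lz n f (inner ℝ e (v : E n)) ∂(sig n) := by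
  obtain ⟨hd1, hd2⟩ := continuous_deriv_one hf
  have hce : Continuous (fun v : Sph n => (inner ℝ e (v : E n) : ℝ)) := by fun_prop
  have hG : Integrable (fun v : Sph n => f (inner ℝ e (v : E n))) (sig n) := integrable_sig (hf.continuous.comp hce)
  -- an orthonormal basis through e and w
  obtain ⟨he, hw, hew⟩ := pair_orthonormal h
  obtain ⟨b, i, j, hij, hbi, hbj⟩ : ∃ (b : OrthonormalBasis (Fin n) ℝ (E n)) (i j : Fin n), i ≠ j ∧ b i = e ∧ b j = w := by
    have hcard : Module.finrank ℝ (E n) = Fintype.card (Fin n) := by simp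
    set i : Fin n := ⟨0, by omega⟩
    set j : Fin n := ⟨1, by omega⟩
    have hij : i ≠ j := by simp [i, j]
    have hv : Orthonormal ℝ (({i, j} : Set (Fin n)).domRestrict (fun k => if k = i then e else w)) := by
      refine ⟨fun k => ?_, fun k l hkl => ?_⟩
      · show ‖if (k : Fin n) = i then e else w‖ = 1
        split_ifs
        · exact he
        · exact hw
      · show inner ℝ (if (k : Fin n) = i then e else w) (if (l : Fin n) = i then e else w) = (0 : ℝ)
        have hk : (k : Fin n) = i ∨ (k : Fin n) = j := by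
          rcases k.2 with h1 | h1
          · exact Or.inl h1
          · exact Or.inr h1
        have hl : (l : Fin n) = i ∨ (l : Fin n) = j := by
          rcases l.2 with h1 | h1
          · exact Or.inl h1
          · exact Or.inr h1
        have hkl' : (k : Fin n) ≠ l := fun hh => hkl (Subtype.ext hh)
        rcases hk with hk | hk <;> rcases hl with hl | hl
        · exact absurd (hk.trans hl.symm) hkl'
        · rw [if_pos hk, if_neg (by rw [hl]; exact hij.symm)]; exact hew
        · rw [if_neg (by rw [hk]; exact hij.symm), if_pos hl, real_inner_comm]; exact hew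
        · exact absurd (hk.trans hl.symm) hkl'
    obtain ⟨b, hb⟩ := Orthonormal.exists_orthonormalBasis_extension_of_card_eq hcard hv
    refine ⟨b, i, j, hij, ?_, ?_⟩
    · rw [hb i (by simp)]; simp
    · rw [hb j (by simp)]; simp [hij.symm]
  have hpair : ∀ k, k ≠ i → Orthonormal ℝ ![e, b k] := fun k hk =>
    orthonormal_pair he (b.orthonormal.1 k) (by rw [← hbi]; exact b.orthonormal.2 hk.symm)
  -- the terms
  set I : Fin n → ℝ := fun k => ∫ v : Sph n, hS K v * (f (inner ℝ e (v : E n)) -
      inner ℝ e (v : E n) * deriv f (inner ℝ e (v : E n)) +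
      deriv (deriv f) (inner ℝ e (v : E n)) * (inner ℝ (b k) (v : E n)) ^ 2) ∂(sig n) with hI
  have hIk : ∀ k, k ≠ i → 0 ≤ I k := fun k hk => by
    have h1 := ell_density_nonneg hn (hpair k hk) hG hf0 hμ hμc hK
    rwa [ell_smooth_density (hpair k hk) hf hμ hμc hK] at h1
  have hIw : ell h hμc (suppS K hK) = I j := by
    rw [ell_smooth_density h hf hμ hμc hK]
    simp only [hI, hbj]
  have hint : ∀ k, Integrable (fun v : Sph n => hS K v * (f (inner ℝ e (v : E n)) -
      inner ℝ e (v : E n) * deriv f (inner ℝ e (v : E n)) +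
      deriv (deriv f) (inner ℝ e (v : E n)) * (inner ℝ (b k) (v : E n)) ^ 2)) (sig n) := fun k => by
    have hck : Continuous (fun v : Sph n => (inner ℝ (b k) (v : E n) : ℝ)) := by fun_prop
    exact integrable_sig ((continuous_hS K).mul (((hf.continuous.comp hce).sub (hce.mul (hd1.comp hce))).add
      ((hd2.comp hce).mul (hck.pow 2))))
  have hsum : ∑ k ∈ Finset.univ.erase i, I k = ∫ v : Sph n, hS K v * Lz n f (inner ℝ e (v : E n)) ∂(sig n) := by
    simp only [hI]
    rw [← integral_finsetSum _ fun k _ => hint k]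
    refine integral_congr_ae (Eventually.of_forall fun v => ?_)
    simp only
    rw [← Finset.mul_sum, Finset.sum_add_distrib, Finset.sum_const, Finset.card_erase_of_mem (Finset.mem_univ i),
      ← Finset.mul_sum]
    have h3 : ∑ k, (inner ℝ (b k) (v : E n)) ^ 2 = (1 : ℝ) := by
      have := b.sum_sq_norm_inner_right (v : E n)
      simpa using this
    rw [← Finset.add_sum_erase _ _ (Finset.mem_univ i), hbi] at h3
    have h4 : ∑ k ∈ Finset.univ.erase i, (inner ℝ (b k) (v : E n)) ^ 2 = (1 : ℝ) - (inner ℝ e (v : E n)) ^ 2 := by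
      linarith
    rw [h4]
    simp only [Finset.card_univ, Fintype.card_fin, nsmul_eq_mul]
    rw [Nat.cast_sub (by omega)]
    unfold Lz
    push_cast
    ring
  rw [hIw, ← hsum]
  exact Finset.single_le_sum (f := I) (fun k hk => hIk k (Finset.ne_of_mem_erase hk))
    (Finset.mem_erase.2 ⟨hij.symm, Finset.mem_univ j⟩)

/-- along a line the support function of a body in the ball of radius `R` -/
theorem line_facts {K : ConvexBody (E n)} (hK : IsSmooth (hS K)) {R : ℝ} (hR : ∀ x ∈ (K : Set (E n)), ‖x‖ ≤ R)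
    {y e : E n} (hy : ‖y‖ = 1) (he : ‖e‖ = 1) (hey : inner ℝ e y = (0 : ℝ)) :
    ContDiff ℝ 2 (fun z : ℝ => supp K (y + z • e)) ∧ (∀ z, 0 ≤ deriv (deriv (fun z : ℝ => supp K (y + z • e))) z) ∧
      (∀ z, |deriv (fun z : ℝ => supp K (y + z • e)) z| ≤ R) ∧
      ∀ z, |supp K (y + z • e) - z * deriv (fun z : ℝ => supp K (y + z • e)) z| ≤ R := by
  set κ : ℝ → ℝ := fun z : ℝ => supp K (y + z • e) with hκ
  have hne : ∀ z : ℝ, y + z • e ≠ 0 := fun z h0 => by
    have h1 : inner ℝ y (y + z • e) = (1 : ℝ) := by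
      rw [inner_add_right, inner_smul_right, real_inner_self_eq_norm_sq, hy, real_inner_comm, hey]; norm_num
    rw [h0, inner_zero_right] at h1
    exact zero_ne_one h1
  have hsupp : ∀ x : E n, x ≠ 0 → supp K x = ‖x‖ * ext0 (hS K) x := fun x hx => by
    rw [ext0_apply _ hx]
    show supp K x = ‖x‖ * supp K (‖x‖⁻¹ • x)
    rw [supp_smul K (by positivity), ← mul_assoc, mul_inv_cancel₀ (norm_ne_zero_iff.2 hx), one_mul]
  have hsm : ContDiff ℝ 2 κ := by
    rw [contDiff_iff_contDiffAt]
    intro z
    have h1 : ContDiffAt ℝ 2 (fun x : E n => ‖x‖ * ext0 (hS K) x) (y + z • e) :=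
      (contDiffAt_norm ℝ (hne z)).mul
        ((ContDiffOn.contDiffAt hK (isOpen_compl_singleton.mem_nhds (hne z))).of_le two_le_infty)
    have h2 : ContDiffAt ℝ 2 (fun z : ℝ => y + z • e) z := by fun_prop
    have h3 := ContDiffAt.comp z h1 h2
    refine h3.congr_of_eventuallyEq (Eventually.of_forall fun t => ?_)
    exact hsupp _ (hne t)
  have hconv : ConvexOn ℝ univ κ := by
    refine ⟨convex_univ, fun s _ t _ a b ha hb hab => ?_⟩
    simp only [hκ, smul_eq_mul]
    rw [← supp_smul K ha, ← supp_smul K hb]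
    refine le_trans (le_of_eq ?_) (supp_add_le K _ _)
    congr 1
    have : y = (a + b) • y := by rw [hab, one_smul]
    conv_lhs => rw [this]
    module
  have hd : Differentiable ℝ κ := hsm.differentiable (by norm_num)
  have hmono : Monotone (deriv κ) := by
    have := hconv.monotoneOn_deriv (fun x _ => (hd x))
    exact monotoneOn_univ.1 this
  -- the maximising point
  have hpt : ∀ z, ∃ p ∈ (K : Set (E n)), κ z = inner ℝ p y + z * inner ℝ p e ∧ deriv κ z = inner ℝ p e := by
    intro z
    obtain ⟨p, hp, hpe⟩ := exists_supp_eq K (y + z • e)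
    have h1 : κ z = inner ℝ p y + z * inner ℝ p e := by
      simp only [hκ]
      rw [hpe, inner_add_right, inner_smul_right]
    refine ⟨p, hp, h1, ?_⟩
    set φ : ℝ → ℝ := fun t => κ t - (inner ℝ p y + t * inner ℝ p e) with hφ
    have h2 : IsLocalMin φ z := by
      refine Eventually.of_forall fun t => ?_
      simp only [hφ]
      rw [h1]
      have h3 := inner_le_supp K hp (y + t • e)
      rw [inner_add_right, inner_smul_right] at h3
      have : κ t = supp K (y + t • e) := rfl
      linarith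
    have h3 : HasDerivAt φ (deriv κ z - inner ℝ p e) z := by
      have h4 : HasDerivAt (fun t : ℝ => (inner ℝ p y : ℝ) + t * inner ℝ p e) (inner ℝ p e) z := by
        simpa using ((hasDerivAt_id z).mul_const (inner ℝ p e : ℝ)).const_add (inner ℝ p y : ℝ)
      exact (hd z).hasDerivAt.sub h4
    have h4 := h2.hasDerivAt_eq_zero h3
    linarith
  refine ⟨hsm, fun z => hmono.deriv_nonneg, fun z => ?_, fun z => ?_⟩
  · obtain ⟨p, hp, -, h2⟩ := hpt z
    rw [h2]
    refine (abs_real_inner_le_norm p e).trans ?_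
    rw [he, mul_one]; exact hR p hp
  · obtain ⟨p, hp, h1, h2⟩ := hpt z
    have h3 : supp K (y + z • e) = κ z := rfl
    rw [h2, h3, h1]
    have h4 : (inner ℝ p y : ℝ) + z * inner ℝ p e - z * inner ℝ p e = inner ℝ p y := by ring
    rw [h4]
    refine (abs_real_inner_le_norm p y).trans ?_
    rw [hy, mul_one]; exact hR p hp

end

end Pool.Agent.Helper115_ME
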