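import Mathlib
import Pool.Agent.Helper115_ME.VV.SmoothBound

/-!
# Upper bound of the trace for smooth nonnegative densities
-/

set_option autoImplicit false

namespace Pool.Agent.Helper115_ME

open MeasureTheory Metric Set Filter Topology
open scoped ContDiff

noncomputable section

variable {n : ℕ}

theorem integrable_inv_rho_pow (hn : 3 ≤ n) : Integrable (fun z : ℝ => ((√(1 + z ^ 2)) ^ n)⁻¹) := by
  refine (C05.base_int hn).mono' ?_ ?_
  · refine Continuous.aestronglyMeasurable ?_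
    refine Continuous.inv₀ (by fun_prop) fun z => ?_
    have : 0 < √(1 + z ^ 2) := Real.sqrt_pos.2 (by positivity)
    positivity
  · refine Eventually.of_forall fun z => ?_
    have h0 : 0 < C05.rr z := C05.rr_pos z
    have h1 : C05.rr z ≤ 1 + |z| := by
      have h2 : C05.rr z ^ 2 ≤ (1 + |z|) ^ 2 := by
        rw [C05.rr_sq]
        nlinarith [abs_nonneg z, sq_abs z]
      exact (pow_le_pow_iff_left₀ h0.le (by positivity) two_ne_zero).1 h2
    show ‖(C05.rr z ^ n)⁻¹‖ ≤ _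
    rw [Real.norm_of_nonneg (by positivity)]
    have h3 : (C05.rr z ^ n)⁻¹ = C05.rr z * (C05.rr z ^ (n + 1))⁻¹ := by
      rw [pow_succ]; field_simp
    rw [h3]
    exact mul_le_mul_of_nonneg_right h1 (by positivity)

theorem int_rho_pos (hn : 3 ≤ n) : 0 < ∫ z : ℝ, ((√(1 + z ^ 2)) ^ n)⁻¹ := by
  rw [integral_pos_iff_support_of_nonneg (fun z => by positivity) (integrable_inv_rho_pow hn)]
  have : Function.support (fun z : ℝ => ((√(1 + z ^ 2)) ^ n)⁻¹) = univ := by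
    ext z
    simp only [Function.mem_support, mem_univ, iff_true]
    have : 0 < √(1 + z ^ 2) := Real.sqrt_pos.2 (by positivity)
    positivity
  rw [this]
  simp

theorem continuous_Lz {f : ℝ → ℝ} (hf : ContDiff ℝ 2 f) : Continuous (Lz n f) := by
  obtain ⟨hd1, hd2⟩ := continuous_deriv_one hf
  have := hf.continuous
  unfold Lz
  fun_prop

/-- the bound on the sphere -/
theorem sphere_bound (hn : 3 ≤ n) {e : E n} (he : ‖e‖ = 1) {f : ℝ → ℝ} (hf : ContDiff ℝ 2 f)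
    (hf0 : ∀ t ∈ Icc (-1 : ℝ) 1, 0 ≤ f t) {C₁ C₂ R : ℝ}
    (hC₁ : ∀ t ∈ Icc (-1 : ℝ) 1, f t * (√(1 - t ^ 2)) ^ (n - 2) ≤ C₁)
    (hC₂ : ∫ t in (-1 : ℝ)..1, f t * (1 - t ^ 2) ^ (((n : ℝ) - 4) / 2) ≤ C₂) (hR0 : 0 ≤ R)
    {K : ConvexBody (E n)} (hK : IsSmooth (hS K)) (hR : ∀ x ∈ (K : Set (E n)), ‖x‖ ≤ R) :
    ∫ v : Sph n, hS K v * Lz n f (inner ℝ e (v : E n)) ∂(sig n) ≤
      ((∫ z : ℝ, ((√(1 + z ^ 2)) ^ n)⁻¹)⁻¹ * (sig n).real univ) * ((8 * C₁ + ((n : ℝ) - 2) * C₂) * R) := by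
  set In : ℝ := ∫ z : ℝ, ((√(1 + z ^ 2)) ^ n)⁻¹ with hIn
  have hIpos : 0 < In := int_rho_pos hn
  set B : ℝ := (8 * C₁ + ((n : ℝ) - 2) * C₂) * R with hB
  set c₀ : ℝ := In⁻¹ * B with hc₀
  have hLc := continuous_Lz (n := n) hf
  set F : E n → ℝ := fun x => c₀ * (‖x‖ ^ n)⁻¹ - supp K x * (Lz n f (inner ℝ e x / ‖x‖) * (‖x‖ ^ (n + 1))⁻¹) with hF
  have hce : Continuous (fun x : E n => (inner ℝ e x : ℝ)) := by fun_prop
  have hmeas : Measurable F := by
    have h1 : Measurable (supp K) := (continuous_supp K).measurable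
    have h2 : Measurable (fun x : E n => (inner ℝ e x / ‖x‖ : ℝ)) := hce.measurable.div measurable_norm
    have h3 : Measurable (fun x : E n => Lz n f (inner ℝ e x / ‖x‖)) := hLc.measurable.comp h2
    exact ((measurable_norm.pow_const n).inv.const_mul c₀).sub (h1.mul (h3.mul (measurable_norm.pow_const (n + 1)).inv))
  have hval : ∀ x : E n, ‖x‖ = 1 → F x = c₀ - supp K x * Lz n f (inner ℝ e x) := by
    intro x hx
    simp only [hF, hx, div_one, one_pow, inv_one, mul_one]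
  have h0 := C01.sphere_nonneg_of_lines (by omega) e he F hmeas ?_ ?_ ?_
  · have h1 : (fun v : Sph n => F v) = fun v : Sph n =>
        c₀ - hS K v * Lz n f (inner ℝ e (v : E n)) := by
      funext v
      exact hval v (norm_coe_sph v)
    rw [h1] at h0
    have hcv : Continuous (fun v : Sph n => (inner ℝ e (v : E n) : ℝ)) := by fun_prop
    have i1 : Integrable (fun v : Sph n => hS K v * Lz n f (inner ℝ e (v : E n))) (sig n) :=
      integrable_sig ((continuous_hS K).mul (hLc.comp hcv))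
    rw [integral_sub (integrable_const _) i1, integral_const, smul_eq_mul] at h0
    have h2 : (sig n).real univ * c₀ = In⁻¹ * (sig n).real univ * B := by rw [hc₀]; ring
    linarith
  · intro c hc x
    have hcn : ‖c • x‖ = c * ‖x‖ := by rw [norm_smul, Real.norm_of_nonneg hc.le]
    have e1 : inner ℝ e (c • x) / ‖c • x‖ = inner ℝ e x / ‖x‖ := by
      rw [hcn, inner_smul_right, mul_div_mul_left _ _ hc.ne']
    show c₀ * (‖c • x‖ ^ n)⁻¹ - supp K (c • x) * (Lz n f (inner ℝ e (c • x) / ‖c • x‖) * (‖c • x‖ ^ (n + 1))⁻¹) =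
      (c ^ n)⁻¹ * (c₀ * (‖x‖ ^ n)⁻¹ - supp K x * (Lz n f (inner ℝ e x / ‖x‖) * (‖x‖ ^ (n + 1))⁻¹))
    rw [e1, hcn, supp_smul K hc.le, mul_pow, mul_pow, mul_inv, mul_inv, pow_succ c n, mul_inv]
    have hc' : c * c⁻¹ = 1 := mul_inv_cancel₀ hc.ne'
    calc c₀ * ((c ^ n)⁻¹ * (‖x‖ ^ n)⁻¹) - c * supp K x * (Lz n f (inner ℝ e x / ‖x‖) * ((c ^ n)⁻¹ * c⁻¹ * (‖x‖ ^ (n + 1))⁻¹))
        = (c ^ n)⁻¹ * (c₀ * (‖x‖ ^ n)⁻¹ - (c * c⁻¹) * (supp K x * (Lz n f (inner ℝ e x / ‖x‖) * (‖x‖ ^ (n + 1))⁻¹))) := by ring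
      _ = _ := by rw [hc', one_mul]
  · have hc : Continuous (fun x : E n => c₀ - supp K x * Lz n f (inner ℝ e x)) :=
      continuous_const.sub ((continuous_supp K).mul (hLc.comp hce))
    obtain ⟨C, hC⟩ := (isCompact_sphere (0 : E n) 1).exists_bound_of_continuousOn hc.continuousOn
    refine ⟨C, fun x hx => ?_⟩
    rw [hval x hx]
    exact hC x (by simpa using hx)
  · intro y hey hy
    obtain ⟨f1, f2, f3, f4⟩ := line_facts hK hR hy he hey
    have h1 := VV.line_bound hn f hf hf0 hC₁ hC₂ hR0 (fun z : ℝ => supp K (y + z • e)) f1 f2 f3 f4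
    have hFz : ∀ z : ℝ, F (y + z • e) = c₀ * ((√(1 + z ^ 2)) ^ n)⁻¹ -
        supp K (y + z • e) * ((1 - (z / √(1 + z ^ 2)) ^ 2) * deriv (deriv f) (z / √(1 + z ^ 2)) -
        ((n : ℝ) - 1) * (z / √(1 + z ^ 2)) * deriv f (z / √(1 + z ^ 2)) +
        ((n : ℝ) - 1) * f (z / √(1 + z ^ 2))) * ((√(1 + z ^ 2)) ^ (n + 1))⁻¹ := by
      intro z
      have e2 : inner ℝ e (y + z • e) = z := by
        rw [inner_add_right, inner_smul_right, hey, real_inner_self_eq_norm_sq, he]; ring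
      show c₀ * (‖y + z • e‖ ^ n)⁻¹ - supp K (y + z • e) * (Lz n f (inner ℝ e (y + z • e) / ‖y + z • e‖) *
        (‖y + z • e‖ ^ (n + 1))⁻¹) = _
      rw [e2, norm_line he hy hey]
      unfold Lz
      ring
    simp_rw [hFz]
    -- integrability of the second part
    obtain ⟨A, hA⟩ := kappa_growth K he hy (f := e) (y := y)
    obtain ⟨D, hD⟩ : ∃ D, ∀ t ∈ Icc (-1 : ℝ) 1, |Lz n f t| ≤ D := by
      obtain ⟨D, hD⟩ := isCompact_Icc.exists_bound_of_continuousOn (s := Icc (-1 : ℝ) 1) hLc.continuousOn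
      exact ⟨D, fun t ht => hD t ht⟩
    have htt : ∀ z : ℝ, z / √(1 + z ^ 2) ∈ Icc (-1 : ℝ) 1 := fun z =>
      ⟨(C05.neg_one_lt_tt z).le, (C05.tt_lt_one z).le⟩
    have hρ : ∀ z : ℝ, 0 < √(1 + z ^ 2) := fun z => Real.sqrt_pos.2 (by positivity)
    have i2 : Integrable (fun z : ℝ => supp K (y + z • e) * ((1 - (z / √(1 + z ^ 2)) ^ 2) * deriv (deriv f) (z / √(1 + z ^ 2)) -
        ((n : ℝ) - 1) * (z / √(1 + z ^ 2)) * deriv f (z / √(1 + z ^ 2)) +
        ((n : ℝ) - 1) * f (z / √(1 + z ^ 2))) * ((√(1 + z ^ 2)) ^ (n + 1))⁻¹) := by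
      refine ((C05.base_int hn).const_mul (A * D)).mono' ?_ ?_
      · refine Continuous.aestronglyMeasurable ?_
        have hc1 : Continuous (fun z : ℝ => z / √(1 + z ^ 2)) := by
          refine continuous_id.div (by fun_prop) fun z => (hρ z).ne'
        have hc2 : Continuous (fun z : ℝ => Lz n f (z / √(1 + z ^ 2))) := hLc.comp hc1
        have hc3 : Continuous (fun z : ℝ => supp K (y + z • e)) := f1.continuous
        have hc4 : Continuous (fun z : ℝ => ((√(1 + z ^ 2)) ^ (n + 1))⁻¹) :=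
          Continuous.inv₀ (by fun_prop) fun z => (pow_pos (hρ z) _).ne'
        exact (hc3.mul hc2).mul hc4
      · refine Eventually.of_forall fun z => ?_
        have h2 := hA z
        have h3 := hD _ (htt z)
        have hA0 : 0 ≤ A := C05.kappa_cst_nonneg hA
        show ‖supp K (y + z • e) * Lz n f (z / √(1 + z ^ 2)) * ((√(1 + z ^ 2)) ^ (n + 1))⁻¹‖ ≤ _
        rw [norm_mul, norm_mul, Real.norm_eq_abs, Real.norm_eq_abs, Real.norm_of_nonneg (by have := hρ z; positivity)]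
        calc |supp K (y + z • e)| * |Lz n f (z / √(1 + z ^ 2))| * ((√(1 + z ^ 2)) ^ (n + 1))⁻¹
            ≤ (A * (1 + |z|)) * D * ((√(1 + z ^ 2)) ^ (n + 1))⁻¹ :=
              mul_le_mul_of_nonneg_right (mul_le_mul h2 h3 (abs_nonneg _) (by positivity)) (by have := hρ z; positivity)
          _ = A * D * ((1 + |z|) * (C05.rr z ^ (n + 1))⁻¹) := by unfold C05.rr; ring
    rw [integral_sub ((integrable_inv_rho_pow hn).const_mul _) i2, integral_const_mul, ← hIn]
    have h3 : c₀ * In = B := by rw [hc₀]; field_simp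
    rw [h3]
    linarith

end

end Pool.Agent.Helper115_ME
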