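import Mathlib
set_option autoImplicit false
/-!
TARGET: mollification. Proof in words. f is bounded measurable with support in [-1+δ, 1-δ]. Take ContDiffBump's φ_j centred at 0 with outer radius r_j → 0, r_j small, and
f_j = φ_j.normed * f (convolution). f_j is C^∞, f_j ≥ 0, f_j → f almost everywhere (ContDiffBump.ae_convolution_tendsto_right_of_locallyIntegrable, needs rOut ≤ K rIn), f_j ≤ M.
f_j vanishes for |t| ≥ 1 - δ/2 as soon as r_j ≤ δ/2. For |t| ≤ 1-δ/2 and |x-t| ≤ r_j the ratio √(1-t²)^(n-2)/√(1-x²)^(n-2) is ≤ 2 if r_j is small (uniform continuity, 1-x² ≥ δ/4 on |x| ≤ 1-δ/4), so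
f_j(t) √(1-t²)^(n-2) = ∫ φ_j(t-x) f(x) √(1-t²)^(n-2) dx ≤ 2 C₁. The convergence of the integrals is dominated convergence:
|f_j(t) (1-t²)^((n-4)/2)| ≤ M (1-t²)^((n-4)/2) 1_{|t| ≤ 1-δ/2}, which is bounded.
-/
namespace Pool.Agent.Helper115_ME.VV

open MeasureTheory Set Filter Topology
open scoped ContDiff

/-- the mollified function -/
noncomputable def h115_conv (φ : ContDiffBump (0 : ℝ)) (f : ℝ → ℝ) : ℝ → ℝ :=
  MeasureTheory.convolution (φ.normed volume) f (ContinuousLinearMap.lsmul ℝ ℝ) volume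

theorem h115_le (φ : ContDiffBump (0 : ℝ)) (f : ℝ → ℝ) (hf0 : ∀ t, 0 ≤ f t) (t B : ℝ)
    (h : ∀ x, |x| < φ.rOut → f (t - x) ≤ B) : h115_conv φ f t ≤ B := by
  unfold h115_conv
  rw [MeasureTheory.convolution_def]
  have h1 : ∫ x, φ.normed volume x * B = B := by
    rw [integral_mul_const, φ.integral_normed, one_mul]
  rw [← h1]
  refine integral_mono_of_nonneg ?_ (φ.integrable_normed.mul_const B) ?_
  · refine Eventually.of_forall fun x => ?_
    exact mul_nonneg (φ.nonneg_normed x) (hf0 _)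
  · refine Eventually.of_forall fun x => ?_
    show φ.normed volume x * f (t - x) ≤ φ.normed volume x * B
    by_cases hx : |x| < φ.rOut
    · exact mul_le_mul_of_nonneg_left (h x hx) (φ.nonneg_normed x)
    · have h2 : φ.normed volume x = 0 := by
        by_contra h3
        have h4 : x ∈ Function.support (φ.normed volume) := h3
        rw [φ.support_normed_eq, Metric.mem_ball, Real.dist_eq, sub_zero] at h4
        exact hx h4
      rw [h2, zero_mul, zero_mul]

theorem h115_nonneg (φ : ContDiffBump (0 : ℝ)) (f : ℝ → ℝ) (hf0 : ∀ t, 0 ≤ f t) (t : ℝ) :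
    0 ≤ h115_conv φ f t := by
  unfold h115_conv
  rw [MeasureTheory.convolution_def]
  refine integral_nonneg fun x => ?_
  exact mul_nonneg (φ.nonneg_normed x) (hf0 _)

theorem exists_smooth {n : ℕ} (hn : 3 ≤ n) (f : ℝ → ℝ) (hfm : Measurable f) {M C₁ δ : ℝ} (hδ : 0 < δ) (hδ1 : δ < 1)
    (hf0 : ∀ t, 0 ≤ f t) (hfM : ∀ t, f t ≤ M) (hsupp : ∀ t, 1 - δ < |t| → f t = 0)
    (hC₁ : ∀ t ∈ Icc (-1 : ℝ) 1, f t * (√(1 - t ^ 2)) ^ (n - 2) ≤ C₁) :
    ∃ F : ℕ → ℝ → ℝ, (∀ j, ContDiff ℝ ∞ (F j)) ∧ (∀ j t, 0 ≤ F j t) ∧ (∀ j t, F j t ≤ M) ∧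
      (∀ j, ∀ t ∈ Icc (-1 : ℝ) 1, F j t * (√(1 - t ^ 2)) ^ (n - 2) ≤ 2 * C₁) ∧
      (∀ᵐ t : ℝ, Tendsto (fun j => F j t) atTop (𝓝 (f t))) ∧
      Tendsto (fun j => ∫ t in (-1 : ℝ)..1, F j t * (1 - t ^ 2) ^ (((n : ℝ) - 4) / 2)) atTop
        (𝓝 (∫ t in (-1 : ℝ)..1, f t * (1 - t ^ 2) ^ (((n : ℝ) - 4) / 2))) := by
  classical
  have hM0 : 0 ≤ M := (hf0 0).trans (hfM 0)
  -- integrability
  have hfi : Integrable f volume := by
    have hsub : Function.support f ⊆ Icc (-1 : ℝ) 1 := by
      intro t ht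
      by_contra hcon
      apply ht
      apply hsupp
      rw [mem_Icc, ← abs_le, not_le] at hcon
      linarith
    rw [← integrableOn_iff_integrable_of_support_subset hsub]
    refine Measure.integrableOn_of_bounded (M := M) ?_ hfm.aestronglyMeasurable ?_
    · simp
    · refine Eventually.of_forall fun t => ?_
      rw [Real.norm_of_nonneg (hf0 t)]
      exact hfM t
  -- the weight
  set w : ℝ → ℝ := fun s => (√(1 - s ^ 2)) ^ (n - 2) with hw
  have hwc : Continuous w := by
    rw [hw]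
    fun_prop
  have hw0pos : 0 < w (1 - δ) := by
    rw [hw]
    simp only
    apply pow_pos
    apply Real.sqrt_pos.2
    nlinarith
  have hwpos : ∀ s, 0 ≤ w s := fun s => pow_nonneg (Real.sqrt_nonneg _) _
  have hwge : ∀ s, |s| ≤ 1 - δ → w (1 - δ) ≤ w s := by
    intro s hs
    rw [hw]
    simp only
    apply pow_le_pow_left₀ (Real.sqrt_nonneg _)
    apply Real.sqrt_le_sqrt
    have h1 : s ^ 2 ≤ (1 - δ) ^ 2 := by
      rw [← sq_abs s]
      exact pow_le_pow_left₀ (abs_nonneg s) hs 2
    linarith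
  have huc := isCompact_Icc.uniformContinuousOn_of_continuous
    (hwc.continuousOn (s := Icc (-2 : ℝ) 2))
  rw [Metric.uniformContinuousOn_iff] at huc
  obtain ⟨ρ₀, hρ₀, huc⟩ := huc (w (1 - δ)) hw0pos
  set ρ : ℝ := min ρ₀ (δ / 4) with hρ
  have hρpos : 0 < ρ := lt_min hρ₀ (by linarith)
  have hρ1 : ρ ≤ ρ₀ := min_le_left _ _
  have hρ2 : ρ ≤ δ / 4 := min_le_right _ _
  have hr : ∀ j : ℕ, 0 < ρ / (j + 1) := fun j => by positivity
  have hrle : ∀ j : ℕ, ρ / (j + 1) ≤ ρ := by
    intro j
    apply div_le_self hρpos.le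
    have : (0 : ℝ) ≤ j := Nat.cast_nonneg j
    linarith
  let φ : ℕ → ContDiffBump (0 : ℝ) := fun j =>
    ⟨ρ / (j + 1) / 2, ρ / (j + 1), half_pos (hr j), half_lt_self (hr j)⟩
  have hφo : ∀ j, (φ j).rOut = ρ / (j + 1) := fun j => rfl
  have hφi : ∀ j, (φ j).rIn = ρ / (j + 1) / 2 := fun j => rfl
  set F : ℕ → ℝ → ℝ := fun j => h115_conv (φ j) f with hF
  have hF0 : ∀ j t, 0 ≤ F j t := fun j t => h115_nonneg _ f hf0 t
  have hFM : ∀ j t, F j t ≤ M := fun j t => h115_le _ f hf0 t M fun x _ => hfM _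
  have hFs : ∀ j, ContDiff ℝ ∞ (F j) := by
    intro j
    exact HasCompactSupport.contDiff_convolution_left _ (φ j).hasCompactSupport_normed
      (φ j).contDiff_normed hfi.locallyIntegrable
  have hFz : ∀ j t, 1 - δ / 2 < |t| → F j t = 0 := by
    intro j t ht
    apply le_antisymm _ (hF0 j t)
    refine h115_le _ f hf0 t 0 fun x hx => ?_
    rw [hφo] at hx
    have h1 := hrle j
    have h2 : |t| - |x| ≤ |t - x| := abs_sub_abs_le_abs_sub t x
    rw [hsupp (t - x) (by linarith)]
  have hC0 : 0 ≤ C₁ := by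
    have h1 := hC₁ 0 (by constructor <;> norm_num)
    have h2 : f 0 * (√(1 - 0 ^ 2)) ^ (n - 2) = f 0 := by simp
    rw [h2] at h1
    exact (hf0 0).trans h1
  have hlim : ∀ᵐ t : ℝ, Tendsto (fun j => F j t) atTop (𝓝 (f t)) := by
    refine ContDiffBump.ae_convolution_tendsto_right_of_locallyIntegrable (K := 2) (φ := φ)
      (l := atTop) ?_ ?_ hfi.locallyIntegrable
    · have h1 : Tendsto (fun j : ℕ => ρ * (1 / ((j : ℝ) + 1))) atTop (𝓝 (ρ * 0)) :=
        tendsto_const_nhds.mul tendsto_one_div_add_atTop_nhds_zero_nat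
      rw [mul_zero] at h1
      refine h1.congr fun j => ?_
      rw [hφo]
      ring
    · refine Eventually.of_forall fun j => ?_
      rw [hφo, hφi]
      linarith
  refine ⟨F, hFs, hF0, hFM, ?_, hlim, ?_⟩
  · intro j t ht
    by_cases htd : 1 - δ / 2 < |t|
    · rw [hFz j t htd, zero_mul]
      linarith
    · rw [not_lt] at htd
      have hwt : 0 < w t := by
        rw [hw]
        simp only
        apply pow_pos
        apply Real.sqrt_pos.2
        have h1 : t ^ 2 ≤ (1 - δ / 2) ^ 2 := by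
          rw [← sq_abs t]
          exact pow_le_pow_left₀ (abs_nonneg t) htd 2
        nlinarith
      have h1 : F j t ≤ 2 * C₁ / w t := by
        refine h115_le _ f hf0 t _ fun x hx => ?_
        rw [hφo] at hx
        have hxρ : |x| < ρ := lt_of_lt_of_le hx (hrle j)
        by_cases hs : 1 - δ < |t - x|
        · rw [hsupp _ hs]
          positivity
        · rw [not_lt] at hs
          have hsI : t - x ∈ Icc (-1 : ℝ) 1 := by
            rw [mem_Icc, ← abs_le]
            linarith
          have h2 := hC₁ (t - x) hsI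
          have h3 : f (t - x) * w (t - x) ≤ C₁ := h2
          have h4 := hwge (t - x) hs
          have h5 : dist (w t) (w (t - x)) < w (1 - δ) := by
            apply huc t ⟨by linarith [ht.1], by linarith [ht.2]⟩ (t - x)
              ⟨by linarith [hsI.1], by linarith [hsI.2]⟩
            rw [Real.dist_eq]
            have : t - (t - x) = x := by ring
            rw [this]
            linarith
          rw [Real.dist_eq] at h5
          have h6 := (abs_lt.1 h5).2
          rw [le_div_iff₀ hwt]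
          have h7 : w t ≤ 2 * w (t - x) := by linarith
          calc f (t - x) * w t ≤ f (t - x) * (2 * w (t - x)) :=
                mul_le_mul_of_nonneg_left h7 (hf0 _)
            _ = 2 * (f (t - x) * w (t - x)) := by ring
            _ ≤ 2 * C₁ := by linarith
      rw [le_div_iff₀ hwt] at h1
      exact h1
  · obtain ⟨C₂, hC₂⟩ := (isCompact_Icc (a := -(1 - δ / 2)) (b := 1 - δ / 2)).exists_bound_of_continuousOn
      (f := fun t : ℝ => (1 - t ^ 2) ^ (((n : ℝ) - 4) / 2)) (by
        apply ContinuousOn.rpow_const (by fun_prop)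
        intro t ht
        left
        have h1 : |t| ≤ 1 - δ / 2 := abs_le.2 ht
        have h2 : t ^ 2 ≤ (1 - δ / 2) ^ 2 := by
          rw [← sq_abs t]
          exact pow_le_pow_left₀ (abs_nonneg t) h1 2
        nlinarith)
    have hC20 : 0 ≤ C₂ := by
      have h1 := hC₂ 0 ⟨by linarith, by linarith⟩
      exact (norm_nonneg _).trans h1
    refine intervalIntegral.tendsto_integral_filter_of_dominated_convergence
      (fun _ => M * C₂) ?_ ?_ ?_ ?_
    · refine Eventually.of_forall fun j => ?_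
      apply Measurable.aestronglyMeasurable
      apply Measurable.mul (hFs j).continuous.measurable
      apply Measurable.pow_const
      fun_prop
    · refine Eventually.of_forall fun j => Eventually.of_forall fun t _ => ?_
      rw [norm_mul, Real.norm_of_nonneg (hF0 j t)]
      by_cases htd : 1 - δ / 2 < |t|
      · rw [hFz j t htd, zero_mul]
        positivity
      · rw [not_lt] at htd
        exact mul_le_mul (hFM j t) (hC₂ t (abs_le.1 htd)) (norm_nonneg _) hM0
    · exact intervalIntegrable_const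
    · filter_upwards [hlim] with t ht _
      exact ht.mul_const _

end Pool.Agent.Helper115_ME.VV
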