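import Mathlib
import Pool.Agent.Helper115_ME.VV.SphereBound
import Pool.Agent.Helper115_ME.VV.V06

/-!
# Upper bound of the curvature functional of a nonnegative density
-/

set_option autoImplicit false

namespace Pool.Agent.Helper115_ME

open MeasureTheory Metric Set Filter Topology
open scoped ContDiff

noncomputable section

variable {n : ℕ}

/-- the functional with density `G` -/
def densD (G : Sph n → ℝ) (hG : Integrable G (sig n)) : Distr n where
  toFun f := ∫ v, f.1 v * G v ∂(sig n)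
  map_add' f f' := by
    rw [← integral_add (integrable_mul_density hG (IsSmooth.continuous f.2))
      (integrable_mul_density hG (IsSmooth.continuous f'.2))]
    congr 1
    funext v
    show (f.1 v + f'.1 v) * G v = _
    ring
  map_smul' c f := by
    rw [RingHom.id_apply, smul_eq_mul, ← integral_const_mul]
    congr 1
    funext v
    show (c * f.1 v) * G v = _
    ring

theorem densD_apply (G : Sph n → ℝ) (hG : Integrable G (sig n)) (f : SmoothFun n) :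
    val (densD G hG) f = ∫ v, f.1 v * G v ∂(sig n) := rfl

theorem isContFun_densD (G : Sph n → ℝ) (hG : Integrable G (sig n)) : IsContFun (densD G hG) :=
  isContFun_of_density hG fun f => densD_apply G hG f

/-- limits of densities -/
theorem ell_densD_tendsto {e w : E n} (h : Orthonormal ℝ ![e, w]) {G : ℕ → Sph n → ℝ} {G₀ : Sph n → ℝ}
    (hG : ∀ j, Integrable (G j) (sig n)) (hG₀ : Integrable G₀ (sig n)) {D : Sph n → ℝ} (hD : Integrable D (sig n))
    (hle : ∀ j, ∀ᵐ v ∂(sig n), |G j v| ≤ D v) (hlim : ∀ᵐ v ∂(sig n), Tendsto (fun j => G j v) atTop (𝓝 (G₀ v)))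
    (f : SmoothFun n) :
    Tendsto (fun j => ell h (isContFun_densD (G j) (hG j)) f) atTop (𝓝 (ell h (isContFun_densD G₀ hG₀) f)) := by
  obtain ⟨g, -, hg⟩ := exists_second h f
  have h1 : ∀ F : SmoothFun n, Tendsto (fun j => densD (G j) (hG j) F) atTop (𝓝 (densD G₀ hG₀ F)) := by
    intro F
    obtain ⟨C, hC⟩ : ∃ C, ∀ v, |F.1 v| ≤ C := by
      obtain ⟨C, hC⟩ := (isCompact_univ.image (IsSmooth.continuous F.2)).isBounded.subset_closedBall 0
      refine ⟨C, fun v => ?_⟩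
      have := hC (mem_image_of_mem _ (mem_univ v))
      simpa using this
    refine tendsto_integral_of_dominated_convergence (fun v => C * D v)
      (fun j => (integrable_mul_density (hG j) (IsSmooth.continuous F.2)).aestronglyMeasurable) (hD.const_mul C) ?_ ?_
    · intro j
      filter_upwards [hle j] with v hv
      rw [norm_mul, Real.norm_eq_abs, Real.norm_eq_abs]
      exact mul_le_mul (hC v) hv (abs_nonneg _) ((abs_nonneg _).trans (hC v))
    · filter_upwards [hlim] with v hv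
      exact hv.const_mul _
  have h2 : ∀ j, ell h (isContFun_densD (G j) (hG j)) f = densD (G j) (hG j) f + densD (G j) (hG j) g := fun j => hg _ _
  simp_rw [h2]
  rw [hg _ (isContFun_densD G₀ hG₀)]
  exact (h1 f).add (h1 g)

/-- the constant in the bounds -/
def Bcst (n : ℕ) : ℝ := (∫ z : ℝ, ((√(1 + z ^ 2)) ^ n)⁻¹)⁻¹ * (sig n).real univ

theorem Bcst_nonneg (hn : 3 ≤ n) : 0 ≤ Bcst n :=
  mul_nonneg (inv_nonneg.2 (int_rho_pos hn).le) measureReal_nonneg

/-- smooth densities -/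
theorem upper_smooth (hn : 3 ≤ n) {e w : E n} (h : Orthonormal ℝ ![e, w]) {f : ℝ → ℝ} (hf : ContDiff ℝ 2 f)
    (hf0 : ∀ t ∈ Icc (-1 : ℝ) 1, 0 ≤ f t) {C₁ C₂ R : ℝ}
    (hC₁ : ∀ t ∈ Icc (-1 : ℝ) 1, f t * (√(1 - t ^ 2)) ^ (n - 2) ≤ C₁)
    (hC₂ : ∫ t in (-1 : ℝ)..1, f t * (1 - t ^ 2) ^ (((n : ℝ) - 4) / 2) ≤ C₂) (hR0 : 0 ≤ R)
    (hG : Integrable (fun v : Sph n => f (inner ℝ e (v : E n))) (sig n))
    {K : ConvexBody (E n)} (hK : IsSmooth (hS K)) (hR : ∀ x ∈ (K : Set (E n)), ‖x‖ ≤ R) :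
    ell h (isContFun_densD _ hG) (suppS K hK) ≤ Bcst n * ((8 * C₁ + ((n : ℝ) - 2) * C₂) * R) :=
  (ell_le_trace (by omega) h hf (fun t ht => hf0 t ⟨ht.1.le, ht.2.le⟩) (densD_apply _ hG) (isContFun_densD _ hG) hK).trans
    (sphere_bound hn (pair_orthonormal h).1 hf hf0 hC₁ hC₂ hR0 hK hR)

/-- bounded densities with compact support in `(-1,1)` -/
theorem upper_compact (hn : 3 ≤ n) {e w : E n} (h : Orthonormal ℝ ![e, w]) {f : ℝ → ℝ} (hfm : Measurable f)
    {M C₁ C₂ R δ : ℝ} (hδ : 0 < δ) (hδ1 : δ < 1) (hf0 : ∀ t, 0 ≤ f t) (hfM : ∀ t, f t ≤ M)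
    (hsupp : ∀ t, 1 - δ < |t| → f t = 0)
    (hC₁ : ∀ t ∈ Icc (-1 : ℝ) 1, f t * (√(1 - t ^ 2)) ^ (n - 2) ≤ C₁)
    (hC₂ : ∫ t in (-1 : ℝ)..1, f t * (1 - t ^ 2) ^ (((n : ℝ) - 4) / 2) ≤ C₂) (hR0 : 0 ≤ R)
    (hG : Integrable (fun v : Sph n => f (inner ℝ e (v : E n))) (sig n))
    {K : ConvexBody (E n)} (hK : IsSmooth (hS K)) (hR : ∀ x ∈ (K : Set (E n)), ‖x‖ ≤ R) :
    ell h (isContFun_densD _ hG) (suppS K hK) ≤ Bcst n * ((8 * (2 * C₁) + ((n : ℝ) - 2) * C₂) * R) := by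
  obtain ⟨F, hF1, hF2, hF3, hF4, hF5, hF6⟩ := VV.exists_smooth hn f hfm hδ hδ1 hf0 hfM hsupp hC₁
  obtain ⟨he, -, -⟩ := pair_orthonormal h
  have hce : Continuous (fun v : Sph n => (inner ℝ e (v : E n) : ℝ)) := by fun_prop
  have hGj : ∀ j, Integrable (fun v : Sph n => F j (inner ℝ e (v : E n))) (sig n) := fun j =>
    integrable_sig ((hF1 j).continuous.comp hce)
  set c : ℕ → ℝ := fun j => ∫ t in (-1 : ℝ)..1, F j t * (1 - t ^ 2) ^ (((n : ℝ) - 4) / 2) with hc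
  have h1 : ∀ j, ell h (isContFun_densD _ (hGj j)) (suppS K hK) ≤
      Bcst n * ((8 * (2 * C₁) + ((n : ℝ) - 2) * c j) * R) := fun j =>
    upper_smooth hn h ((hF1 j).of_le two_le_infty) (fun t _ => hF2 j t) (hF4 j) le_rfl hR0 (hGj j) hK hR
  have hnull : ∀ᵐ v : Sph n ∂(sig n), Tendsto (fun j => F j (inner ℝ e (v : E n))) atTop (𝓝 (f (inner ℝ e (v : E n)))) := by
    rw [ae_iff] at hF5
    have h3 := ae_notMem hn he hF5
    filter_upwards [h3] with v hv
    simpa using hv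
  have h2 := ell_densD_tendsto h hGj hG (integrable_const M) (fun j => Eventually.of_forall fun v => by
    rw [abs_of_nonneg (hF2 j _)]; exact hF3 j _) hnull (suppS K hK)
  have h4 : Tendsto (fun j => Bcst n * ((8 * (2 * C₁) + ((n : ℝ) - 2) * c j) * R)) atTop
      (𝓝 (Bcst n * ((8 * (2 * C₁) + ((n : ℝ) - 2) * (∫ t in (-1 : ℝ)..1, f t * (1 - t ^ 2) ^ (((n : ℝ) - 4) / 2))) * R))) :=
    (((hF6.const_mul ((n : ℝ) - 2)).const_add (8 * (2 * C₁))).mul_const R).const_mul (Bcst n)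
  refine (le_of_tendsto_of_tendsto' h2 h4 h1).trans ?_
  have hn' : (3 : ℝ) ≤ n := by exact_mod_cast hn
  refine mul_le_mul_of_nonneg_left (mul_le_mul_of_nonneg_right ?_ hR0) (Bcst_nonneg hn)
  have := mul_le_mul_of_nonneg_left hC₂ (by linarith : (0 : ℝ) ≤ (n : ℝ) - 2)
  linarith

/-- general densities -/
theorem upper_general (hn : 3 ≤ n) {e w : E n} (h : Orthonormal ℝ ![e, w]) {f : ℝ → ℝ} (hfm : Measurable f)
    {C₁ C₂ R : ℝ} (hf0 : ∀ t, 0 ≤ f t)
    (hC₁ : ∀ t ∈ Ioo (-1 : ℝ) 1, f t * (√(1 - t ^ 2)) ^ (n - 2) ≤ C₁)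
    (hfi : IntegrableOn (fun t => f t * (1 - t ^ 2) ^ (((n : ℝ) - 4) / 2)) (Ioo (-1) 1))
    (hC₂ : ∫ t in Ioo (-1 : ℝ) 1, f t * (1 - t ^ 2) ^ (((n : ℝ) - 4) / 2) ≤ C₂) (hR0 : 0 ≤ R)
    (hG : Integrable (fun v : Sph n => f (inner ℝ e (v : E n))) (sig n))
    {K : ConvexBody (E n)} (hK : IsSmooth (hS K)) (hR : ∀ x ∈ (K : Set (E n)), ‖x‖ ≤ R) :
    ell h (isContFun_densD _ hG) (suppS K hK) ≤ Bcst n * ((8 * (2 * C₁) + ((n : ℝ) - 2) * C₂) * R) := by
  classical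
  obtain ⟨he, -, -⟩ := pair_orthonormal h
  have hC₁0 : 0 ≤ C₁ := (mul_nonneg (hf0 0) (pow_nonneg (Real.sqrt_nonneg _) _)).trans (hC₁ 0 (by constructor <;> norm_num))
  set δ : ℕ → ℝ := fun j => 1 / ((j : ℝ) + 2) with hδ
  have hδ0 : ∀ j, 0 < δ j := fun j => by simp only [hδ]; positivity
  have hδ1 : ∀ j, δ j < 1 := fun j => by
    simp only [hδ]
    rw [div_lt_one (by positivity)]
    have : (0 : ℝ) ≤ j := Nat.cast_nonneg j
    linarith
  set F : ℕ → ℝ → ℝ := fun j t => if |t| ≤ 1 - δ j then f t else 0 with hF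
  have hF0 : ∀ j t, 0 ≤ F j t := fun j t => by
    simp only [hF]; split_ifs
    · exact hf0 t
    · exact le_rfl
  have hFf : ∀ j t, F j t ≤ f t := fun j t => by
    simp only [hF]; split_ifs
    · exact le_rfl
    · exact hf0 t
  have hFm : ∀ j, Measurable (F j) := fun j =>
    Measurable.ite (measurableSet_le measurable_abs measurable_const) hfm measurable_const
  have hmemj : ∀ j t, |t| ≤ 1 - δ j → t ∈ Ioo (-1 : ℝ) 1 := fun j t ht => by
    have := hδ0 j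
    exact abs_lt.1 (by linarith)
  have hFC₁ : ∀ j, ∀ t ∈ Icc (-1 : ℝ) 1, F j t * (√(1 - t ^ 2)) ^ (n - 2) ≤ C₁ := fun j t _ => by
    simp only [hF]; split_ifs with h1
    · exact hC₁ t (hmemj j t h1)
    · rw [zero_mul]; exact hC₁0
  have hFM : ∀ j, ∃ M, ∀ t, F j t ≤ M := fun j => by
    have hs : 0 < √(1 - (1 - δ j) ^ 2) := Real.sqrt_pos.2 (by nlinarith [hδ0 j, hδ1 j])
    refine ⟨C₁ * ((√(1 - (1 - δ j) ^ 2)) ^ (n - 2))⁻¹, fun t => ?_⟩
    simp only [hF]; split_ifs with h1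
    · have h2 := hC₁ t (hmemj j t h1)
      have h3 : (√(1 - (1 - δ j) ^ 2)) ^ (n - 2) ≤ (√(1 - t ^ 2)) ^ (n - 2) := by
        refine pow_le_pow_left₀ hs.le (Real.sqrt_le_sqrt ?_) _
        nlinarith [sq_abs t, abs_nonneg t]
      rw [← div_eq_mul_inv, le_div_iff₀ (pow_pos hs _)]
      exact (mul_le_mul_of_nonneg_left h3 (hf0 t)).trans h2
    · exact mul_nonneg hC₁0 (inv_nonneg.2 (pow_nonneg hs.le _))
  have hwnn : ∀ t ∈ Ioo (-1 : ℝ) 1, 0 ≤ (1 - t ^ 2) ^ (((n : ℝ) - 4) / 2) := fun t ht =>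
    Real.rpow_nonneg (by nlinarith [ht.1, ht.2]) _
  have hwm : Measurable (fun t : ℝ => (1 - t ^ 2) ^ (((n : ℝ) - 4) / 2)) := by fun_prop
  have hFi : ∀ j, IntegrableOn (fun t => F j t * (1 - t ^ 2) ^ (((n : ℝ) - 4) / 2)) (Ioo (-1) 1) := fun j => by
    refine hfi.mono' ((hFm j).mul hwm).aestronglyMeasurable ?_
    filter_upwards [ae_restrict_mem measurableSet_Ioo] with t ht
    rw [norm_mul, Real.norm_of_nonneg (hF0 j t), Real.norm_of_nonneg (hwnn t ht)]
    exact mul_le_mul_of_nonneg_right (hFf j t) (hwnn t ht)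
  have hFC₂ : ∀ j, ∫ t in (-1 : ℝ)..1, F j t * (1 - t ^ 2) ^ (((n : ℝ) - 4) / 2) ≤ C₂ := fun j => by
    rw [intervalIntegral.integral_of_le (by norm_num), integral_Ioc_eq_integral_Ioo]
    refine (setIntegral_mono_on (hFi j) hfi measurableSet_Ioo fun t ht => ?_).trans hC₂
    exact mul_le_mul_of_nonneg_right (hFf j t) (hwnn t ht)
  have hce : Measurable (fun v : Sph n => (inner ℝ e (v : E n) : ℝ)) :=
    (by fun_prop : Continuous (fun v : Sph n => (inner ℝ e (v : E n) : ℝ))).measurable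
  have hGj : ∀ j, Integrable (fun v : Sph n => F j (inner ℝ e (v : E n))) (sig n) := fun j =>
    hG.mono' ((hFm j).comp hce).aestronglyMeasurable (Eventually.of_forall fun v => by
      rw [Real.norm_of_nonneg (hF0 j _)]; exact hFf j _)
  have h1 : ∀ j, ell h (isContFun_densD _ (hGj j)) (suppS K hK) ≤
      Bcst n * ((8 * (2 * C₁) + ((n : ℝ) - 2) * C₂) * R) := fun j => by
    obtain ⟨M, hM⟩ := hFM j
    refine upper_compact hn h (hFm j) (hδ0 j) (hδ1 j) (hF0 j) hM (fun t ht => ?_) (hFC₁ j) (hFC₂ j) hR0 (hGj j) hK hR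
    simp only [hF]
    rw [if_neg (not_le.2 ht)]
  have hδlim : Tendsto δ atTop (𝓝 0) := by
    have h2 : Tendsto (fun j : ℕ => (j : ℝ) + 2) atTop atTop :=
      tendsto_atTop_add_const_right _ _ tendsto_natCast_atTop_atTop
    simpa [hδ] using h2.const_div_atTop 1
  have h2 := ell_densD_tendsto h hGj hG hG (fun j => Eventually.of_forall fun v => by
    rw [abs_of_nonneg (hF0 j _)]; exact hFf j _) (by
      filter_upwards [ae_mem_Ioo (n := n) (by omega) he] with v hv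
      refine tendsto_const_nhds.congr' ?_
      have h3 : |(inner ℝ e (v : E n) : ℝ)| < 1 := abs_lt.2 hv
      have h4 : ∀ᶠ j in atTop, δ j < 1 - |(inner ℝ e (v : E n) : ℝ)| :=
        hδlim.eventually_lt_const (by linarith)
      filter_upwards [h4] with j hj
      simp only [hF]
      rw [if_pos (by linarith)]) (suppS K hK)
  exact le_of_tendsto' h2 h1

end

end Pool.Agent.Helper115_ME
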