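import Mathlib
import Pool.Agent.Helper115_ME.VV.Upper

/-!
# Absorption: upper bound of the curvature functional by the mean width
-/

set_option autoImplicit false

namespace Pool.Agent.Helper115_ME

open MeasureTheory Metric Set Filter Topology
open scoped ContDiff

noncomputable section

variable {n : ℕ}

/-- the linear functional `v ↦ ⟨x, v⟩` -/
def linS (x : E n) : SmoothFun n :=
  ⟨fun v => inner ℝ x (v : E n), isSmooth_of_contDiff (F := fun y => inner ℝ x y) (contDiff_const.inner ℝ contDiff_id)⟩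

theorem lin_zonal (hn : 3 ≤ n) {e : E n} (he : ‖e‖ = 1) {μ : Distr n} (hz : IsZonalFun e μ) (x : E n) :
    μ (linS x) = (inner ℝ e x : ℝ) * μ (linS e) := by
  have hadd : ∀ x y : E n, linS (x + y) = linS x + linS y := fun x y => by
    apply Subtype.ext; funext v
    show inner ℝ (x + y) (v : E n) = (inner ℝ x (v : E n) + inner ℝ y (v : E n) : ℝ)
    rw [inner_add_left]
  have hsmul : ∀ (c : ℝ) (x : E n), linS (c • x) = c • linS x := fun c x => by
    apply Subtype.ext; funext v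
    show inner ℝ (c • x) (v : E n) = (c * inner ℝ x (v : E n) : ℝ)
    rw [inner_smul_left]; rfl
  have key : ∀ w : E n, ‖w‖ = 1 → inner ℝ e w = (0 : ℝ) → μ (linS w) = 0 := by
    intro w hw hew
    have h1 : Orthonormal ℝ ![e, w] := orthonormal_pair he hw hew
    have h2 : Orthonormal ℝ ![e, -w] := orthonormal_pair he (by rw [norm_neg, hw]) (by rw [inner_neg_right, hew, neg_zero])
    obtain ⟨ϑ, hϑ, h3, h4⟩ := exists_rot_two hn h1 h2
    have h5 : smComp (linS w) ϑ = linS (-w) := by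
      apply Subtype.ext; funext v
      show inner ℝ w (ϑ (v : E n)) = (inner ℝ (-w) (v : E n) : ℝ)
      have h6 : ϑ (-w) = w := by rw [map_neg, h4, neg_neg]
      conv_lhs => rw [← h6]
      rw [LinearIsometryEquiv.inner_map_map]
    have h6 : μ (smComp (linS w) ϑ) = μ (linS w) := hz ϑ hϑ h3 (linS w)
    have h7 : linS (-w) = (-1 : ℝ) • linS w := by rw [← hsmul]; congr 1; simp
    rw [h5, h7, map_smul, smul_eq_mul] at h6
    linarith
  set y : E n := x - (inner ℝ e x : ℝ) • e with hy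
  have hxy : x = (inner ℝ e x : ℝ) • e + y := by rw [hy]; abel
  have hey : inner ℝ e y = (0 : ℝ) := by
    rw [hy, inner_sub_right, inner_smul_right, real_inner_self_eq_norm_sq, he]; ring
  have hμy : μ (linS y) = 0 := by
    by_cases h0 : y = 0
    · have : linS y = (0 : ℝ) • linS y := by rw [← hsmul, h0]; simp
      rw [this, map_smul, zero_smul]
    · have h1 : ‖y‖ ≠ 0 := norm_ne_zero_iff.2 h0
      have h2 : y = ‖y‖ • (‖y‖⁻¹ • y) := by rw [smul_smul, mul_inv_cancel₀ h1, one_smul]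
      rw [h2, hsmul, map_smul, key (‖y‖⁻¹ • y) (by rw [norm_smul, norm_inv, norm_norm, inv_mul_cancel₀ h1])
        (by rw [inner_smul_right, hey, mul_zero]), smul_zero]
  conv_lhs => rw [hxy]
  rw [hadd, hsmul, map_add, map_smul, hμy, smul_eq_mul, add_zero]

theorem ell_lin (hn : 3 ≤ n) {e w : E n} (h : Orthonormal ℝ ![e, w]) {μ : Distr n} (hμ : IsContFun μ)
    (hz : IsZonalFun e μ) (x : E n) : ell h hμ (linS x) = 0 := by
  obtain ⟨he, hw, hew⟩ := pair_orthonormal h
  have h1 : circF h μ (linS x) = fun θ : ℝ => (Real.cos θ * inner ℝ e x + Real.sin θ * inner ℝ w x) * μ (linS e) := by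
    funext θ
    have h2 : smComp (linS x) (planeRot h θ) = linS ((planeRot h θ).symm x) := by
      apply Subtype.ext; funext v
      show inner ℝ x (planeRot h θ (v : E n)) = (inner ℝ ((planeRot h θ).symm x) (v : E n) : ℝ)
      conv_rhs => rw [← LinearIsometryEquiv.inner_map_map (planeRot h θ) ((planeRot h θ).symm x) (v : E n)]
      rw [LinearIsometryEquiv.apply_symm_apply]
    show μ (smComp (linS x) (planeRot h θ)) = _
    rw [h2, lin_zonal hn he hz, ← LinearIsometryEquiv.inner_map_map (planeRot h θ) e ((planeRot h θ).symm x),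
      LinearIsometryEquiv.apply_symm_apply, planeRot_fst, inner_add_left, inner_smul_left, inner_smul_left]
    rfl
  rw [ell_apply, h1, lin_zonal hn he hz x]
  have h3 : iteratedDeriv 2 (fun θ : ℝ => (Real.cos θ * inner ℝ e x + Real.sin θ * inner ℝ w x) * μ (linS e)) 0 =
      -(inner ℝ e x * μ (linS e)) := by
    have h4 := second_deriv_smooth (p := fun t => t * μ (linS e)) (contDiff_id.mul contDiff_const) (inner ℝ e x) (inner ℝ w x)
    have h5 : deriv (fun t : ℝ => t * μ (linS e)) = fun _ => μ (linS e) := by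
      funext t
      simp
    rw [h5] at h4
    simp only [deriv_const, zero_mul, zero_sub] at h4
    rw [h4]; ring
  rw [h3]; ring

theorem exists_pos_part (hn : 2 ≤ n) : ∃ c : ℝ, 0 < c ∧ ∀ u : E n, ‖u‖ = 1 →
    ∫ v : Sph n, max (inner ℝ u (v : E n) : ℝ) 0 ∂(sig n) = c := by
  set e₀ : E n := EuclideanSpace.single (⟨0, by omega⟩ : Fin n) (1 : ℝ) with he₀
  have he : ‖e₀‖ = 1 := by simp [he₀]
  have hcont : ∀ u : E n, Continuous (fun v : Sph n => max (inner ℝ u (v : E n) : ℝ) 0) := fun u => by fun_prop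
  refine ⟨∫ v : Sph n, max (inner ℝ e₀ (v : E n) : ℝ) 0 ∂(sig n), ?_, fun u hu => ?_⟩
  · refine (hcont e₀).integral_pos_of_hasCompactSupport_nonneg_nonzero ?_ (fun v => le_max_right _ _)
      (x := ⟨e₀, by simpa using he⟩) ?_
    · exact HasCompactSupport.of_compactSpace _
    · show max (inner ℝ e₀ e₀ : ℝ) 0 ≠ 0
      rw [real_inner_self_eq_norm_sq, he]; norm_num
  · obtain ⟨ϑ, -, hϑ⟩ := exists_rot_one hn he hu
    rw [← integral_comp_act ϑ (hcont u).aestronglyMeasurable]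
    refine integral_congr_ae (Eventually.of_forall fun v => ?_)
    show max (inner ℝ u (ϑ (v : E n)) : ℝ) 0 = max (inner ℝ e₀ (v : E n) : ℝ) 0
    rw [← hϑ, LinearIsometryEquiv.inner_map_map]

theorem integral_lin (x : E n) : ∫ v : Sph n, (inner ℝ x (v : E n) : ℝ) ∂(sig n) = 0 := by
  have hc : Continuous (fun v : Sph n => (inner ℝ x (v : E n) : ℝ)) := by fun_prop
  have h1 := integral_comp_act (LinearIsometryEquiv.neg ℝ : E n ≃ₗᵢ[ℝ] E n) (F := fun v : Sph n => (inner ℝ x (v : E n) : ℝ))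
    hc.aestronglyMeasurable
  have h2 : ∀ v : Sph n, (inner ℝ x ((act (LinearIsometryEquiv.neg ℝ : E n ≃ₗᵢ[ℝ] E n) v : Sph n) : E n) : ℝ) =
      -(inner ℝ x (v : E n) : ℝ) := fun v => by
    show (inner ℝ x (-(v : E n)) : ℝ) = _
    rw [inner_neg_right]
  simp_rw [h2] at h1
  rw [integral_neg] at h1
  linarith

/-- the translate of a body which contains the origin in the sense of support functions -/
theorem exists_translate (K : ConvexBody (E n)) (hK : IsSmooth (hS K)) : ∃ (x : E n) (K' : ConvexBody (E n)) (hK' : IsSmooth (hS K')),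
    suppS K hK = suppS K' hK' + linS x ∧ ∀ y, 0 ≤ supp K' y := by
  obtain ⟨x, hx⟩ := K.nonempty
  obtain ⟨K', hK'⟩ := exists_body (fun y => supp K y - inner ℝ x y)
    (fun y z => by have := supp_add_le K y z; rw [inner_add_right]; linarith)
    (fun c hc y => by rw [supp_smul K hc, inner_smul_right]; ring)
  have h1 : hS K' = (suppS K hK - linS x).1 := by
    funext v
    exact hK' (v : E n)
  have h2 : IsSmooth (hS K') := by rw [h1]; exact (suppS K hK - linS x).2
  refine ⟨x, K', h2, ?_, fun y => ?_⟩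
  · apply Subtype.ext
    funext v
    show hS K v = hS K' v + inner ℝ x (v : E n)
    rw [h1]
    show hS K v = (hS K v - inner ℝ x (v : E n)) + inner ℝ x (v : E n)
    ring
  · rw [hK']
    have := inner_le_supp K hx y
    linarith

/-- the main upper bound -/
theorem ell_upper (hn : 3 ≤ n) {e w : E n} (h : Orthonormal ℝ ![e, w]) {f : ℝ → ℝ} (hfm : Measurable f)
    {C₁ C₂ : ℝ} (hf0 : ∀ t, 0 ≤ f t)
    (hC₁ : ∀ t ∈ Ioo (-1 : ℝ) 1, f t * (√(1 - t ^ 2)) ^ (n - 2) ≤ C₁)
    (hfi : IntegrableOn (fun t => f t * (1 - t ^ 2) ^ (((n : ℝ) - 4) / 2)) (Ioo (-1) 1))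
    (hC₂ : ∫ t in Ioo (-1 : ℝ) 1, f t * (1 - t ^ 2) ^ (((n : ℝ) - 4) / 2) ≤ C₂)
    (hG : Integrable (fun v : Sph n => f (inner ℝ e (v : E n))) (sig n)) :
    ∃ A : ℝ, 0 ≤ A ∧ ∀ (K : ConvexBody (E n)) (hK : IsSmooth (hS K)),
      ell h (isContFun_densD _ hG) (suppS K hK) ≤ A * ∫ v, hS K v ∂(sig n) := by
  obtain ⟨c, hc, hcu⟩ := exists_pos_part (n := n) (by omega)
  have hn' : (3 : ℝ) ≤ n := by exact_mod_cast hn
  have hC₁0 : 0 ≤ C₁ := (mul_nonneg (hf0 0) (pow_nonneg (Real.sqrt_nonneg _) _)).trans (hC₁ 0 (by constructor <;> norm_num))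
  have hC₂0 : 0 ≤ C₂ := (setIntegral_nonneg measurableSet_Ioo fun t ht =>
    mul_nonneg (hf0 t) (Real.rpow_nonneg (by nlinarith [ht.1, ht.2]) _)).trans hC₂
  set D : ℝ := Bcst n * (8 * (2 * C₁) + ((n : ℝ) - 2) * C₂) with hD
  have hD0 : 0 ≤ D := mul_nonneg (Bcst_nonneg hn) (by
    have := mul_nonneg (by linarith : (0 : ℝ) ≤ (n : ℝ) - 2) hC₂0
    linarith)
  refine ⟨D * c⁻¹, mul_nonneg hD0 (inv_nonneg.2 hc.le), fun K hK => ?_⟩
  obtain ⟨x, K', hK', hsum, hpos⟩ := exists_translate K hK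
  obtain ⟨x₀, hx₀, hmax⟩ := K'.isCompact.exists_isMaxOn K'.nonempty (continuous_norm (E := E n)).continuousOn
  have hR : ∀ y ∈ (K' : Set (E n)), ‖y‖ ≤ ‖x₀‖ := fun y hy => hmax hy
  -- mean width bound
  have h1 : ‖x₀‖ * c ≤ ∫ v, hS K' v ∂(sig n) := by
    have h2 : ∀ v : Sph n, max (inner ℝ x₀ (v : E n) : ℝ) 0 ≤ hS K' v := fun v =>
      max_le (inner_le_supp K' hx₀ _) (hpos _)
    have hcx : Continuous (fun v : Sph n => max (inner ℝ x₀ (v : E n) : ℝ) 0) := by fun_prop
    refine le_trans (le_of_eq ?_) (integral_mono (integrable_sig hcx) (integrable_sig (continuous_hS K')) h2)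
    by_cases h0 : x₀ = 0
    · simp [h0]
    · have h3 : ‖x₀‖ ≠ 0 := norm_ne_zero_iff.2 h0
      rw [← hcu (‖x₀‖⁻¹ • x₀) (by rw [norm_smul, norm_inv, norm_norm, inv_mul_cancel₀ h3]), ← integral_const_mul]
      refine integral_congr_ae (Eventually.of_forall fun v => ?_)
      show ‖x₀‖ * max (inner ℝ (‖x₀‖⁻¹ • x₀) (v : E n) : ℝ) 0 = max (inner ℝ x₀ (v : E n) : ℝ) 0
      rw [mul_max_of_nonneg _ _ (norm_nonneg _), mul_zero, inner_smul_left]
      have h4 : ‖x₀‖ * ((starRingEnd ℝ) ‖x₀‖⁻¹ * inner ℝ x₀ (v : E n)) = inner ℝ x₀ (v : E n) := by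
        rw [RCLike.conj_to_real, ← mul_assoc, mul_inv_cancel₀ h3, one_mul]
      rw [h4]
  have h2 : ∫ v, hS K v ∂(sig n) = ∫ v, hS K' v ∂(sig n) := by
    have h3 : ∀ v, hS K v = hS K' v + inner ℝ x (v : E n) := fun v => congrFun (congrArg Subtype.val hsum) v
    simp_rw [h3]
    rw [integral_add (integrable_sig (continuous_hS K')) (integrable_sig (by fun_prop)), integral_lin, add_zero]
  have hz : IsZonalFun e (densD _ hG) := isZonalFun_of_density hG (densD_apply _ hG)
  have h3 : ell h (isContFun_densD _ hG) (suppS K hK) = ell h (isContFun_densD _ hG) (suppS K' hK') := by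
    rw [hsum, map_add, ell_lin hn h _ hz, add_zero]
  rw [h3, h2]
  refine (upper_general hn h hfm hf0 hC₁ hfi hC₂ (norm_nonneg x₀) hG hK' hR).trans ?_
  have h4 : Bcst n * ((8 * (2 * C₁) + ((n : ℝ) - 2) * C₂) * ‖x₀‖) = D * c⁻¹ * (‖x₀‖ * c) := by
    rw [hD]; field_simp
  rw [h4]
  exact mul_le_mul_of_nonneg_left h1 (mul_nonneg hD0 (inv_nonneg.2 hc.le))

end

end Pool.Agent.Helper115_ME
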