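import Mathlib
set_option autoImplicit false
namespace Pool.Agent.Helper115_ME.VV

open Set
open scoped ContDiff

theorem exists_gen {ϕ : ℝ → ℝ} (hϕ : ContDiff ℝ ∞ ϕ) {δ : ℝ} (hδ : 0 < δ) (hδ1 : δ < 1)
    (h1 : ∀ t, 1 - δ ≤ |t| → ϕ t = 0) (h2 : ∀ t, |t| ≤ δ → deriv ϕ t = 0) :
    ∃ p : ℝ → ℝ, ContDiff ℝ ∞ p ∧ ∀ t ∈ Icc (-1 : ℝ) 1,
      p t - t * deriv p t = ϕ t / √(1 - t ^ 2) ∧
      (1 - t ^ 2) * deriv (deriv p) t + (p t - t * deriv p t) = -(√(1 - t ^ 2) / t) * deriv ϕ t := by
  have hϕ' : ContDiff ℝ ∞ (deriv ϕ) := (contDiff_infty_iff_deriv.1 hϕ).2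
  have hϕd : Differentiable ℝ ϕ := (contDiff_infty_iff_deriv.1 hϕ).1
  -- eventually zero near the ends
  have hev : ∀ t : ℝ, 1 - δ < |t| → ∀ᶠ x in nhds t, ϕ x = 0 := by
    intro t ht
    have : ∀ᶠ x in nhds t, 1 - δ < |x| := (continuous_abs.tendsto t).eventually (lt_mem_nhds ht)
    filter_upwards [this] with x hx using h1 x hx.le
  have hev' : ∀ t : ℝ, 1 - δ < |t| → ∀ᶠ x in nhds t, deriv ϕ x = 0 := by
    intro t ht
    have : ∀ᶠ x in nhds t, 1 - δ < |x| := (continuous_abs.tendsto t).eventually (lt_mem_nhds ht)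
    filter_upwards [this] with x hx
    have h : ϕ =ᶠ[nhds x] fun _ => (0 : ℝ) := hev x hx
    rw [h.deriv_eq]; simp
  have hpos : ∀ t : ℝ, |t| < 1 → 0 < 1 - t ^ 2 := by
    intro t ht
    have := abs_lt.1 ht
    nlinarith
  set q : ℝ → ℝ := fun t => - deriv ϕ t / (t * √(1 - t ^ 2)) - ϕ t / (√(1 - t ^ 2)) ^ 3 with hq
  have hqc : ContDiff ℝ ∞ q := by
    rw [contDiff_iff_contDiffAt]
    intro t
    by_cases ht : 1 - δ < |t|
    · have : q =ᶠ[nhds t] fun _ => (0 : ℝ) := by
        filter_upwards [hev t ht, hev' t ht] with x hx hx'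
        simp [hq, hx, hx']
      exact contDiffAt_const.congr_of_eventuallyEq this
    · have ht1 : |t| < 1 := by linarith [not_lt.1 ht]
      have hp := hpos t ht1
      have hs : ContDiffAt ℝ ∞ (fun x : ℝ => √(1 - x ^ 2)) t :=
        ContDiffAt.sqrt (by fun_prop) hp.ne'
      have hsne : √(1 - t ^ 2) ≠ 0 := (Real.sqrt_pos.2 hp).ne'
      have hB : ContDiffAt ℝ ∞ (fun x => ϕ x / (√(1 - x ^ 2)) ^ 3) t :=
        hϕ.contDiffAt.div (hs.pow 3) (pow_ne_zero _ hsne)
      by_cases h0 : t = 0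
      · have : q =ᶠ[nhds t] fun x => - (ϕ x / (√(1 - x ^ 2)) ^ 3) := by
          have hδt : |t| < δ := by rw [h0]; simpa using hδ
          have : ∀ᶠ x in nhds t, |x| < δ := (continuous_abs.tendsto t).eventually (gt_mem_nhds hδt)
          filter_upwards [this] with x hx
          simp [hq, h2 x hx.le]
        exact hB.neg.congr_of_eventuallyEq this
      · exact (hϕ'.contDiffAt.neg.div (contDiffAt_id.mul hs) (mul_ne_zero h0 hsne)).sub hB
  have hqcont : Continuous q := hqc.continuous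
  set P : ℝ → ℝ := fun t => ∫ x in (0:ℝ)..t, q x with hP
  have hPd : ∀ t, HasDerivAt P (q t) t := fun t =>
    intervalIntegral.integral_hasDerivAt_right (hqcont.intervalIntegrable _ _)
      (hqcont.stronglyMeasurableAtFilter _ _) hqcont.continuousAt
  have hPcont : Continuous P := continuous_iff_continuousAt.2 fun t => (hPd t).continuousAt
  set p : ℝ → ℝ := fun t => ϕ 0 + ∫ x in (0:ℝ)..t, P x with hp
  have hpd : ∀ t, HasDerivAt p (P t) t := fun t =>
    (intervalIntegral.integral_hasDerivAt_right (hPcont.intervalIntegrable _ _)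
      (hPcont.stronglyMeasurableAtFilter _ _) hPcont.continuousAt).const_add _
  have hdp : deriv p = P := funext fun t => (hpd t).deriv
  have hdP : deriv P = q := funext fun t => (hPd t).deriv
  have hPc : ContDiff ℝ ∞ P := contDiff_infty_iff_deriv.2
    ⟨fun t => (hPd t).differentiableAt, by rw [hdP]; exact hqc⟩
  have hpc : ContDiff ℝ ∞ p := contDiff_infty_iff_deriv.2
    ⟨fun t => (hpd t).differentiableAt, by rw [hdp]; exact hPc⟩
  -- main identity
  have hh : ∀ t : ℝ, HasDerivAt (fun x => ϕ x / √(1 - x ^ 2)) (- t * q t) t := by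
    intro t
    by_cases ht : 1 - δ < |t|
    · have e : (fun x => ϕ x / √(1 - x ^ 2)) =ᶠ[nhds t] fun _ => (0 : ℝ) := by
        filter_upwards [hev t ht] with x hx
        simp [hx]
      have h0 : - t * q t = 0 := by
        have a := (hev t ht).self_of_nhds
        have b := (hev' t ht).self_of_nhds
        simp [hq, a, b]
      rw [h0]
      exact (hasDerivAt_const t (0:ℝ)).congr_of_eventuallyEq e
    · have ht1 : |t| < 1 := by linarith [not_lt.1 ht]
      have hp := hpos t ht1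
      have hsne : √(1 - t ^ 2) ≠ 0 := (Real.sqrt_pos.2 hp).ne'
      have hss : √(1 - t ^ 2) ^ 2 = 1 - t ^ 2 := Real.sq_sqrt hp.le
      have d1 : HasDerivAt (fun x : ℝ => 1 - x ^ 2) (-(2 * t)) t := by
        have := (hasDerivAt_pow 2 t).const_sub 1
        simpa using this
      have d2 := d1.sqrt hp.ne'
      have d3 : HasDerivAt (fun x => ϕ x / √(1 - x ^ 2))
        ((deriv ϕ t * √(1 - t ^ 2) - ϕ t * (-(2 * t) / (2 * √(1 - t ^ 2)))) / √(1 - t ^ 2) ^ 2) t :=
        (hϕd t).hasDerivAt.div d2 hsne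
      refine d3.congr_deriv ?_
      symm
      by_cases h0 : t = 0
      · subst h0
        have : deriv ϕ 0 = 0 := h2 0 (by simpa using hδ.le)
        simp [hq, this]
      · simp only [hq]
        generalize √(1 - t ^ 2) = s at *
        field_simp
        ring
  have hg : ∀ t : ℝ, HasDerivAt (fun x => p x - x * P x) (- t * q t) t := by
    intro t
    have h : HasDerivAt (fun x => p x - x * P x) (P t - (1 * P t + t * q t)) t :=
      (hpd t).sub ((hasDerivAt_id t).mul (hPd t))
    exact h.congr_deriv (by ring)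
  have hconst : ∀ t : ℝ, p t - t * P t = ϕ t / √(1 - t ^ 2) := by
    intro t
    have hd : ∀ x : ℝ, HasDerivAt (fun x => (p x - x * P x) - ϕ x / √(1 - x ^ 2)) 0 x := by
      intro x
      exact ((hg x).sub (hh x)).congr_deriv (by ring)
    have := is_const_of_deriv_eq_zero (fun x => (hd x).differentiableAt) (fun x => (hd x).deriv) t 0
    have h0 : p 0 = ϕ 0 := by simp [hp]
    simp [h0] at this
    linarith
  refine ⟨p, hpc, ?_⟩
  intro t ht
  rw [hdp, hdP]
  refine ⟨hconst t, ?_⟩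
  rw [hconst t]
  by_cases h0 : t = 0
  · subst h0
    have : deriv ϕ 0 = 0 := h2 0 (by simpa using hδ.le)
    simp [hq, this]
  · have habs : |t| ≤ 1 := abs_le.2 ht
    rcases habs.lt_or_eq with h | h
    · have hp := hpos t h
      have hsne : √(1 - t ^ 2) ≠ 0 := (Real.sqrt_pos.2 hp).ne'
      have hss : 1 - t ^ 2 = √(1 - t ^ 2) ^ 2 := (Real.sq_sqrt hp.le).symm
      simp only [hq]
      generalize √(1 - t ^ 2) = s at *
      rw [hss]
      field_simp
      ring
    · have h1' : 1 - t ^ 2 = 0 := by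
        have : t ^ 2 = 1 := by rw [← sq_abs, h]; norm_num
        linarith
      simp [h1']

end Pool.Agent.Helper115_ME.VV
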