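import Mathlib
set_option autoImplicit false
namespace Pool.Agent.Helper115_ME.VV

open Set Filter Topology
open scoped ContDiff

noncomputable section

/-- `ψ(x) = (1-x²)^(-(n-2)/2)` -/
def psi (n : ℕ) (x : ℝ) : ℝ := ((√(1 - x ^ 2)) ^ (n - 2))⁻¹

def JJ (n : ℕ) (a b x : ℝ) : ℝ :=
  (√(1 - x ^ 2))⁻¹ * (((if x ≤ b then psi n b else 0) - (if x ≤ a then psi n a else 0)) / (psi n b - psi n a))

theorem os_sqrt_pos {x : ℝ} (hx : x ∈ Ioo (0:ℝ) 1) : 0 < √(1 - x ^ 2) := by
  apply Real.sqrt_pos.2
  nlinarith [hx.1, hx.2]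

theorem os_hasDerivAt_psi {n : ℕ} (hn : 3 ≤ n) {x : ℝ} (hx : x ∈ Ioo (0:ℝ) 1) :
    HasDerivAt (psi n) (((n:ℝ) - 2) * x / (√(1 - x ^ 2)) ^ n) x := by
  obtain ⟨m, rfl⟩ : ∃ m, n = m + 3 := ⟨n - 3, by omega⟩
  have hs := os_sqrt_pos hx
  have h1 : HasDerivAt (fun y : ℝ => 1 - y ^ 2) (-(2 * x)) x := by
    have := ((hasDerivAt_pow 2 x).const_sub 1)
    simpa using this
  have h2 : HasDerivAt (fun y : ℝ => √(1 - y ^ 2)) (-(2 * x) / (2 * √(1 - x ^ 2))) x :=
    h1.sqrt (by nlinarith [hx.1, hx.2])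
  have h3 := (h2.pow (m + 1)).inv (pow_pos hs _).ne'
  have h4 : psi (m + 3) = ((fun y : ℝ => √(1 - y ^ 2)) ^ (m + 1))⁻¹ := by
    funext y
    simp [psi]
  rw [h4]
  refine h3.congr_deriv ?_
  have hs' := hs.ne'
  simp only [Pi.pow_apply]
  generalize √(1 - x ^ 2) = s at hs'
  push_cast
  field_simp
  ring

def osM (v : ℝ) : ℝ := ∫ w in (0:ℝ)..v, Real.smoothTransition w

theorem osM_hasDerivAt (v : ℝ) : HasDerivAt osM (Real.smoothTransition v) v :=
  Real.smoothTransition.continuous.integral_hasStrictDerivAt 0 v |>.hasDerivAt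

theorem osM_contDiff : ContDiff ℝ ∞ osM := by
  rw [contDiff_infty_iff_deriv]
  refine ⟨fun v => (osM_hasDerivAt v).differentiableAt, ?_⟩
  have : deriv osM = Real.smoothTransition := by
    funext v
    exact (osM_hasDerivAt v).deriv
  rw [this]
  exact Real.smoothTransition.contDiff

theorem osM_zero {v : ℝ} (hv : v ≤ 0) : osM v = 0 := by
  unfold osM
  rw [intervalIntegral.integral_congr (g := fun _ => (0:ℝ))]
  · simp
  · intro w hw
    rw [Set.uIcc_of_ge hv] at hw
    exact Real.smoothTransition.zero_of_nonpos hw.2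

theorem osM_one {v : ℝ} (hv : 1 ≤ v) : osM v = osM 1 + (v - 1) := by
  unfold osM
  rw [← intervalIntegral.integral_add_adjacent_intervals (b := 1)
    (Real.smoothTransition.continuous.intervalIntegrable _ _)
    (Real.smoothTransition.continuous.intervalIntegrable _ _)]
  congr 1
  rw [intervalIntegral.integral_congr (g := fun _ => (1:ℝ))]
  · simp
  · intro w hw
    rw [Set.uIcc_of_le hv] at hw
    exact Real.smoothTransition.one_of_one_le hw.1

theorem st_mono : Monotone Real.smoothTransition := Real.smoothTransition.monotone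

/-- the smooth model in the variable `u = ψ(t)` -/
def osP (A B K u : ℝ) : ℝ := 1 - (osM (K * (u - A)) - osM (K * (u - B))) / (K * (B - A))

theorem osP_hasDerivAt {A B K : ℝ} (hK : 0 < K) (hAB : A < B) (u : ℝ) :
    HasDerivAt (osP A B K)
      (-((Real.smoothTransition (K * (u - A)) - Real.smoothTransition (K * (u - B))) / (B - A))) u := by
  have h1 : ∀ D : ℝ, HasDerivAt (fun u : ℝ => osM (K * (u - D)))
      (Real.smoothTransition (K * (u - D)) * K) u := by
    intro D
    have h := (osM_hasDerivAt (K * (u - D))).comp u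
      (((hasDerivAt_id u).sub_const D).const_mul K)
    simpa [Function.comp_def] using h
  have h2 := (((h1 A).sub (h1 B)).div_const (K * (B - A))).const_sub 1
  refine h2.congr_deriv ?_
  have : B - A ≠ 0 := by linarith
  field_simp

theorem osP_contDiff (A B K : ℝ) : ContDiff ℝ ∞ (osP A B K) := by
  unfold osP
  have h1 : ∀ D : ℝ, ContDiff ℝ ∞ (fun u : ℝ => osM (K * (u - D))) := by
    intro D
    exact osM_contDiff.comp (contDiff_const.mul (contDiff_id.sub contDiff_const))
  exact contDiff_const.sub (((h1 A).sub (h1 B)).div_const _)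

theorem osP_left {A B K u : ℝ} (hK : 0 < K) (hAB : A < B) (hu : u ≤ A) : osP A B K u = 1 := by
  unfold osP
  rw [osM_zero, osM_zero]
  · simp
  · nlinarith
  · nlinarith

theorem osP_right {A B K u : ℝ} (hK : 0 < K) (hAB : A < B) (hu : 1 ≤ K * (u - B)) :
    osP A B K u = 0 := by
  unfold osP
  rw [osM_one hu, osM_one (v := K * (u - A)) (by nlinarith)]
  have : B - A ≠ 0 := by linarith
  field_simp
  ring


def osphi (n : ℕ) (A B K : ℝ) (t : ℝ) : ℝ :=
  if t ≤ 0 then 1 else if 1 ≤ t then 0 else osP A B K (psi n t)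

theorem os_psi_mono {n : ℕ} {x y : ℝ} (hx : 0 < x) (hxy : x ≤ y) (hy : y < 1) :
    psi n x ≤ psi n y := by
  unfold psi
  have h1 := os_sqrt_pos (x := y) ⟨by linarith, hy⟩
  apply inv_anti₀ (pow_pos h1 _)
  apply pow_le_pow_left₀ h1.le
  apply Real.sqrt_le_sqrt
  nlinarith

theorem os_psi_strict {n : ℕ} (hn : 3 ≤ n) {x y : ℝ} (hx : 0 < x) (hxy : x < y) (hy : y < 1) :
    psi n x < psi n y := by
  unfold psi
  have h1 := os_sqrt_pos (x := y) ⟨by linarith, hy⟩
  apply inv_strictAnti₀ (pow_pos h1 _)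
  apply pow_lt_pow_left₀ _ h1.le (by omega)
  apply Real.sqrt_lt_sqrt (by nlinarith)
  nlinarith

theorem osphi_left {n : ℕ} {a b K t : ℝ} (hK : 0 < K) (ha : 0 < a) (hab : psi n a < psi n b)
    (ha1 : a < 1) (ht : t ≤ a) : osphi n (psi n a) (psi n b) K t = 1 := by
  unfold osphi
  split_ifs with h1 h2
  · rfl
  · linarith
  · exact osP_left hK hab (os_psi_mono (by linarith) ht ha1)

theorem osphi_right {n : ℕ} {A b c K t : ℝ} (hK : 0 < K) (hc : 0 < c)
    (hab : A < psi n b) (hc1 : 1 ≤ K * (psi n c - psi n b)) (ht : c ≤ t) :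
    osphi n A (psi n b) K t = 0 := by
  unfold osphi
  split_ifs with h1 h2
  · linarith
  · rfl
  · apply osP_right hK hab
    have := os_psi_mono (n := n) hc ht (by linarith)
    nlinarith

theorem osphi_eventuallyEq {n : ℕ} {A B K t : ℝ} (ht : t ∈ Ioo (0:ℝ) 1) :
    osphi n A B K =ᶠ[𝓝 t] fun y => osP A B K (psi n y) := by
  filter_upwards [Ioo_mem_nhds ht.1 ht.2] with y hy
  unfold osphi
  rw [if_neg (by linarith [hy.1]), if_neg (by linarith [hy.2])]

theorem osphi_hasDerivAt {n : ℕ} (hn : 3 ≤ n) {A B K t : ℝ} (hK : 0 < K) (hAB : A < B)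
    (ht : t ∈ Ioo (0:ℝ) 1) :
    HasDerivAt (osphi n A B K)
      (-((Real.smoothTransition (K * (psi n t - A)) - Real.smoothTransition (K * (psi n t - B))) /
        (B - A)) * (((n:ℝ) - 2) * t / (√(1 - t ^ 2)) ^ n)) t := by
  have h := (osP_hasDerivAt hK hAB (psi n t)).comp t (os_hasDerivAt_psi hn ht)
  exact HasDerivAt.congr_of_eventuallyEq h (osphi_eventuallyEq ht)

theorem os_psi_contDiffAt {n : ℕ} {t : ℝ} (ht : t ∈ Ioo (0:ℝ) 1) : ContDiffAt ℝ ∞ (psi n) t := by
  unfold psi
  have hs := os_sqrt_pos ht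
  apply ContDiffAt.inv
  · apply ContDiffAt.pow
    apply ContDiffAt.sqrt
    · exact (contDiff_const.sub (contDiff_id.pow 2)).contDiffAt
    · have := Real.sqrt_pos.1 hs
      exact this.ne'
  · exact (pow_pos hs _).ne'

theorem osphi_contDiff {n : ℕ} {a b c K : ℝ} (hK : 0 < K) (ha : 0 < a)
    (hab : psi n a < psi n b) (ha1 : a < 1) (hc : 0 < c) (hcc : c < 1)
    (hc1 : 1 ≤ K * (psi n c - psi n b)) :
    ContDiff ℝ ∞ (osphi n (psi n a) (psi n b) K) := by
  rw [contDiff_iff_contDiffAt]
  intro t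
  by_cases h1 : t < a
  · apply ContDiffAt.congr_of_eventuallyEq (f := fun _ => (1:ℝ)) contDiffAt_const
    filter_upwards [Iio_mem_nhds h1] with y hy
    exact osphi_left hK ha hab ha1 (le_of_lt hy)
  by_cases h2 : c < t
  · apply ContDiffAt.congr_of_eventuallyEq (f := fun _ => (0:ℝ)) contDiffAt_const
    filter_upwards [Ioi_mem_nhds h2] with y hy
    exact osphi_right hK hc hab hc1 (le_of_lt hy)
  have ht : t ∈ Ioo (0:ℝ) 1 := ⟨by linarith, by linarith⟩
  refine ContDiffAt.congr_of_eventuallyEq ?_ (osphi_eventuallyEq ht)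
  exact (osP_contDiff _ _ _).contDiffAt.comp t (os_psi_contDiffAt ht)

theorem osphi_antitone {n : ℕ} (hn : 3 ≤ n) {a b c K : ℝ} (hK : 0 < K) (ha : 0 < a)
    (hab : psi n a < psi n b) (ha1 : a < 1) (hc : 0 < c) (hcc : c < 1)
    (hc1 : 1 ≤ K * (psi n c - psi n b)) :
    Antitone (osphi n (psi n a) (psi n b) K) := by
  have hcd := osphi_contDiff hK ha hab ha1 hc hcc hc1
  apply antitone_of_deriv_nonpos (hcd.differentiable (by simp))
  intro t
  by_cases h1 : t < a
  · have : deriv (osphi n (psi n a) (psi n b) K) t = deriv (fun _ => (1:ℝ)) t := by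
      apply Filter.EventuallyEq.deriv_eq
      filter_upwards [Iio_mem_nhds h1] with y hy
      exact osphi_left hK ha hab ha1 (le_of_lt hy)
    rw [this]
    simp
  by_cases h2 : c < t
  · have : deriv (osphi n (psi n a) (psi n b) K) t = deriv (fun _ => (0:ℝ)) t := by
      apply Filter.EventuallyEq.deriv_eq
      filter_upwards [Ioi_mem_nhds h2] with y hy
      exact osphi_right hK hc hab hc1 (le_of_lt hy)
    rw [this]
    simp
  have ht : t ∈ Ioo (0:ℝ) 1 := ⟨by linarith, by linarith⟩
  rw [(osphi_hasDerivAt hn hK hab ht).deriv]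
  have hs := os_sqrt_pos ht
  have hn' : (3:ℝ) ≤ n := by exact_mod_cast hn
  have h3 : 0 ≤ (Real.smoothTransition (K * (psi n t - psi n a)) -
      Real.smoothTransition (K * (psi n t - psi n b))) / (psi n b - psi n a) := by
    apply div_nonneg
    · rw [sub_nonneg]
      apply st_mono
      nlinarith
    · linarith
  have h4 : 0 ≤ ((n:ℝ) - 2) * t / (√(1 - t ^ 2)) ^ n := by
    apply div_nonneg
    · apply mul_nonneg
      · linarith
      · exact ht.1.le
    · positivity
  nlinarith

/-- value of the term containing the derivative -/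
theorem osphi_term {n : ℕ} (hn : 3 ≤ n) {A B K t : ℝ} (hK : 0 < K) (hAB : A < B)
    (ht : t ∈ Ioo (0:ℝ) 1) :
    (√(1 - t ^ 2) / t) * deriv (osphi n A B K) t =
      -(((n:ℝ) - 2) * ((√(1 - t ^ 2)) ^ (n - 1))⁻¹ * ((Real.smoothTransition (K * (psi n t - A)) -
        Real.smoothTransition (K * (psi n t - B))) / (B - A))) := by
  rw [(osphi_hasDerivAt hn hK hAB ht).deriv]
  have hs := (os_sqrt_pos ht).ne'
  have ht0 : t ≠ 0 := ht.1.ne'
  have hAB' : B - A ≠ 0 := by linarith
  obtain ⟨m, rfl⟩ : ∃ m, n = m + 1 := ⟨n - 1, by omega⟩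
  simp only [Nat.add_sub_cancel, pow_succ]
  field_simp

theorem os_st_tendsto_one {x : ℝ} (hx : 0 < x) (N : ℕ → ℝ) (hN : Tendsto N atTop atTop) :
    ∀ᶠ k in atTop, 1 ≤ N k * x := by
  filter_upwards [hN.eventually_ge_atTop (x⁻¹)] with k hk
  calc (1:ℝ) = x⁻¹ * x := by rw [inv_mul_cancel₀ hx.ne']
    _ ≤ N k * x := by nlinarith

theorem osM_scaled_tendsto {x : ℝ} (N : ℕ → ℝ) (hN : Tendsto N atTop atTop) (hN0 : ∀ k, 0 < N k) :
    Tendsto (fun k => osM (N k * x) / N k) atTop (𝓝 (max x 0)) := by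
  rcases le_or_gt x 0 with h | h
  · rw [max_eq_right h]
    refine tendsto_const_nhds.congr (fun k => ?_)
    rw [osM_zero, zero_div]
    nlinarith [hN0 k]
  · rw [max_eq_left h.le]
    have h1 : Tendsto (fun k => (osM 1 - 1) / N k + x) atTop (𝓝 (0 + x)) :=
      (hN.const_div_atTop _).add_const x
    rw [zero_add] at h1
    refine h1.congr' ?_
    filter_upwards [os_st_tendsto_one h N hN] with k hk
    rw [osM_one hk]
    have := (hN0 k).ne'
    field_simp
    ring

theorem osP_tendsto {A B u : ℝ} (hAB : A < B) (N : ℕ → ℝ) (hN : Tendsto N atTop atTop)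
    (hN0 : ∀ k, 0 < N k) :
    Tendsto (fun k => osP A B (N k) u) atTop (𝓝 (1 - (max (u - A) 0 - max (u - B) 0) / (B - A))) := by
  have h := (((osM_scaled_tendsto (x := u - A) N hN hN0).sub
    (osM_scaled_tendsto (x := u - B) N hN hN0)).div_const (B - A)).const_sub 1
  refine h.congr (fun k => ?_)
  unfold osP
  have h1 := (hN0 k).ne'
  have h2 : B - A ≠ 0 := by linarith
  field_simp

theorem os_st_tendsto {x : ℝ} (N : ℕ → ℝ) (hN : Tendsto N atTop atTop) (hN0 : ∀ k, 0 < N k) :
    Tendsto (fun k => Real.smoothTransition (N k * x)) atTop (𝓝 (if 0 < x then 1 else 0)) := by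
  split_ifs with h
  · apply tendsto_const_nhds.congr'
    filter_upwards [os_st_tendsto_one h N hN] with k hk
    exact (Real.smoothTransition.one_of_one_le hk).symm
  · apply tendsto_const_nhds.congr
    intro k
    exact (Real.smoothTransition.zero_of_nonpos (by nlinarith [hN0 k])).symm

theorem one_side {n : ℕ} (hn : 3 ≤ n) {a b : ℝ} (ha : 0 < a) (hab : a < b) (hb : b < 1) :
    ∃ (ϕ : ℕ → ℝ → ℝ) (δ C : ℝ), 0 < δ ∧ δ < 1 ∧ (∀ k, ContDiff ℝ ∞ (ϕ k)) ∧
      (∀ k t, t ≤ δ → ϕ k t = 1) ∧ (∀ k t, 1 - δ ≤ t → ϕ k t = 0) ∧ (∀ k, Antitone (ϕ k)) ∧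
      (∀ k, ∀ t ∈ Ioo (0 : ℝ) 1, |(√(1 - t ^ 2) / t) * deriv (ϕ k) t| ≤ C) ∧
      ∀ t ∈ Ioo (0 : ℝ) 1, Tendsto (fun k => -(√(1 - t ^ 2) / t) * deriv (ϕ k) t +
        ((n : ℝ) - 2) * (ϕ k t / √(1 - t ^ 2))) atTop (𝓝 (((n : ℝ) - 2) * JJ n a b t)) := by
  have hAB : psi n a < psi n b := os_psi_strict hn ha hab hb
  obtain ⟨c, hbc, hc1⟩ := exists_between hb
  have hBc : psi n b < psi n c := os_psi_strict hn (ha.trans hab) hbc hc1
  have hc0 : 0 < c := by linarith
  set K0 : ℝ := (psi n c - psi n b)⁻¹ with hK0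
  have hK0pos : 0 < K0 := inv_pos.2 (by linarith)
  let N : ℕ → ℝ := fun k => (k:ℝ) + K0
  have hN0 : ∀ k, 0 < N k := fun k => by positivity
  have hN : Tendsto N atTop atTop :=
    tendsto_atTop_add_const_right _ _ tendsto_natCast_atTop_atTop
  have hNc : ∀ k, 1 ≤ N k * (psi n c - psi n b) := by
    intro k
    have h1 : K0 * (psi n c - psi n b) = 1 := inv_mul_cancel₀ (by linarith)
    have h2 : (0:ℝ) ≤ k := Nat.cast_nonneg k
    have h3 : N k * (psi n c - psi n b) = k * (psi n c - psi n b) + 1 := by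
      simp only [N]
      rw [add_mul, h1]
    rw [h3]
    nlinarith
  have hsc := os_sqrt_pos (x := c) ⟨hc0, hc1⟩
  have hn' : (3:ℝ) ≤ n := by exact_mod_cast hn
  refine ⟨fun k => osphi n (psi n a) (psi n b) (N k), min a (1 - c),
    ((n:ℝ) - 2) * ((√(1 - c ^ 2)) ^ (n - 1))⁻¹ * (1 / (psi n b - psi n a)),
    lt_min ha (by linarith), lt_of_le_of_lt (min_le_left _ _) (by linarith), ?_, ?_, ?_, ?_, ?_, ?_⟩
  · intro k
    exact osphi_contDiff (hN0 k) ha hAB (by linarith) hc0 hc1 (hNc k)
  · intro k t ht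
    exact osphi_left (hN0 k) ha hAB (by linarith) (ht.trans (min_le_left _ _))
  · intro k t ht
    apply osphi_right (hN0 k) hc0 hAB (hNc k)
    have := min_le_right a (1 - c)
    linarith
  · intro k
    exact osphi_antitone hn (hN0 k) ha hAB (by linarith) hc0 hc1 (hNc k)
  · intro k t ht
    have hst := os_sqrt_pos ht
    rw [osphi_term hn (hN0 k) hAB ht, abs_neg]
    have hd : 0 ≤ (Real.smoothTransition (N k * (psi n t - psi n a)) -
        Real.smoothTransition (N k * (psi n t - psi n b))) := by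
      rw [sub_nonneg]
      apply st_mono
      nlinarith [hN0 k]
    have hd1 : (Real.smoothTransition (N k * (psi n t - psi n a)) -
        Real.smoothTransition (N k * (psi n t - psi n b))) ≤ 1 := by
      have h1 := Real.smoothTransition.le_one (N k * (psi n t - psi n a))
      have h2 := Real.smoothTransition.nonneg (N k * (psi n t - psi n b))
      linarith
    have hq : 0 ≤ (Real.smoothTransition (N k * (psi n t - psi n a)) -
        Real.smoothTransition (N k * (psi n t - psi n b))) / (psi n b - psi n a) :=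
      div_nonneg hd (by linarith)
    rw [abs_of_nonneg (by
      apply mul_nonneg _ hq
      apply mul_nonneg (by linarith)
      positivity)]
    rcases le_or_gt t c with htc | htc
    · apply mul_le_mul _ _ hq
      · apply mul_nonneg (by linarith)
        positivity
      · apply mul_le_mul_of_nonneg_left _ (by linarith)
        apply inv_anti₀ (pow_pos hsc _)
        apply pow_le_pow_left₀ hsc.le
        apply Real.sqrt_le_sqrt
        nlinarith [ht.1]
      · apply div_le_div_of_nonneg_right hd1 (by linarith)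
    · have h1 : 1 ≤ N k * (psi n t - psi n b) := by
        have := os_psi_mono (n := n) hc0 htc.le ht.2
        have h2 := hNc k
        nlinarith [hN0 k]
      have h2 : 1 ≤ N k * (psi n t - psi n a) := by
        nlinarith [hN0 k]
      rw [Real.smoothTransition.one_of_one_le h1, Real.smoothTransition.one_of_one_le h2]
      simp only [sub_self, zero_div, mul_zero]
      apply mul_nonneg
      · apply mul_nonneg (by linarith)
        positivity
      · apply div_nonneg (by norm_num) (by linarith)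
  · intro t ht
    have hst := os_sqrt_pos ht
    have h1 : Tendsto (fun k => ((n:ℝ) - 2) * ((√(1 - t ^ 2)) ^ (n - 1))⁻¹ *
        ((Real.smoothTransition (N k * (psi n t - psi n a)) -
        Real.smoothTransition (N k * (psi n t - psi n b))) / (psi n b - psi n a)) +
        ((n : ℝ) - 2) * (osP (psi n a) (psi n b) (N k) (psi n t) / √(1 - t ^ 2))) atTop
        (𝓝 (((n:ℝ) - 2) * ((√(1 - t ^ 2)) ^ (n - 1))⁻¹ *
        (((if 0 < psi n t - psi n a then 1 else 0) -
        (if 0 < psi n t - psi n b then 1 else 0)) / (psi n b - psi n a)) +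
        ((n : ℝ) - 2) * ((1 - (max (psi n t - psi n a) 0 - max (psi n t - psi n b) 0) /
          (psi n b - psi n a)) / √(1 - t ^ 2)))) := by
      apply Tendsto.add
      · apply Tendsto.const_mul
        apply Tendsto.div_const
        exact (os_st_tendsto N hN hN0).sub (os_st_tendsto N hN hN0)
      · apply Tendsto.const_mul
        apply Tendsto.div_const
        exact osP_tendsto hAB N hN hN0
    have h2 : (((n:ℝ) - 2) * ((√(1 - t ^ 2)) ^ (n - 1))⁻¹ *
        (((if 0 < psi n t - psi n a then 1 else 0) -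
        (if 0 < psi n t - psi n b then 1 else 0)) / (psi n b - psi n a)) +
        ((n : ℝ) - 2) * ((1 - (max (psi n t - psi n a) 0 - max (psi n t - psi n b) 0) /
          (psi n b - psi n a)) / √(1 - t ^ 2))) = ((n : ℝ) - 2) * JJ n a b t := by
      unfold JJ
      have hne : psi n b - psi n a ≠ 0 := by linarith
      have hpt : psi n t = ((√(1 - t ^ 2)) ^ (n - 2))⁻¹ := rfl
      have hpw : (√(1 - t ^ 2)) ^ (n - 1) = (√(1 - t ^ 2)) ^ (n - 2) * √(1 - t ^ 2) := by
        rw [← pow_succ]
        congr 1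
        omega
      have hpt' : ((√(1 - t ^ 2)) ^ (n - 1))⁻¹ = psi n t * (√(1 - t ^ 2))⁻¹ := by
        rw [hpw, mul_inv, hpt]
      rw [hpt']
      rcases le_or_gt t a with hta | hta
      · have h3 : psi n t ≤ psi n a := os_psi_mono ht.1 hta (by linarith)
        rw [if_neg (by linarith), if_neg (by linarith), max_eq_right (by linarith),
          max_eq_right (by linarith), if_pos (by linarith), if_pos hta]
        field_simp
        ring
      · have h3 : psi n a < psi n t := os_psi_strict hn ha hta ht.2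
        rw [if_pos (by linarith), max_eq_left (by linarith)]
        rcases le_or_gt t b with htb | htb
        · have h4 : psi n t ≤ psi n b := os_psi_mono ht.1 htb (by linarith)
          rw [if_neg (by linarith), max_eq_right (by linarith), if_pos htb,
            if_neg (by linarith)]
          field_simp
          ring
        · have h4 : psi n b < psi n t := os_psi_strict hn (by linarith) htb ht.2
          rw [if_pos (by linarith), max_eq_left (by linarith), if_neg (by linarith),
            if_neg (by linarith)]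
          field_simp
          ring
    rw [← h2]
    refine h1.congr (fun k => ?_)
    have h5 := osphi_term hn (hN0 k) hAB ht
    have h6 : osphi n (psi n a) (psi n b) (N k) t = osP (psi n a) (psi n b) (N k) (psi n t) :=
      (osphi_eventuallyEq ht).self_of_nhds
    simp only
    rw [neg_mul, h5, neg_neg, h6]

end

end Pool.Agent.Helper115_ME.VV
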