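import Mathlib
import Pool.Agent.Helper115_ME.VV.ZonF
import Pool.Agent.Helper115_ME.VV.V01
import Pool.Agent.Helper115_ME.VV.V02
import Pool.Agent.Helper115_ME.CC.Nec

/-!
# Testing a generating measure on bodies of revolution
-/

set_option autoImplicit false

namespace Pool.Agent.Helper115_ME

open MeasureTheory Metric Set Filter Topology
open scoped ContDiff

noncomputable section

variable {n : ℕ}

/-- the test integrand: `P + (n-2) r` for `r = ϕ/s`, `P = -(s/t) ϕ'` -/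
def tst (n : ℕ) (ϕ : ℝ → ℝ) (t : ℝ) : ℝ :=
  -(√(1 - t ^ 2) / t) * deriv ϕ t + ((n : ℝ) - 2) * (ϕ t / √(1 - t ^ 2))

theorem inner_mem_Icc' (e v : Sph n) : (inner ℝ (e : E n) (v : E n) : ℝ) ∈ Icc (-1 : ℝ) 1 := by
  have h := abs_real_inner_le_norm (e : E n) (v : E n)
  rw [norm_coe_sph, norm_coe_sph, one_mul] at h
  exact abs_le.1 h

theorem D_test (hn : 3 ≤ n) (e : Sph n) {μ : Distr n} (hμ : IsZonalDistribution (e : E n) μ)
    {m₁ m₂ : Measure (Sph n)} (hm : ∀ f : SmoothFun n, val μ f = (∫ v, f.1 v ∂m₁) - ∫ v, f.1 v ∂m₂)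
    {T : Body n → Body n} (hT : Generates e μ T)
    {ϕ : ℝ → ℝ} (hϕ : ContDiff ℝ ∞ ϕ) {δ : ℝ} (hδ : 0 < δ) (hδ1 : δ < 1)
    (h1 : ∀ t, 1 - δ ≤ |t| → ϕ t = 0) (h2 : ∀ t, |t| ≤ δ → deriv ϕ t = 0)
    (h3 : ∀ t, 0 ≤ ϕ t) (h4 : ∀ t, 0 < t → deriv ϕ t ≤ 0) (h5 : ∀ t, t < 0 → 0 ≤ deriv ϕ t) :
    0 ≤ (∫ v, tst n ϕ (inner ℝ (e : E n) (v : E n)) ∂m₁) - ∫ v, tst n ϕ (inner ℝ (e : E n) (v : E n)) ∂m₂ := by
  obtain ⟨w, hw⟩ := exists_perp_one hn e
  obtain ⟨p, hp, hp2⟩ := VV.exists_gen hϕ hδ hδ1 h1 h2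
  have hr : ∀ t ∈ Icc (-1 : ℝ) 1, 0 ≤ p t - t * deriv p t := fun t ht => by
    rw [(hp2 t ht).1]
    exact div_nonneg (h3 t) (Real.sqrt_nonneg _)
  have hP : ∀ t ∈ Icc (-1 : ℝ) 1, 0 ≤ (1 - t ^ 2) * deriv (deriv p) t + (p t - t * deriv p t) := fun t ht => by
    rw [(hp2 t ht).2]
    have h6 := Real.sqrt_nonneg (1 - t ^ 2)
    rcases lt_trichotomy t 0 with h | h | h
    · have h7 : √(1 - t ^ 2) / t ≤ 0 := div_nonpos_of_nonneg_of_nonpos h6 h.le
      have := h5 t h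
      nlinarith
    · rw [h]; simp
    · have h7 : 0 ≤ √(1 - t ^ 2) / t := div_nonneg h6 h.le
      have := h4 t h
      nlinarith
  have hpos := pos_of_generates hn e hw hμ.continuous hT (zonF (e : E n) hp)
    fun u v huv => Rc_zonF_nonneg (norm_coe_sph e) hp hr hP huv
  -- the smooth function on the sphere
  set k : SmoothFun n := zonF (e : E n) (p := fun t => (1 - t ^ 2) * deriv (deriv p) t)
      ((contDiff_const.sub (contDiff_id.pow 2)).mul (contDiff_deriv_infty (contDiff_deriv_infty hp))) +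
      ((n : ℝ) - 1) • (zonF (e : E n) hp - zonF (e : E n) (p := fun t => t * deriv p t)
        (contDiff_id.mul (contDiff_deriv_infty hp))) with hk
  have hkv : ∀ v : Sph n, k.1 v = (1 - (inner ℝ (e : E n) (v : E n) : ℝ) ^ 2) * deriv (deriv p) (inner ℝ (e : E n) (v : E n)) +
      ((n : ℝ) - 1) * (p (inner ℝ (e : E n) (v : E n)) - (inner ℝ (e : E n) (v : E n) : ℝ) * deriv p (inner ℝ (e : E n) (v : E n))) :=
    fun v => rfl
  have h6 := ell_zonF hn hw hμ.continuous hμ.zonal hp k (fun v => by rw [hkv v]; ring)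
  have hkt : ∀ v : Sph n, k.1 v = tst n ϕ (inner ℝ (e : E n) (v : E n)) := fun v => by
    obtain ⟨e1, e2⟩ := hp2 _ (inner_mem_Icc' e v)
    rw [hkv v, tst, ← e2, ← e1]
    ring
  have h7 : 0 ≤ μ k := by
    rw [← h6]
    refine mul_nonneg ?_ hpos
    have : (3 : ℝ) ≤ n := by exact_mod_cast hn
    linarith
  have h8 : μ k = (∫ v, k.1 v ∂m₁) - ∫ v, k.1 v ∂m₂ := hm k
  rw [h8] at h7
  simp_rw [hkt] at h7
  exact h7

end

end Pool.Agent.Helper115_ME
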