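import Mathlib
import Pool.Agent.Helper115_ME.VV.DTest

/-!
# Limit of the tests
-/

set_option autoImplicit false

namespace Pool.Agent.Helper115_ME

open MeasureTheory Metric Set Filter Topology
open scoped ContDiff

noncomputable section

variable {n : ℕ}

/-- product of two one-sided cutoffs -/
theorem deriv_two_sided {ϕ₁ ϕ₂ : ℝ → ℝ} {δ : ℝ} (hδ : 0 < δ) (h1 : ∀ t, t ≤ δ → ϕ₁ t = 1)
    (h2 : ∀ t, t ≤ δ → ϕ₂ t = 1) (t : ℝ) :
    deriv (fun x => ϕ₁ x * ϕ₂ (-x)) t = if 0 ≤ t then deriv ϕ₁ t else -deriv ϕ₂ (-t) := by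
  split_ifs with ht
  · have e : (fun x => ϕ₁ x * ϕ₂ (-x)) =ᶠ[𝓝 t] ϕ₁ := by
      filter_upwards [eventually_gt_nhds (show -δ < t by linarith)] with x hx
      rw [h2 (-x) (by linarith), mul_one]
    exact e.deriv_eq
  · have e : (fun x => ϕ₁ x * ϕ₂ (-x)) =ᶠ[𝓝 t] fun x => ϕ₂ (-x) := by
      filter_upwards [eventually_lt_nhds (show t < δ by linarith)] with x hx
      rw [h1 x hx.le, one_mul]
    rw [e.deriv_eq, deriv_comp_neg]

theorem JJ_one (a b : ℝ) : VV.JJ n a b 1 = 0 := by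
  unfold VV.JJ
  simp

/-- the limit integrand -/
def Glim (n : ℕ) (a b a' b' : ℝ) (t : ℝ) : ℝ :=
  ((n : ℝ) - 2) * (if t = 0 then 1 else if 0 < t then VV.JJ n a b t else VV.JJ n a' b' (-t))

theorem tst_two_sided {ϕ₁ ϕ₂ : ℝ → ℝ} {δ : ℝ} (hδ : 0 < δ) (h1 : ∀ t, t ≤ δ → ϕ₁ t = 1)
    (h2 : ∀ t, t ≤ δ → ϕ₂ t = 1) (t : ℝ) :
    tst n (fun x => ϕ₁ x * ϕ₂ (-x)) t = if t = 0 then (n : ℝ) - 2 else if 0 < t then tst n ϕ₁ t else tst n ϕ₂ (-t) := by
  rcases lt_trichotomy t 0 with h | h | h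
  · rw [if_neg h.ne, if_neg (not_lt.2 h.le)]
    unfold tst
    rw [deriv_two_sided hδ h1 h2, if_neg (not_le.2 h), neg_sq, div_neg]
    simp only [h1 t (by linarith), one_mul]
    ring
  · subst h
    rw [if_pos rfl]
    unfold tst
    simp only [neg_zero]
    rw [h1 0 hδ.le, h2 0 hδ.le]
    simp
  · rw [if_neg h.ne', if_pos h]
    unfold tst
    rw [deriv_two_sided hδ h1 h2, if_pos h.le]
    simp only [h2 (-t) (by linarith), mul_one]

theorem tst_one (ϕ : ℝ → ℝ) : tst n ϕ 1 = 0 := by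
  unfold tst; simp

theorem D_limit (hn : 3 ≤ n) (e : Sph n) {μ : Distr n} (hμ : IsZonalDistribution (e : E n) μ)
    {m₁ m₂ : Measure (Sph n)} [IsFiniteMeasure m₁] [IsFiniteMeasure m₂]
    (hm : ∀ f : SmoothFun n, val μ f = (∫ v, f.1 v ∂m₁) - ∫ v, f.1 v ∂m₂)
    {T : Body n → Body n} (hT : Generates e μ T)
    {a b a' b' : ℝ} (ha : 0 < a) (hab : a < b) (hb : b < 1) (ha' : 0 < a') (hab' : a' < b') (hb' : b' < 1) :
    0 ≤ (∫ v, Glim n a b a' b' (inner ℝ (e : E n) (v : E n)) ∂m₁) -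
      ∫ v, Glim n a b a' b' (inner ℝ (e : E n) (v : E n)) ∂m₂ := by
  obtain ⟨ϕ₁, δ₁, C₁, hδ₁, hδ₁', s1, o1, z1, an1, bd1, lim1⟩ := VV.one_side hn ha hab hb
  obtain ⟨ϕ₂, δ₂, C₂, hδ₂, hδ₂', s2, o2, z2, an2, bd2, lim2⟩ := VV.one_side hn ha' hab' hb'
  set δ : ℝ := min δ₁ δ₂ with hδdef
  have hδ : 0 < δ := lt_min hδ₁ hδ₂
  have hδ1 : δ < 1 := lt_of_le_of_lt (min_le_left _ _) hδ₁'
  have o1' : ∀ k t, t ≤ δ → ϕ₁ k t = 1 := fun k t ht => o1 k t (ht.trans (min_le_left _ _))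
  have o2' : ∀ k t, t ≤ δ → ϕ₂ k t = 1 := fun k t ht => o2 k t (ht.trans (min_le_right _ _))
  have z1' : ∀ k t, 1 - δ ≤ t → ϕ₁ k t = 0 := fun k t ht => z1 k t (by
    have := min_le_left δ₁ δ₂; linarith)
  have z2' : ∀ k t, 1 - δ ≤ t → ϕ₂ k t = 0 := fun k t ht => z2 k t (by
    have := min_le_right δ₁ δ₂; linarith)
  have nn : ∀ (ϕ : ℝ → ℝ), Antitone ϕ → (∀ t, 1 - δ ≤ t → ϕ t = 0) → ∀ t, 0 ≤ ϕ t := fun ϕ han hz t => by
    rcases le_total t (1 - δ) with h | h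
    · rw [← hz (1 - δ) le_rfl]; exact han h
    · rw [hz t h]
  have le1 : ∀ (ϕ : ℝ → ℝ), Antitone ϕ → (∀ t, t ≤ δ → ϕ t = 1) → ∀ t, ϕ t ≤ 1 := fun ϕ han ho t => by
    rcases le_total t δ with h | h
    · rw [ho t h]
    · rw [← ho δ le_rfl]; exact han h
  set Φ : ℕ → ℝ → ℝ := fun k x => ϕ₁ k x * ϕ₂ k (-x) with hΦ
  have htest : ∀ k, 0 ≤ (∫ v, tst n (Φ k) (inner ℝ (e : E n) (v : E n)) ∂m₁) -
      ∫ v, tst n (Φ k) (inner ℝ (e : E n) (v : E n)) ∂m₂ := by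
    intro k
    refine D_test hn e hμ hm hT (ϕ := Φ k) ((s1 k).mul ((s2 k).comp contDiff_neg)) hδ hδ1 ?_ ?_ ?_ ?_ ?_
    · intro t ht
      simp only [hΦ]
      rcases le_abs.1 ht with h | h
      · rw [z1' k t h, zero_mul]
      · rw [z2' k (-t) h, mul_zero]
    · intro t ht
      rw [deriv_two_sided hδ (o1' k) (o2' k)]
      have h3 : ∀ (ϕ : ℝ → ℝ), Antitone ϕ → (∀ t, t ≤ δ → ϕ t = 1) → ContDiff ℝ ∞ ϕ → ∀ t, t ≤ δ → deriv ϕ t = 0 := by
        intro ϕ _ ho hs t ht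
        have h4 : HasDerivAt ϕ (deriv ϕ t) t := (hs.differentiable (by simp) t).hasDerivAt
        have h5 : HasDerivWithinAt ϕ 0 (Iic δ) t :=
          (hasDerivWithinAt_const t (Iic δ) (1 : ℝ)).congr (fun x hx => ho x hx) (ho t ht)
        exact (uniqueDiffOn_Iic δ t ht).eq_deriv _ h4.hasDerivWithinAt h5
      split_ifs with h0
      · exact h3 _ (an1 k) (o1' k) (s1 k) t ((le_abs_self t).trans ht)
      · rw [h3 _ (an2 k) (o2' k) (s2 k) (-t) ((neg_le_abs t).trans ht), neg_zero]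
    · intro t
      exact mul_nonneg (nn _ (an1 k) (z1' k) t) (nn _ (an2 k) (z2' k) (-t))
    · intro t ht
      rw [deriv_two_sided hδ (o1' k) (o2' k), if_pos ht.le]
      exact (an1 k).deriv_nonpos
    · intro t ht
      rw [deriv_two_sided hδ (o1' k) (o2' k), if_neg (not_le.2 ht)]
      linarith [(an2 k).deriv_nonpos (x := -t)]
  -- pointwise limit
  have hlim : ∀ v : Sph n, Tendsto (fun k => tst n (Φ k) (inner ℝ (e : E n) (v : E n))) atTop
      (𝓝 (Glim n a b a' b' (inner ℝ (e : E n) (v : E n)))) := by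
    intro v
    obtain ⟨hv1, hv2⟩ := inner_mem_Icc' e v
    set t : ℝ := inner ℝ (e : E n) (v : E n) with ht
    have hts : ∀ k, tst n (Φ k) t = if t = 0 then (n : ℝ) - 2 else if 0 < t then tst n (ϕ₁ k) t else tst n (ϕ₂ k) (-t) :=
      fun k => tst_two_sided hδ (o1' k) (o2' k) t
    simp_rw [hts]
    unfold Glim
    rcases lt_trichotomy t 0 with h | h | h
    · rw [if_neg h.ne, if_neg (not_lt.2 h.le)]
      simp only [if_neg h.ne, if_neg (not_lt.2 h.le)]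
      rcases eq_or_lt_of_le hv1 with h1 | h1
      · rw [← h1, neg_neg, JJ_one, mul_zero]
        simp only [tst_one]
        exact tendsto_const_nhds
      · exact lim2 (-t) ⟨by linarith, by linarith⟩
    · rw [if_pos h]
      simp only [if_pos h, mul_one]
      exact tendsto_const_nhds
    · rw [if_neg h.ne', if_pos h]
      simp only [if_neg h.ne', if_pos h]
      rcases eq_or_lt_of_le hv2 with h1 | h1
      · rw [h1, JJ_one, mul_zero]
        simp only [tst_one]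
        exact tendsto_const_nhds
      · exact lim1 t ⟨h, h1⟩
  -- bound
  have hn' : (3 : ℝ) ≤ n := by exact_mod_cast hn
  have hs0 : 0 < √(1 - (1 - δ) ^ 2) := Real.sqrt_pos.2 (by nlinarith)
  have hbone : ∀ (ϕ : ℝ → ℝ) (C : ℝ), (∀ t, 0 ≤ ϕ t) → (∀ t, ϕ t ≤ 1) → (∀ t, 1 - δ ≤ t → ϕ t = 0) →
      (∀ t ∈ Ioo (0 : ℝ) 1, |(√(1 - t ^ 2) / t) * deriv ϕ t| ≤ C) → ∀ t, 0 < t → t ≤ 1 →
      |tst n ϕ t| ≤ |C| + ((n : ℝ) - 2) * (√(1 - (1 - δ) ^ 2))⁻¹ := by
    intro ϕ C h0 h1 hz hb t ht0 ht1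
    rcases eq_or_lt_of_le ht1 with h | h
    · rw [h, tst_one, abs_zero]
      have := abs_nonneg C
      have := inv_nonneg.2 hs0.le
      have : 0 ≤ ((n : ℝ) - 2) * (√(1 - (1 - δ) ^ 2))⁻¹ := mul_nonneg (by linarith) this
      linarith
    · unfold tst
      refine (abs_add_le _ _).trans (add_le_add ?_ ?_)
      · rw [neg_mul, abs_neg]
        exact (hb t ⟨ht0, h⟩).trans (le_abs_self C)
      · rw [abs_mul, abs_of_nonneg (show (0 : ℝ) ≤ (n : ℝ) - 2 by linarith)]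
        refine mul_le_mul_of_nonneg_left ?_ (by linarith)
        rw [abs_of_nonneg (div_nonneg (h0 t) (Real.sqrt_nonneg _))]
        rcases le_total (1 - δ) t with h3 | h3
        · rw [hz t h3, zero_div]
          exact inv_nonneg.2 hs0.le
        · have h4 : √(1 - (1 - δ) ^ 2) ≤ √(1 - t ^ 2) := Real.sqrt_le_sqrt (by nlinarith)
          rw [div_eq_mul_inv]
          calc ϕ t * (√(1 - t ^ 2))⁻¹ ≤ 1 * (√(1 - (1 - δ) ^ 2))⁻¹ :=
                mul_le_mul (h1 t) (inv_anti₀ hs0 h4) (inv_nonneg.2 (Real.sqrt_nonneg _)) zero_le_one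
            _ = _ := one_mul _
  set B : ℝ := ((n : ℝ) - 2) + (|C₁| + |C₂| + ((n : ℝ) - 2) * (√(1 - (1 - δ) ^ 2))⁻¹) with hB
  have hB' : 0 ≤ ((n : ℝ) - 2) * (√(1 - (1 - δ) ^ 2))⁻¹ := mul_nonneg (by linarith) (inv_nonneg.2 hs0.le)
  have hbd : ∀ k (v : Sph n), |tst n (Φ k) (inner ℝ (e : E n) (v : E n))| ≤ B := by
    intro k v
    obtain ⟨hv1, hv2⟩ := inner_mem_Icc' e v
    set t : ℝ := inner ℝ (e : E n) (v : E n) with ht
    have hts : tst n (Φ k) t = if t = 0 then (n : ℝ) - 2 else if 0 < t then tst n (ϕ₁ k) t else tst n (ϕ₂ k) (-t) :=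
      tst_two_sided hδ (o1' k) (o2' k) t
    rw [hts]
    have c1 := abs_nonneg C₁
    have c2 := abs_nonneg C₂
    rcases lt_trichotomy t 0 with h | h | h
    · rw [if_neg h.ne, if_neg (not_lt.2 h.le)]
      have := hbone (ϕ₂ k) C₂ (nn _ (an2 k) (z2' k)) (le1 _ (an2 k) (o2' k)) (z2' k) (bd2 k) (-t) (by linarith) (by linarith)
      rw [hB]; linarith
    · rw [if_pos h, abs_of_nonneg (by linarith)]
      rw [hB]; linarith
    · rw [if_neg h.ne', if_pos h]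
      have := hbone (ϕ₁ k) C₁ (nn _ (an1 k) (z1' k)) (le1 _ (an1 k) (o1' k)) (z1' k) (bd1 k) t h hv2
      rw [hB]; linarith
  have hmeas : ∀ k, Measurable (fun v : Sph n => tst n (Φ k) (inner ℝ (e : E n) (v : E n))) := by
    intro k
    have hce : Measurable (fun v : Sph n => (inner ℝ (e : E n) (v : E n) : ℝ)) :=
      (by fun_prop : Continuous (fun v : Sph n => (inner ℝ (e : E n) (v : E n) : ℝ))).measurable
    have hsm : ContDiff ℝ ∞ (Φ k) := (s1 k).mul ((s2 k).comp contDiff_neg)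
    have h1 : Measurable (deriv (Φ k)) := measurable_deriv _
    have h2 : Measurable (Φ k) := hsm.continuous.measurable
    have h3 : Measurable (tst n (Φ k)) := by
      unfold tst
      fun_prop
    exact h3.comp hce
  have hconv : ∀ (m : Measure (Sph n)) [IsFiniteMeasure m],
      Tendsto (fun k => ∫ v, tst n (Φ k) (inner ℝ (e : E n) (v : E n)) ∂m) atTop
        (𝓝 (∫ v, Glim n a b a' b' (inner ℝ (e : E n) (v : E n)) ∂m)) := by
    intro m _
    refine tendsto_integral_of_dominated_convergence (fun _ => B) (fun k => (hmeas k).aestronglyMeasurable)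
      (integrable_const _) (fun k => Eventually.of_forall fun v => ?_) (Eventually.of_forall hlim)
    rw [Real.norm_eq_abs]
    exact hbd k v
  exact ge_of_tendsto ((hconv m₁).sub (hconv m₂)) (Eventually.of_forall htest)

end

end Pool.Agent.Helper115_ME
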