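import Mathlib
import Pool.Agent.Helper115_ME.VV.DLimit

/-!
# The explicit necessary condition
-/

set_option autoImplicit false

namespace Pool.Agent.Helper115_ME

open MeasureTheory Metric Set Filter Topology
open scoped ContDiff

noncomputable section

variable {n : ℕ}

/-- `∫_{0 < ⟨e,v⟩ ≤ b} (1-⟨e,v⟩²)^(-1/2) dm(v)` -/
def Phi (e : E n) (m : Measure (Sph n)) (b : ℝ) : ℝ :=
  ∫ v in {v : Sph n | 0 < (inner ℝ e (v : E n) : ℝ) ∧ (inner ℝ e (v : E n) : ℝ) ≤ b},
    (√(1 - (inner ℝ e (v : E n) : ℝ) ^ 2))⁻¹ ∂m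

theorem measurable_height (e : E n) : Measurable (fun v : Sph n => (inner ℝ e (v : E n) : ℝ)) :=
  (by fun_prop : Continuous (fun v : Sph n => (inner ℝ e (v : E n) : ℝ))).measurable

theorem measurableSet_band (e : E n) (b : ℝ) :
    MeasurableSet {v : Sph n | 0 < (inner ℝ e (v : E n) : ℝ) ∧ (inner ℝ e (v : E n) : ℝ) ≤ b} :=
  (measurableSet_lt measurable_const (measurable_height e)).inter
    (measurableSet_le (measurable_height e) measurable_const)

/-- the integrand of `Phi` -/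
def bnd (e : E n) (b : ℝ) (v : Sph n) : ℝ :=
  {v : Sph n | 0 < (inner ℝ e (v : E n) : ℝ) ∧ (inner ℝ e (v : E n) : ℝ) ≤ b}.indicator
    (fun v => (√(1 - (inner ℝ e (v : E n) : ℝ) ^ 2))⁻¹) v

theorem Phi_eq (e : E n) (m : Measure (Sph n)) (b : ℝ) : Phi e m b = ∫ v, bnd e b v ∂m := by
  unfold Phi bnd
  rw [integral_indicator (measurableSet_band e b)]

theorem integrable_bnd (e : E n) (m : Measure (Sph n)) [IsFiniteMeasure m] {b : ℝ} (hb0 : 0 < b) (hb : b < 1) :
    Integrable (bnd e b) m := by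
  have hs : 0 < √(1 - b ^ 2) := Real.sqrt_pos.2 (by nlinarith)
  refine (integrable_const ((√(1 - b ^ 2))⁻¹)).mono' ?_ ?_
  · have h1 : Measurable (fun v : Sph n => (√(1 - (inner ℝ e (v : E n) : ℝ) ^ 2))⁻¹) := by
      have := measurable_height e
      fun_prop
    exact (h1.indicator (measurableSet_band e b)).aestronglyMeasurable
  · refine Eventually.of_forall fun v => ?_
    unfold bnd
    by_cases hv : v ∈ {v : Sph n | 0 < (inner ℝ e (v : E n) : ℝ) ∧ (inner ℝ e (v : E n) : ℝ) ≤ b}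
    · rw [indicator_of_mem hv, Real.norm_of_nonneg (inv_nonneg.2 (Real.sqrt_nonneg _))]
      refine inv_anti₀ hs (Real.sqrt_le_sqrt ?_)
      nlinarith [hv.1, hv.2]
    · rw [indicator_of_notMem hv, norm_zero]
      exact inv_nonneg.2 hs.le

theorem Glim_eq (e : Sph n) (a b a' b' : ℝ) (v : Sph n) :
    Glim n a b a' b' (inner ℝ (e : E n) (v : E n)) = ((n : ℝ) - 2) *
      ({v : Sph n | (inner ℝ (e : E n) (v : E n) : ℝ) = 0}.indicator (fun _ => (1 : ℝ)) v +
        (VV.psi n b * bnd (e : E n) b v - VV.psi n a * bnd (e : E n) a v) / (VV.psi n b - VV.psi n a) +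
        (VV.psi n b' * bnd (-(e : E n)) b' v - VV.psi n a' * bnd (-(e : E n)) a' v) / (VV.psi n b' - VV.psi n a')) := by
  classical
  unfold Glim bnd VV.JJ
  congr 1
  simp only [indicator_apply, mem_setOf_eq, inner_neg_left]
  set t : ℝ := inner ℝ (e : E n) (v : E n) with ht
  rcases lt_trichotomy t 0 with h | h | h
  · have h1 : ¬ (0 < t) := not_lt.2 h.le
    have h2 : 0 < -t := by linarith
    simp only [h.ne, h1, h2, if_false, false_and, true_and, neg_sq]
    split_ifs <;> ring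
  · have h1 : ¬ (0 < t) := by rw [h]; exact lt_irrefl _
    have h2 : ¬ (0 < -t) := by rw [h]; simp
    simp only [h, h1, h2, if_false, if_true, false_and]
    simp
  · have h1 : ¬ (0 < -t) := by linarith
    simp only [h.ne', h, h1, if_false, if_true, false_and, true_and]
    split_ifs <;> ring

theorem integral_Glim (e : Sph n) {a b a' b' : ℝ} (ha : 0 < a) (hab : a < b) (hb : b < 1) (ha' : 0 < a')
    (hab' : a' < b') (hb' : b' < 1) (m : Measure (Sph n)) [IsFiniteMeasure m] :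
    ∫ v, Glim n a b a' b' (inner ℝ (e : E n) (v : E n)) ∂m = ((n : ℝ) - 2) *
      (m.real {v : Sph n | (inner ℝ (e : E n) (v : E n) : ℝ) = 0} +
        (VV.psi n b * Phi (e : E n) m b - VV.psi n a * Phi (e : E n) m a) / (VV.psi n b - VV.psi n a) +
        (VV.psi n b' * Phi (-(e : E n)) m b' - VV.psi n a' * Phi (-(e : E n)) m a') / (VV.psi n b' - VV.psi n a')) := by
  have hms : MeasurableSet {v : Sph n | (inner ℝ (e : E n) (v : E n) : ℝ) = 0} :=
    measurableSet_eq_fun (measurable_height _) measurable_const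
  simp_rw [Glim_eq]
  have i0 : Integrable ({v : Sph n | (inner ℝ (e : E n) (v : E n) : ℝ) = 0}.indicator (fun _ => (1 : ℝ))) m :=
    (integrable_const 1).indicator hms
  have i1 : Integrable (fun v => (VV.psi n b * bnd (e : E n) b v - VV.psi n a * bnd (e : E n) a v) /
      (VV.psi n b - VV.psi n a)) m :=
    (((integrable_bnd _ m (ha.trans hab) hb).const_mul _).sub ((integrable_bnd _ m ha (hab.trans hb)).const_mul _)).div_const _
  have i2 : Integrable (fun v => (VV.psi n b' * bnd (-(e : E n)) b' v - VV.psi n a' * bnd (-(e : E n)) a' v) /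
      (VV.psi n b' - VV.psi n a')) m :=
    (((integrable_bnd _ m (ha'.trans hab') hb').const_mul _).sub
      ((integrable_bnd _ m ha' (hab'.trans hb')).const_mul _)).div_const _
  have i01 : Integrable (fun v => {v : Sph n | (inner ℝ (e : E n) (v : E n) : ℝ) = 0}.indicator (fun _ => (1 : ℝ)) v +
      (VV.psi n b * bnd (e : E n) b v - VV.psi n a * bnd (e : E n) a v) / (VV.psi n b - VV.psi n a)) m := i0.add i1
  rw [integral_const_mul, integral_add i01 i2, integral_add i0 i1, integral_indicator_const _ hms,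
    integral_div, integral_div, integral_sub ((integrable_bnd _ m (ha.trans hab) hb).const_mul _)
      ((integrable_bnd _ m ha (hab.trans hb)).const_mul _),
    integral_sub ((integrable_bnd _ m (ha'.trans hab') hb').const_mul _)
      ((integrable_bnd _ m ha' (hab'.trans hb')).const_mul _),
    integral_const_mul, integral_const_mul, integral_const_mul, integral_const_mul,
    ← Phi_eq, ← Phi_eq, ← Phi_eq, ← Phi_eq]
  simp

theorem psi_lt (hn : 3 ≤ n) {a b : ℝ} (ha : 0 < a) (hab : a < b) (hb : b < 1) : VV.psi n a < VV.psi n b := by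
  unfold VV.psi
  have h1 : 0 < √(1 - b ^ 2) := Real.sqrt_pos.2 (by nlinarith)
  have h2 : √(1 - b ^ 2) < √(1 - a ^ 2) := Real.sqrt_lt_sqrt (by nlinarith) (by nlinarith)
  exact inv_strictAnti₀ (pow_pos h1 _) (pow_lt_pow_left₀ h2 h1.le (by omega))

/-- a duality for two families of numbers -/
theorem two_families {ι ι' : Type*} [Nonempty ι] [Nonempty ι'] (M : ℝ) (f : ι → ℝ) (g : ι' → ℝ)
    (h : ∀ i j, 0 ≤ M + f i + g j) : ∃ c₁ c₂ : ℝ, c₁ + c₂ = M ∧ (∀ i, 0 ≤ c₁ + f i) ∧ ∀ j, 0 ≤ c₂ + g j := by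
  have j₀ : ι' := Classical.arbitrary ι'
  have hbdd : BddAbove (range fun i => -f i) := ⟨M + g j₀, by rintro _ ⟨i, rfl⟩; linarith [h i j₀]⟩
  refine ⟨⨆ i, -f i, M - ⨆ i, -f i, by ring, fun i => ?_, fun j => ?_⟩
  · have : -f i ≤ ⨆ i, -f i := le_ciSup hbdd i
    linarith
  · have : (⨆ i, -f i) ≤ M + g j := ciSup_le fun i => by linarith [h i j]
    linarith

/-- the explicit necessary condition -/
theorem necessary_condition (hn : 3 ≤ n) (e : Sph n) {μ : Distr n} (hμ : IsZonalDistribution (e : E n) μ)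
    {m₁ m₂ : Measure (Sph n)} [IsFiniteMeasure m₁] [IsFiniteMeasure m₂]
    (hm : ∀ f : SmoothFun n, val μ f = (∫ v, f.1 v ∂m₁) - ∫ v, f.1 v ∂m₂)
    {T : Body n → Body n} (hT : Generates e μ T) :
    ∃ c₁ c₂ : ℝ, c₁ + c₂ = m₁.real {v : Sph n | (inner ℝ (e : E n) (v : E n) : ℝ) = 0} -
        m₂.real {v : Sph n | (inner ℝ (e : E n) (v : E n) : ℝ) = 0} ∧
      MonotoneOn (fun b : ℝ => VV.psi n b * (c₁ + (Phi (e : E n) m₁ b - Phi (e : E n) m₂ b))) (Ioo 0 1) ∧
      MonotoneOn (fun b : ℝ => VV.psi n b * (c₂ + (Phi (-(e : E n)) m₁ b - Phi (-(e : E n)) m₂ b))) (Ioo 0 1) := by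
  let ι := {p : ℝ × ℝ // 0 < p.1 ∧ p.1 < p.2 ∧ p.2 < 1}
  have : Nonempty ι := ⟨⟨(1 / 3, 1 / 2), by norm_num⟩⟩
  set F : E n → ι → ℝ := fun x p => (VV.psi n p.1.2 * (Phi x m₁ p.1.2 - Phi x m₂ p.1.2) -
    VV.psi n p.1.1 * (Phi x m₁ p.1.1 - Phi x m₂ p.1.1)) / (VV.psi n p.1.2 - VV.psi n p.1.1) with hF
  have hn' : (3 : ℝ) ≤ n := by exact_mod_cast hn
  have key : ∀ p q : ι, 0 ≤ (m₁.real {v : Sph n | (inner ℝ (e : E n) (v : E n) : ℝ) = 0} -
        m₂.real {v : Sph n | (inner ℝ (e : E n) (v : E n) : ℝ) = 0}) + F (e : E n) p + F (-(e : E n)) q := by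
    rintro ⟨⟨a, b⟩, ha, hab, hb⟩ ⟨⟨a', b'⟩, ha', hab', hb'⟩
    have h1 := D_limit hn e hμ hm hT ha hab hb ha' hab' hb'
    rw [integral_Glim e ha hab hb ha' hab' hb' m₁, integral_Glim e ha hab hb ha' hab' hb' m₂, ← mul_sub] at h1
    have h2 := nonneg_of_mul_nonneg_right h1 (by linarith : (0 : ℝ) < (n : ℝ) - 2)
    refine h2.trans (le_of_eq ?_)
    simp only [hF]
    ring
  obtain ⟨c₁, c₂, hc, h1, h2⟩ := two_families _ _ _ key
  have mono : ∀ (c : ℝ) (x : E n), (∀ p : ι, 0 ≤ c + F x p) →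
      MonotoneOn (fun b : ℝ => VV.psi n b * (c + (Phi x m₁ b - Phi x m₂ b))) (Ioo 0 1) := by
    intro c x hcx a ha b hb hab
    rcases eq_or_lt_of_le hab with h | h
    · rw [h]
    · have h3 := hcx ⟨(a, b), ha.1, h, hb.2⟩
      have h4 := psi_lt hn ha.1 h hb.2
      simp only [hF] at h3
      have h5 : 0 < VV.psi n b - VV.psi n a := by linarith
      have h6 := mul_nonneg h5.le h3
      rw [mul_add, mul_div_cancel₀ _ h5.ne'] at h6
      simp only
      nlinarith
  exact ⟨c₁, c₂, hc, mono c₁ _ h1, mono c₂ _ h2⟩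

end

end Pool.Agent.Helper115_ME
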