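import Mathlib
import Pool.Agent.Helper115_ME.CC.C02
set_option autoImplicit false
/-!
The distribution of the height on the unit sphere.
-/
namespace Pool.Agent.Helper115_ME.VV

open MeasureTheory Metric Set

abbrev E (n : ℕ) := EuclideanSpace ℝ (Fin n)
abbrev Sph (n : ℕ) := Metric.sphere (0 : E n) 1

open Pool.Agent.Helper115_ME

/-- The map `a ↦ a / √(s² + a²)`. -/
noncomputable def gm (s a : ℝ) : ℝ := a / √(s ^ 2 + a ^ 2)

lemma gm_deriv {s : ℝ} (hs : 0 < s) (a : ℝ) :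
    HasDerivAt (gm s) (s ^ 2 / √(s ^ 2 + a ^ 2) ^ 3) a := by
  have hpos : 0 < s ^ 2 + a ^ 2 := by positivity
  have h1 : HasDerivAt (fun a : ℝ => s ^ 2 + a ^ 2) (2 * a) a := by
    simpa using (hasDerivAt_pow 2 a).const_add (s ^ 2)
  have h2 := h1.sqrt hpos.ne'
  have h3 := (hasDerivAt_id a).div h2 (Real.sqrt_pos.2 hpos).ne'
  refine h3.congr_deriv ?_
  have hq : √(s ^ 2 + a ^ 2) ^ 2 = s ^ 2 + a ^ 2 := Real.sq_sqrt hpos.le
  have hq0 : √(s ^ 2 + a ^ 2) ≠ 0 := (Real.sqrt_pos.2 hpos).ne'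
  simp only [id]
  field_simp
  nlinarith [hq]

lemma gm_sq {s : ℝ} (hs : 0 < s) (a : ℝ) : 1 - gm s a ^ 2 = s ^ 2 / √(s ^ 2 + a ^ 2) ^ 2 := by
  have hpos : 0 < s ^ 2 + a ^ 2 := by positivity
  have hq : √(s ^ 2 + a ^ 2) ^ 2 = s ^ 2 + a ^ 2 := Real.sq_sqrt hpos.le
  unfold gm
  rw [div_pow, hq]
  field_simp
  ring

lemma gm_inj {s : ℝ} (hs : 0 < s) : Function.Injective (gm s) := by
  have : StrictMono (gm s) := by
    refine strictMono_of_deriv_pos ?_
    intro a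
    rw [(gm_deriv hs a).deriv]
    have hpos : 0 < s ^ 2 + a ^ 2 := by positivity
    have : 0 < √(s ^ 2 + a ^ 2) := Real.sqrt_pos.2 hpos
    positivity
  exact this.injective

lemma gm_range {s : ℝ} (hs : 0 < s) : gm s '' univ = Ioo (-1 : ℝ) 1 := by
  ext t
  constructor
  · rintro ⟨a, -, rfl⟩
    have h := gm_sq hs a
    have hpos : 0 < s ^ 2 + a ^ 2 := by positivity
    have h0 : 0 < √(s ^ 2 + a ^ 2) := Real.sqrt_pos.2 hpos
    have h1 : 0 < 1 - gm s a ^ 2 := by rw [h]; positivity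
    have h2 : gm s a ^ 2 < 1 := by linarith
    exact abs_lt.1 ((sq_lt_one_iff_abs_lt_one _).1 h2)
  · rintro ⟨h1, h2⟩
    have h3 : 0 < 1 - t ^ 2 := by nlinarith
    have h4 : 0 < √(1 - t ^ 2) := Real.sqrt_pos.2 h3
    have h5 : √(1 - t ^ 2) ^ 2 = 1 - t ^ 2 := Real.sq_sqrt h3.le
    refine ⟨t * s / √(1 - t ^ 2), trivial, ?_⟩
    unfold gm
    have h6 : s ^ 2 + (t * s / √(1 - t ^ 2)) ^ 2 = (s / √(1 - t ^ 2)) ^ 2 := by
      rw [div_pow, div_pow, h5]
      field_simp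
      ring
    rw [h6, Real.sqrt_sq (by positivity)]
    field_simp

/-- The density of the height. -/
noncomputable def dens (n : ℕ) (t : ℝ) : ENNReal :=
  ENNReal.ofReal ((1 - t ^ 2) ^ (((n : ℝ) - 3) / 2))

lemma dens_meas (n : ℕ) : Measurable (dens n) := by
  unfold dens
  refine Measurable.ennreal_ofReal ?_
  exact (measurable_const.sub (measurable_id.pow_const 2)).pow_const _

/-- Change of variables for fixed `b`. -/
lemma inner_int {n : ℕ} (hn : 3 ≤ n) {s : ℝ} (hs : 0 < s) {B : Set ℝ} (hB : MeasurableSet B) :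
    ∫⁻ a : ℝ, B.indicator 1 (gm s a) * ENNReal.ofReal ((√(s ^ 2 + a ^ 2) ^ n)⁻¹) =
      ENNReal.ofReal ((s ^ (n - 1))⁻¹) * ∫⁻ t in Ioo (-1 : ℝ) 1, B.indicator 1 t * dens n t := by
  have h := lintegral_image_eq_lintegral_abs_deriv_mul (s := univ) (f := gm s)
    (f' := fun a => s ^ 2 / √(s ^ 2 + a ^ 2) ^ 3) MeasurableSet.univ
    (fun a _ => (gm_deriv hs a).hasDerivWithinAt) (gm_inj hs).injOn
    (fun t => B.indicator 1 t * dens n t)
  rw [gm_range hs, setLIntegral_univ] at h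
  rw [h, ← lintegral_const_mul']
  · refine lintegral_congr ?_
    intro a
    have hpos : 0 < s ^ 2 + a ^ 2 := by positivity
    have h0 : 0 < √(s ^ 2 + a ^ 2) := Real.sqrt_pos.2 hpos
    set l := √(s ^ 2 + a ^ 2) with hl
    have hd : dens n (gm s a) = ENNReal.ofReal ((s / l) ^ (n - 3)) := by
      unfold dens
      rw [gm_sq hs a, ← hl, ← div_pow]
      congr 1
      rw [← Real.rpow_natCast (s / l) 2, ← Real.rpow_mul (by positivity),
        ← Real.rpow_natCast (s / l) (n - 3)]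
      congr 1
      rw [Nat.cast_sub hn]
      push_cast
      ring
    rw [hd, abs_of_pos (by positivity)]
    have key : (l ^ n)⁻¹ = (s ^ (n - 1))⁻¹ * ((s ^ 2 / l ^ 3) * (s / l) ^ (n - 3)) := by
      obtain ⟨k, rfl⟩ : ∃ k, n = k + 3 := ⟨n - 3, by omega⟩
      have e1 : k + 3 - 1 = k + 2 := by omega
      have e2 : k + 3 - 3 = k := by omega
      rw [e1, e2, div_pow]
      field_simp
      ring
    rw [key, ENNReal.ofReal_mul (by positivity), ENNReal.ofReal_mul (by positivity)]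
    ring
  · exact ENNReal.ofReal_ne_top

/-- The constant. -/
noncomputable def WW (n : ℕ) : ENNReal := ∫⁻ b : ℝ, ENNReal.ofReal ((√(1 + b ^ 2) ^ (n - 1))⁻¹)

lemma WW_meas (n : ℕ) : Measurable fun b : ℝ => ENNReal.ofReal ((√(1 + b ^ 2) ^ (n - 1))⁻¹) := by
  fun_prop

lemma WW_ne_top {n : ℕ} (hn : 3 ≤ n) : WW n ≠ ⊤ := by
  have h1 : WW n ≤ ∫⁻ b : ℝ, ENNReal.ofReal ((1 + b ^ 2)⁻¹) := by
    refine lintegral_mono ?_
    intro b
    refine ENNReal.ofReal_le_ofReal ?_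
    refine inv_anti₀ (by positivity) ?_
    have h2 : √(1 + b ^ 2) ^ 2 = 1 + b ^ 2 := Real.sq_sqrt (by positivity)
    have h3 : 1 ≤ √(1 + b ^ 2) := by
      rw [Real.one_le_sqrt]
      nlinarith [sq_nonneg b]
    calc 1 + b ^ 2 = √(1 + b ^ 2) ^ 2 := h2.symm
      _ ≤ √(1 + b ^ 2) ^ (n - 1) := pow_le_pow_right₀ h3 (by omega)
  refine ne_top_of_le_ne_top ?_ h1
  have h4 := integrable_inv_one_add_sq
  rw [← ofReal_integral_eq_lintegral_ofReal h4]
  · exact ENNReal.ofReal_ne_top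
  · exact Filter.Eventually.of_forall fun b => by positivity

lemma WW_ne_zero (n : ℕ) : WW n ≠ 0 := by
  unfold WW
  rw [Ne, lintegral_eq_zero_iff (WW_meas n)]
  intro h
  have h1 : (fun b : ℝ => ENNReal.ofReal ((√(1 + b ^ 2) ^ (n - 1))⁻¹)) =ᵐ[volume] 0 := h
  have h2 : ∀ᵐ _b : ℝ, False := by
    filter_upwards [h1] with b hb
    have : 0 < (√(1 + b ^ 2) ^ (n - 1))⁻¹ := by
      have : 0 < √(1 + b ^ 2) := Real.sqrt_pos.2 (by positivity)
      positivity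
    simp only [Pi.zero_apply, ENNReal.ofReal_eq_zero] at hb
    linarith
  rw [Filter.eventually_false_iff_eq_bot, ae_eq_bot] at h2
  exact (NeZero.ne (volume : Measure ℝ)) h2

theorem height_distribution {n : ℕ} (hn : 3 ≤ n) : ∃ ω : ℝ, 0 < ω ∧ ∀ e : E n, ‖e‖ = 1 →
    ((volume : Measure (E n)).toSphere).map (fun v : Sph n => (inner ℝ e (v : E n) : ℝ)) =
      (volume.restrict (Ioo (-1 : ℝ) 1)).withDensity
        (fun t => ENNReal.ofReal (ω * (1 - t ^ 2) ^ (((n : ℝ) - 3) / 2))) := by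
  obtain ⟨m, rfl⟩ : ∃ m, n = m + 2 := ⟨n - 2, by omega⟩
  have hm : 1 ≤ m := by omega
  have hc0 : (((m + 2 : ℕ) : ENNReal) * C02.cc m * WW (m + 2)) ≠ 0 :=
    mul_ne_zero (mul_ne_zero (by exact_mod_cast (by omega : m + 2 ≠ 0)) (C02.cc_ne_zero m hm))
      (WW_ne_zero _)
  have hct : (((m + 2 : ℕ) : ENNReal) * C02.cc m * WW (m + 2)) ≠ ⊤ :=
    ENNReal.mul_ne_top (ENNReal.mul_ne_top (ENNReal.natCast_ne_top _) (C02.cc_ne_top m))
      (WW_ne_top hn)
  refine ⟨(((m + 2 : ℕ) : ENNReal) * C02.cc m * WW (m + 2)).toReal,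
    ENNReal.toReal_pos hc0 hct, ?_⟩
  intro e he
  -- an orthonormal pair
  obtain ⟨w, hw⟩ : ∃ w : E (m + 2), Orthonormal ℝ ![e, w] := by
    have hdim : 1 < Module.finrank ℝ (E (m + 2)) := by
      simp [E]
    obtain ⟨w, hw0, hw1⟩ : ∃ w : E (m + 2), w ≠ 0 ∧ inner ℝ e w = 0 := by
      have hne : (ℝ ∙ e)ᗮ ≠ ⊥ := by
        intro hbot
        have h1 := Submodule.finrank_add_finrank_orthogonal (ℝ ∙ e)
        rw [hbot, finrank_bot, add_zero] at h1
        have he0 : e ≠ 0 := by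
          intro h0
          rw [h0, norm_zero] at he
          exact zero_ne_one he
        have h2 : Module.finrank ℝ (ℝ ∙ e) = 1 := finrank_span_singleton he0
        omega
      obtain ⟨w, hwmem, hw0⟩ := Submodule.exists_mem_ne_zero_of_ne_bot hne
      exact ⟨w, hw0, Submodule.mem_orthogonal_singleton_iff_inner_right.1 hwmem⟩
    refine ⟨‖w‖⁻¹ • w, ?_⟩
    have hwn : ‖w‖ ≠ 0 := norm_ne_zero_iff.2 hw0
    rw [orthonormal_iff_ite]
    intro i j
    fin_cases i <;> fin_cases j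
    · simp [he]
    · simp [inner_smul_right, hw1]
    · simp [inner_smul_left, real_inner_comm, hw1]
    · simp [norm_smul, hwn]
  have hmeas : Measurable (fun v : Sph (m + 2) => (inner ℝ e (v : E (m + 2)) : ℝ)) := by
    fun_prop
  ext B hB
  rw [Measure.map_apply hmeas hB]
  have hpre : (fun v : Sph (m + 2) => (inner ℝ e (v : E (m + 2)) : ℝ)) ⁻¹' B =
      C02.TT e w ⁻¹' (B ×ˢ univ) := by
    ext v
    simp [C02.TT]
  rw [hpre, C02.sphere_meas m hm e w hw (hB.prod MeasurableSet.univ)]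
  have hω : ENNReal.ofReal (((m + 2 : ℕ) : ENNReal) * C02.cc m * WW (m + 2)).toReal =
      ((m + 2 : ℕ) : ENNReal) * C02.cc m * WW (m + 2) := ENNReal.ofReal_toReal hct
  have hrhs : ((volume.restrict (Ioo (-1 : ℝ) 1)).withDensity
        (fun t => ENNReal.ofReal ((((m + 2 : ℕ) : ENNReal) * C02.cc m * WW (m + 2)).toReal *
          (1 - t ^ 2) ^ ((((m + 2 : ℕ) : ℝ) - 3) / 2)))) B =
      ((m + 2 : ℕ) : ENNReal) * C02.cc m * WW (m + 2) *
        ∫⁻ t in Ioo (-1 : ℝ) 1, B.indicator 1 t * dens (m + 2) t := by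
    rw [withDensity_apply _ hB, ← lintegral_indicator hB, ← lintegral_const_mul' _ _ hct]
    refine lintegral_congr ?_
    intro t
    by_cases ht : t ∈ B
    · rw [indicator_of_mem ht, indicator_of_mem ht, ENNReal.ofReal_mul ENNReal.toReal_nonneg, hω]
      simp [dens]
    · rw [indicator_of_notMem ht, indicator_of_notMem ht]
      simp
  rw [hrhs, mul_assoc (((m + 2 : ℕ) : ENNReal) * C02.cc m)]
  congr 1
  -- the double integral
  unfold C02.nuu
  have h1 : ∀ p : ℝ × ℝ, (C02.Phi ⁻¹' (B ×ˢ univ)).indicator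
      (fun p => ENNReal.ofReal ((C02.lam p ^ (m + 2))⁻¹)) p =
      B.indicator 1 (gm (√(1 + p.2 ^ 2)) p.1) *
        ENNReal.ofReal ((√(√(1 + p.2 ^ 2) ^ 2 + p.1 ^ 2) ^ (m + 2))⁻¹) := by
    intro p
    have h2 : √(1 + p.2 ^ 2) ^ 2 + p.1 ^ 2 = 1 + p.1 ^ 2 + p.2 ^ 2 := by
      rw [Real.sq_sqrt (by positivity)]
      ring
    have h3 : gm (√(1 + p.2 ^ 2)) p.1 = (C02.Phi p).1 := by
      unfold gm C02.Phi C02.lam
      rw [h2]
    rw [h3, h2]
    by_cases hp : (C02.Phi p).1 ∈ B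
    · have : p ∈ C02.Phi ⁻¹' (B ×ˢ univ) := ⟨hp, trivial⟩
      rw [indicator_of_mem this, indicator_of_mem hp]
      simp [C02.lam]
    · have : p ∉ C02.Phi ⁻¹' (B ×ˢ univ) := fun h => hp h.1
      rw [indicator_of_notMem this, indicator_of_notMem hp]
      simp
  simp only [h1]
  have hmeas2 : Measurable fun p : ℝ × ℝ => B.indicator 1 (gm (√(1 + p.2 ^ 2)) p.1) *
        ENNReal.ofReal ((√(√(1 + p.2 ^ 2) ^ 2 + p.1 ^ 2) ^ (m + 2))⁻¹) := by
    refine Measurable.mul ?_ (by fun_prop)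
    have : Measurable fun p : ℝ × ℝ => gm (√(1 + p.2 ^ 2)) p.1 := by
      unfold gm
      fun_prop
    exact (measurable_one.indicator hB).comp this
  rw [Measure.volume_eq_prod, lintegral_prod_symm _ hmeas2.aemeasurable]
  have h4 : ∀ b : ℝ, ∫⁻ a : ℝ, B.indicator 1 (gm (√(1 + b ^ 2)) a) *
        ENNReal.ofReal ((√(√(1 + b ^ 2) ^ 2 + a ^ 2) ^ (m + 2))⁻¹) =
      ENNReal.ofReal ((√(1 + b ^ 2) ^ (m + 2 - 1))⁻¹) *
        ∫⁻ t in Ioo (-1 : ℝ) 1, B.indicator 1 t * dens (m + 2) t := fun b =>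
    inner_int hn (Real.sqrt_pos.2 (by positivity)) hB
  simp only [h4]
  rw [lintegral_mul_const _ (WW_meas (m + 2))]
  rfl

end Pool.Agent.Helper115_ME.VV
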