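import Mathlib
import Pool.Agent.Helper115_ME.VV.Absorb
import Pool.Agent.Helper115_ME.VV.V10
import Pool.Agent.Helper115_ME.VV.DFinal

/-!
# Integrals of zonal functions; band integrals of densities
-/

set_option autoImplicit false

namespace Pool.Agent.Helper115_ME

open MeasureTheory Metric Set Filter Topology


noncomputable section

variable {n : ℕ}

theorem exists_height (hn : 3 ≤ n) : ∃ om : ℝ, 0 < om ∧ ∀ e : E n, ‖e‖ = 1 → ∀ F : ℝ → ℝ, Measurable F →
    (Integrable (fun v : Sph n => F (inner ℝ e (v : E n))) (sig n) ↔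
      IntegrableOn (fun t => F t * (1 - t ^ 2) ^ (((n : ℝ) - 3) / 2)) (Ioo (-1) 1)) ∧
    ∫ v : Sph n, F (inner ℝ e (v : E n)) ∂(sig n) =
      om * ∫ t in Ioo (-1 : ℝ) 1, F t * (1 - t ^ 2) ^ (((n : ℝ) - 3) / 2) := by
  obtain ⟨om, hom, h⟩ := VV.height_distribution hn
  refine ⟨om, hom, fun e he F hF => ?_⟩
  have hmap := h e he
  have hme := measurable_height (n := n) e
  have hd : Measurable (fun t : ℝ => (om * (1 - t ^ 2) ^ (((n : ℝ) - 3) / 2)).toNNReal) := by fun_prop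
  have hnn : ∀ t ∈ Ioo (-1 : ℝ) 1, 0 ≤ om * (1 - t ^ 2) ^ (((n : ℝ) - 3) / 2) := fun t ht =>
    mul_nonneg hom.le (Real.rpow_nonneg (by nlinarith [ht.1, ht.2]) _)
  have e1 : (fun v : Sph n => F (inner ℝ e (v : E n))) = F ∘ (fun v : Sph n => (inner ℝ e (v : E n) : ℝ)) := rfl
  constructor
  · rw [e1, ← integrable_map_measure hF.aestronglyMeasurable hme.aemeasurable]
    have e2 : Measure.map (fun v : Sph n => (inner ℝ e (v : E n) : ℝ)) (sig n) =
      (volume.restrict (Ioo (-1 : ℝ) 1)).withDensity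
        (fun t => ((om * (1 - t ^ 2) ^ (((n : ℝ) - 3) / 2)).toNNReal : ENNReal)) := hmap
    rw [e2, integrable_withDensity_iff_integrable_smul hd]
    have e3 : ∀ᵐ t ∂(volume.restrict (Ioo (-1 : ℝ) 1)), (om * (1 - t ^ 2) ^ (((n : ℝ) - 3) / 2)).toNNReal • F t =
        om * (F t * (1 - t ^ 2) ^ (((n : ℝ) - 3) / 2)) := by
      filter_upwards [ae_restrict_mem measurableSet_Ioo] with t ht
      rw [NNReal.smul_def, Real.coe_toNNReal _ (hnn t ht), smul_eq_mul]; ring
    rw [integrable_congr e3]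
    constructor
    · intro hi
      have := hi.const_mul om⁻¹
      refine this.congr (Eventually.of_forall fun t => ?_)
      show om⁻¹ * (om * (F t * (1 - t ^ 2) ^ (((n : ℝ) - 3) / 2))) = _
      rw [← mul_assoc, inv_mul_cancel₀ hom.ne', one_mul]
    · intro hi
      exact hi.const_mul om
  · have e4 : ∫ v : Sph n, F (inner ℝ e (v : E n)) ∂(sig n) =
        ∫ t, F t ∂(Measure.map (fun v : Sph n => (inner ℝ e (v : E n) : ℝ)) (sig n)) :=
      (integral_map hme.aemeasurable hF.aestronglyMeasurable).symm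
    have e2 : Measure.map (fun v : Sph n => (inner ℝ e (v : E n) : ℝ)) (sig n) =
      (volume.restrict (Ioo (-1 : ℝ) 1)).withDensity
        (fun t => ((om * (1 - t ^ 2) ^ (((n : ℝ) - 3) / 2)).toNNReal : ENNReal)) := hmap
    rw [e4, e2, integral_withDensity_eq_integral_smul hd, ← integral_const_mul]
    refine setIntegral_congr_fun measurableSet_Ioo fun t ht => ?_
    show (om * (1 - t ^ 2) ^ (((n : ℝ) - 3) / 2)).toNNReal • F t = _
    rw [NNReal.smul_def, Real.coe_toNNReal _ (hnn t ht), smul_eq_mul]; ring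

/-- the two positive measures of a density -/
def posM (G : Sph n → ℝ) : Measure (Sph n) := (sig n).withDensity (fun v => ENNReal.ofReal (G v))

theorem integral_posM {G : Sph n → ℝ} (hG : Measurable G) (F : Sph n → ℝ) :
    ∫ v, F v ∂(posM G) = ∫ v, F v * max (G v) 0 ∂(sig n) := by
  have hd : Measurable (fun v => (G v).toNNReal) := hG.real_toNNReal
  have e1 : posM G = (sig n).withDensity (fun v => ((G v).toNNReal : ENNReal)) := rfl
  rw [e1, integral_withDensity_eq_integral_smul hd]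
  refine integral_congr_ae (Eventually.of_forall fun v => ?_)
  show (G v).toNNReal • F v = F v * max (G v) 0
  rw [NNReal.smul_def, Real.coe_toNNReal', smul_eq_mul, mul_comm]

theorem isFiniteMeasure_posM {G : Sph n → ℝ} (hG : Integrable G (sig n)) : IsFiniteMeasure (posM G) :=
  isFiniteMeasure_withDensity_ofReal hG.2

theorem setIntegral_posM {G : Sph n → ℝ} (hG : Measurable G) {S : Set (Sph n)} (hS : MeasurableSet S) (F : Sph n → ℝ) :
    ∫ v in S, F v ∂(posM G) = ∫ v in S, F v * max (G v) 0 ∂(sig n) := by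
  rw [← integral_indicator hS, integral_posM hG, ← integral_indicator hS]
  refine integral_congr_ae (Eventually.of_forall fun v => ?_)
  by_cases hv : v ∈ S
  · simp [hv]
  · simp [hv]

/-- band integrals of a density -/
theorem Phi_density (hn : 3 ≤ n) {om : ℝ} (hom : ∀ e : E n, ‖e‖ = 1 → ∀ F : ℝ → ℝ, Measurable F →
    (Integrable (fun v : Sph n => F (inner ℝ e (v : E n))) (sig n) ↔
      IntegrableOn (fun t => F t * (1 - t ^ 2) ^ (((n : ℝ) - 3) / 2)) (Ioo (-1) 1)) ∧
    ∫ v : Sph n, F (inner ℝ e (v : E n)) ∂(sig n) =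
      om * ∫ t in Ioo (-1 : ℝ) 1, F t * (1 - t ^ 2) ^ (((n : ℝ) - 3) / 2))
    {x : E n} (hx : ‖x‖ = 1) {g : ℝ → ℝ} (hg : Measurable g)
    (hG : Integrable (fun v : Sph n => g (inner ℝ x (v : E n))) (sig n)) {b : ℝ} (hb0 : 0 < b) (hb : b < 1) :
    Phi x (posM fun v : Sph n => g (inner ℝ x (v : E n))) b - Phi x (posM fun v : Sph n => -g (inner ℝ x (v : E n))) b =
      om * ∫ t in (0 : ℝ)..b, g t * (1 - t ^ 2) ^ (((n : ℝ) - 4) / 2) := by
  have hme := measurable_height (n := n) x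
  have hgm : Measurable (fun v : Sph n => g (inner ℝ x (v : E n))) := hg.comp hme
  have hs : 0 < √(1 - b ^ 2) := Real.sqrt_pos.2 (by nlinarith)
  set S : Set (Sph n) := {v : Sph n | 0 < (inner ℝ x (v : E n) : ℝ) ∧ (inner ℝ x (v : E n) : ℝ) ≤ b} with hS
  have hSm : MeasurableSet S := measurableSet_band x b
  have hgm' : Measurable (fun v : Sph n => -g (inner ℝ x (v : E n))) := hgm.neg
  unfold Phi
  rw [setIntegral_posM hgm hSm, setIntegral_posM hgm' hSm]
  -- integrability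
  have hbd : ∀ v ∈ S, (√(1 - (inner ℝ x (v : E n) : ℝ) ^ 2))⁻¹ ≤ (√(1 - b ^ 2))⁻¹ := fun v hv =>
    inv_anti₀ hs (Real.sqrt_le_sqrt (by nlinarith [hv.1, hv.2]))
  have hsm : Measurable (fun v : Sph n => (√(1 - (inner ℝ x (v : E n) : ℝ) ^ 2))⁻¹) := by fun_prop
  have hint : ∀ G : Sph n → ℝ, Integrable G (sig n) →
      IntegrableOn (fun v : Sph n => (√(1 - (inner ℝ x (v : E n) : ℝ) ^ 2))⁻¹ * max (G v) 0) S (sig n) := by
    intro G hGi
    refine (hGi.abs.const_mul ((√(1 - b ^ 2))⁻¹)).integrableOn.mono' ?_ ?_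
    · exact (hsm.aestronglyMeasurable.mul (hGi.aestronglyMeasurable.sup aestronglyMeasurable_const)).restrict
    · filter_upwards [ae_restrict_mem hSm] with v hv
      rw [norm_mul, Real.norm_of_nonneg (inv_nonneg.2 (Real.sqrt_nonneg _)), Real.norm_of_nonneg (le_max_right _ _)]
      exact mul_le_mul (hbd v hv) (max_le (le_abs_self _) (abs_nonneg _)) (le_max_right _ _) (inv_nonneg.2 hs.le)
  have hGneg : Integrable (fun v : Sph n => -g (inner ℝ x (v : E n))) (sig n) := hG.neg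
  rw [← integral_sub (hint _ hG) (hint _ hGneg)]
  have e1 : ∀ v : Sph n, (√(1 - (inner ℝ x (v : E n) : ℝ) ^ 2))⁻¹ * max (g (inner ℝ x (v : E n))) 0 -
      (√(1 - (inner ℝ x (v : E n) : ℝ) ^ 2))⁻¹ * max (-g (inner ℝ x (v : E n))) 0 =
      (√(1 - (inner ℝ x (v : E n) : ℝ) ^ 2))⁻¹ * g (inner ℝ x (v : E n)) := fun v => by
    rw [← mul_sub]
    congr 1
    rcases le_total 0 (g (inner ℝ x (v : E n))) with h | h
    · rw [max_eq_left h, max_eq_right (by linarith)]; ring
    · rw [max_eq_right h, max_eq_left (by linarith)]; ring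
  have e2 : ∫ v in S, ((√(1 - (inner ℝ x (v : E n) : ℝ) ^ 2))⁻¹ * max (g (inner ℝ x (v : E n))) 0 -
      (√(1 - (inner ℝ x (v : E n) : ℝ) ^ 2))⁻¹ * max (-g (inner ℝ x (v : E n))) 0) ∂(sig n) =
      ∫ v : Sph n, (fun t : ℝ => (Ioc 0 b).indicator (fun t => (√(1 - t ^ 2))⁻¹ * g t) t) (inner ℝ x (v : E n)) ∂(sig n) := by
    rw [← integral_indicator hSm]
    refine integral_congr_ae (Eventually.of_forall fun v => ?_)
    by_cases hv : v ∈ S
    · have hv' : (inner ℝ x (v : E n) : ℝ) ∈ Ioc 0 b := hv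
      simp only [indicator_of_mem hv, indicator_of_mem hv']
      exact e1 v
    · have hv' : (inner ℝ x (v : E n) : ℝ) ∉ Ioc 0 b := hv
      simp only [indicator_of_notMem hv, indicator_of_notMem hv']
  rw [e2, (hom x hx _ ?_).2]
  · rw [intervalIntegral.integral_of_le hb0.le]
    congr 1
    have e3 : ∀ t : ℝ, (Ioc 0 b).indicator (fun t => (√(1 - t ^ 2))⁻¹ * g t) t * (1 - t ^ 2) ^ (((n : ℝ) - 3) / 2) =
        (Ioc 0 b).indicator (fun t => (√(1 - t ^ 2))⁻¹ * g t * (1 - t ^ 2) ^ (((n : ℝ) - 3) / 2)) t := fun t => by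
      by_cases ht : t ∈ Ioc 0 b
      · simp [ht]
      · simp [ht]
    simp_rw [e3]
    rw [setIntegral_indicator measurableSet_Ioc]
    have e4 : Ioo (-1 : ℝ) 1 ∩ Ioc 0 b = Ioc 0 b := inter_eq_right.2 fun t ht => ⟨by linarith [ht.1], by linarith [ht.2]⟩
    rw [e4]
    refine setIntegral_congr_fun measurableSet_Ioc fun t ht => ?_
    have h1 : 0 < 1 - t ^ 2 := by nlinarith [ht.1, ht.2]
    have h2 : (√(1 - t ^ 2))⁻¹ * (1 - t ^ 2) ^ (((n : ℝ) - 3) / 2) = (1 - t ^ 2) ^ (((n : ℝ) - 4) / 2) := by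
      rw [Real.sqrt_eq_rpow, ← Real.rpow_neg h1.le, ← Real.rpow_add h1]
      congr 1
      ring
    show (√(1 - t ^ 2))⁻¹ * g t * (1 - t ^ 2) ^ (((n : ℝ) - 3) / 2) = g t * (1 - t ^ 2) ^ (((n : ℝ) - 4) / 2)
    rw [← h2]; ring
  · refine Measurable.indicator ?_ measurableSet_Ioc
    fun_prop

end

end Pool.Agent.Helper115_ME
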