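import Mathlib
import Pool.Agent.Helper115_ME.VV.Height

/-!
# Absorption: sufficiency
-/

set_option autoImplicit false

namespace Pool.Agent.Helper115_ME

open MeasureTheory Metric Set Filter Topology
open scoped ContDiff

noncomputable section

variable {n : ℕ}

/-- the curvature functional of the constant density -/
theorem ell_const_density {e w : E n} (h : Orthonormal ℝ ![e, w]) (c : ℝ)
    (hG : Integrable (fun v : Sph n => (fun _ : ℝ => c) (inner ℝ e (v : E n))) (sig n)) {K : ConvexBody (E n)}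
    (hK : IsSmooth (hS K)) :
    ell h (isContFun_densD _ hG) (suppS K hK) = c * ∫ v : Sph n, hS K v ∂(sig n) := by
  rw [ell_smooth_density h (f := fun _ => c) contDiff_const (fun F => densD_apply _ hG F) _ hK, ← integral_const_mul]
  refine integral_congr_ae (Eventually.of_forall fun v => ?_)
  simp
  ring

theorem absorb_suff (hn : 3 ≤ n) (e : Sph n) {g : ℝ → ℝ} (hg : Measurable g)
    (hG : Integrable (fun v : Sph n => g (inner ℝ (e : E n) (v : E n))) (sig n))
    {C : ℝ} (hC : ∀ᵐ t : ℝ, t ∈ Ioo (-1 : ℝ) 1 → -(C * ((√(1 - t ^ 2)) ^ (n - 2))⁻¹) ≤ g t)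
    (hgi : IntegrableOn (fun t => g t * (1 - t ^ 2) ^ (((n : ℝ) - 4) / 2)) (Ioo (-1) 1)) :
    ∃ c : ℝ, ∃ μ : Distr n, HasDensity e (fun t => g t + c) μ ∧
      ∃ T : Body n → Body n, Admissible T ∧ Generates e μ T := by
  obtain ⟨w, h⟩ := exists_perp_one hn e
  have he : ‖(e : E n)‖ = 1 := norm_coe_sph e
  have hme := measurable_height (n := n) (e : E n)
  -- the negative part
  have hset : MeasurableSet {t : ℝ | t ∈ Ioo (-1 : ℝ) 1 ∧ -(C * ((√(1 - t ^ 2)) ^ (n - 2))⁻¹) ≤ g t} := by
    refine measurableSet_Ioo.inter (measurableSet_le ?_ hg)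
    fun_prop
  classical
  set f : ℝ → ℝ := fun t => if t ∈ Ioo (-1 : ℝ) 1 ∧ -(C * ((√(1 - t ^ 2)) ^ (n - 2))⁻¹) ≤ g t then max (-g t) 0 else 0
    with hf
  have hfm : Measurable f := Measurable.ite hset (by fun_prop) measurable_const
  have hf0 : ∀ t, 0 ≤ f t := fun t => by
    simp only [hf]; split_ifs
    · exact le_max_right _ _
    · exact le_rfl
  have hfg : ∀ t, f t ≤ |g t| := fun t => by
    simp only [hf]; split_ifs
    · exact max_le (neg_le_abs _) (abs_nonneg _)
    · exact abs_nonneg _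
  have hC₁ : ∀ t ∈ Ioo (-1 : ℝ) 1, f t * (√(1 - t ^ 2)) ^ (n - 2) ≤ |C| := fun t ht => by
    have hs : 0 < (√(1 - t ^ 2)) ^ (n - 2) := pow_pos (Real.sqrt_pos.2 (by nlinarith [ht.1, ht.2])) _
    simp only [hf]; split_ifs with h1
    · rw [← le_div_iff₀ hs, div_eq_mul_inv]
      refine max_le ?_ (mul_nonneg (abs_nonneg _) (inv_nonneg.2 hs.le))
      have h2 : C * ((√(1 - t ^ 2)) ^ (n - 2))⁻¹ ≤ |C| * ((√(1 - t ^ 2)) ^ (n - 2))⁻¹ :=
        mul_le_mul_of_nonneg_right (le_abs_self _) (inv_nonneg.2 hs.le)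
      linarith [h1.2]
    · rw [zero_mul]; exact abs_nonneg _
  have hwm : Measurable (fun t : ℝ => (1 - t ^ 2) ^ (((n : ℝ) - 4) / 2)) := by fun_prop
  have hfi : IntegrableOn (fun t => f t * (1 - t ^ 2) ^ (((n : ℝ) - 4) / 2)) (Ioo (-1) 1) := by
    refine Integrable.mono hgi (hfm.mul hwm).aestronglyMeasurable (Eventually.of_forall fun t => ?_)
    rw [norm_mul, norm_mul, Real.norm_of_nonneg (hf0 t)]
    exact mul_le_mul_of_nonneg_right (hfg t) (norm_nonneg _)
  have hGf : Integrable (fun v : Sph n => f (inner ℝ (e : E n) (v : E n))) (sig n) := by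
    refine Integrable.mono hG (hfm.comp hme).aestronglyMeasurable (Eventually.of_forall fun v => ?_)
    rw [Real.norm_of_nonneg (hf0 _)]
    exact hfg _
  obtain ⟨A, hA0, hA⟩ := ell_upper hn h hfm hf0 hC₁ hfi le_rfl hGf
  -- the positive part
  set gp : ℝ → ℝ := fun t => max (g t) 0 with hgp
  have hGp : Integrable (fun v : Sph n => gp (inner ℝ (e : E n) (v : E n))) (sig n) := hG.pos_part
  have hG1 : Integrable (fun v : Sph n => (fun _ : ℝ => A) (inner ℝ (e : E n) (v : E n))) (sig n) := integrable_const _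
  have hGc : Integrable (fun v : Sph n => g (inner ℝ (e : E n) (v : E n)) + A) (sig n) := hG.add (integrable_const _)
  have hae : ∀ᵐ v : Sph n ∂(sig n), g (inner ℝ (e : E n) (v : E n)) + A =
      gp (inner ℝ (e : E n) (v : E n)) - f (inner ℝ (e : E n) (v : E n)) + A := by
    have hN : volume {t : ℝ | ¬ (t ∈ Ioo (-1 : ℝ) 1 → -(C * ((√(1 - t ^ 2)) ^ (n - 2))⁻¹) ≤ g t)} = 0 := by
      rw [ae_iff] at hC; exact hC
    filter_upwards [ae_notMem hn he hN, ae_mem_Ioo (by omega : 2 ≤ n) he] with v hv hv2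
    have h1 : -(C * ((√(1 - (inner ℝ (e : E n) (v : E n) : ℝ) ^ 2)) ^ (n - 2))⁻¹) ≤ g (inner ℝ (e : E n) (v : E n)) := by
      by_contra h2
      exact hv fun h3 => h2 (h3 hv2)
    simp only [hf, hgp, if_pos (And.intro hv2 h1)]
    rcases le_total 0 (g (inner ℝ (e : E n) (v : E n))) with h3 | h3
    · rw [max_eq_left h3, max_eq_right (by linarith)]; ring
    · rw [max_eq_right h3, max_eq_left (by linarith)]; ring
  refine ⟨A, densD _ hGc, fun F => densD_apply _ hGc F, ?_⟩
  have hμz : IsZonalFun (e : E n) (densD _ hGc) :=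
    isZonalFun_of_density (g := fun t => g t + A) hGc (densD_apply _ hGc)
  refine generates_of_pos hn e h (isContFun_densD _ hGc) hμz fun F hF => ?_
  obtain ⟨K, hK⟩ := exists_body_of_Rc (by omega) F.2 hF
  have hKs : IsSmooth (hS K) := by rw [hK]; exact F.2
  have hFK : F = suppS K hKs := Subtype.ext hK.symm
  rw [hFK]
  -- linearity in the functional
  have hlin : ∀ F' : SmoothFun n, densD _ hGc F' = densD _ hGp F' - densD _ hGf F' + densD _ hG1 F' := by
    intro F'
    show ∫ v, F'.1 v * (g (inner ℝ (e : E n) (v : E n)) + A) ∂(sig n) =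
      ∫ v, F'.1 v * gp (inner ℝ (e : E n) (v : E n)) ∂(sig n) - ∫ v, F'.1 v * f (inner ℝ (e : E n) (v : E n)) ∂(sig n) +
        ∫ v, F'.1 v * A ∂(sig n)
    have i1 := integrable_mul_density hGp (IsSmooth.continuous F'.2)
    have i2 := integrable_mul_density hGf (IsSmooth.continuous F'.2)
    have i3 : Integrable (fun v : Sph n => F'.1 v * A) (sig n) := integrable_mul_density hG1 (IsSmooth.continuous F'.2)
    have i12 : Integrable (fun v : Sph n => F'.1 v * gp (inner ℝ (e : E n) (v : E n)) -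
      F'.1 v * f (inner ℝ (e : E n) (v : E n))) (sig n) := i1.sub i2
    rw [← integral_sub i1 i2, ← integral_add i12 i3]
    refine integral_congr_ae ?_
    filter_upwards [hae] with v hv
    show F'.1 v * (g (inner ℝ (e : E n) (v : E n)) + A) = F'.1 v * gp (inner ℝ (e : E n) (v : E n)) -
      F'.1 v * f (inner ℝ (e : E n) (v : E n)) + F'.1 v * A
    rw [hv]; ring
  obtain ⟨k, -, hk⟩ := exists_second h (suppS K hKs)
  have h1 : ell h (isContFun_densD _ hGc) (suppS K hKs) = ell h (isContFun_densD _ hGp) (suppS K hKs) -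
      ell h (isContFun_densD _ hGf) (suppS K hKs) + ell h (isContFun_densD _ hG1) (suppS K hKs) := by
    rw [hk _ (isContFun_densD _ hGc), hk _ (isContFun_densD _ hGp), hk _ (isContFun_densD _ hGf),
      hk _ (isContFun_densD _ hG1), hlin, hlin]
    ring
  have h2 : 0 ≤ ell h (isContFun_densD _ hGp) (suppS K hKs) :=
    ell_density_nonneg (by omega) h hGp (fun t _ => le_max_right _ _) (densD_apply _ hGp) _ hKs
  have h3 := hA K hKs
  have h4 := ell_const_density h A hG1 hKs
  rw [h1, h4]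
  linarith

end

end Pool.Agent.Helper115_ME
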