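import Mathlib
set_option autoImplicit false
/-!
TARGET: one-dimensional real analysis. Notation ψ(b) = ((√(1-b²))^(n-2))⁻¹ (increasing on (0,1), ≥ 1), Φ(b) = ∫_0^b k.
Proof in words. (1) Φ(b) ≤ ∫_0^b max(k,0) ≤ M. For 0 < a < b < 1 monotonicity gives ψ(a)(c+Φ(a)) ≤ ψ(b)(c+Φ(b)), so with x = ψ(b)/ψ(a) ≥ 1:
 Φ(b) - Φ(a) ≥ (c+Φ(a))(1/x - 1) ≥ - D (1 - 1/x) ≥ - D log x, where D = |c| + |M| ≥ max(c + Φ(a), 0), and 1 - 1/x ≤ log x. log x = ((n-2)/2) log((1-a²)/(1-b²)) = ∫_a^b (n-2) t/(1-t²) dt.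
 Hence ∫_a^b (k(t) + D (n-2) t/(1-t²)) dt ≥ 0 for all 0 < a < b < 1, so by ae_nonneg_of_intervals (file Pool/Agent/Helper115_ME/VV/V08.lean below, copied here with its proof available on request:
 it is the theorem ae_nonneg_of_intervals (k) (hk : ∀ a b, 0 < a → a < b → b < 1 → IntervalIntegrable k volume a b) (h : ∀ a b, 0 < a → a < b → b < 1 → 0 ≤ ∫ t in a..b, k t) :
 ∀ᵐ t, t ∈ Ioo 0 1 → 0 ≤ k t; you may state it as a lemma with `sorry`-free proof via IntervalIntegrable.ae_hasDerivAt_integral, see the attached proof) we get k ≥ - C t/(1-t²) a.e. with C = D (n-2).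
 (2) ψ(b)(c+Φ(b)) ≥ ψ(1/2)(c+Φ(1/2)) =: -B for b ≥ 1/2, so c + Φ(b) ≥ -|B| (ψ ≥ 1), so ∫_0^b max(-k,0) = ∫_0^b max(k,0) - Φ(b) ≤ M + |B| + |c| for all b in [1/2,1), so k is integrable on (0,1)
 (monotone convergence / MeasureTheory.integrableOn_Ioo_of... e.g. integrableOn_of_intervalIntegral_norm_bounded: ∫_0^b |k| is bounded; AECover).
The proof of ae_nonneg_of_intervals (by helper955) is appended as a comment at the end of this file.
-/
namespace Pool.Agent.Helper115_ME.VV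

open MeasureTheory Set Filter Topology

theorem ae_nonneg_of_intervals (k : ℝ → ℝ) (hk : ∀ a b : ℝ, 0 < a → a < b → b < 1 → IntervalIntegrable k volume a b)
    (h : ∀ a b : ℝ, 0 < a → a < b → b < 1 → 0 ≤ ∫ t in a..b, k t) :
    ∀ᵐ t : ℝ, t ∈ Ioo (0 : ℝ) 1 → 0 ≤ k t := by
  have hpos : ∀ m : ℕ, (0 : ℝ) < 1 / ((m : ℝ) + 3) := fun m => by positivity
  have hlt : ∀ m : ℕ, 1 / ((m : ℝ) + 3) < 1 - 1 / ((m : ℝ) + 3) := fun m => by
    have h0 : (0 : ℝ) ≤ m := Nat.cast_nonneg m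
    have h1 : 1 / ((m : ℝ) + 3) ≤ 1 / 3 := by
      apply one_div_le_one_div_of_le <;> linarith
    linarith
  have hone : ∀ m : ℕ, 1 - 1 / ((m : ℝ) + 3) < 1 := fun m => by linarith [hpos m]
  have H : ∀ m : ℕ, ∀ᵐ x : ℝ, x ∈ uIcc (1 / ((m : ℝ) + 3)) (1 - 1 / ((m : ℝ) + 3)) →
      ∀ c ∈ uIcc (1 / ((m : ℝ) + 3)) (1 - 1 / ((m : ℝ) + 3)),
        HasDerivAt (fun x => ∫ (t : ℝ) in c..x, k t) (k x) x := fun m =>
    (hk _ _ (hpos m) (hlt m) (hone m)).ae_hasDerivAt_integral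
  filter_upwards [ae_all_iff.2 H] with t ht ht01
  obtain ⟨m, hm⟩ := exists_nat_gt (max (1 / t) (1 / (1 - t)))
  have hm1 : 1 / t < (m : ℝ) + 3 := by
    have := le_max_left (1 / t) (1 / (1 - t)); linarith
  have hm2 : 1 / (1 - t) < (m : ℝ) + 3 := by
    have := le_max_right (1 / t) (1 / (1 - t)); linarith
  have h3 : (0 : ℝ) < (m : ℝ) + 3 := by positivity
  have hta : 1 / ((m : ℝ) + 3) < t := by
    rw [div_lt_iff₀ ht01.1] at hm1
    rw [div_lt_iff₀ h3]
    linarith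
  have htb : t < 1 - 1 / ((m : ℝ) + 3) := by
    have h4 : (0 : ℝ) < 1 - t := by linarith [ht01.2]
    rw [div_lt_iff₀ h4] at hm2
    have : 1 / ((m : ℝ) + 3) < 1 - t := by
      rw [div_lt_iff₀ h3]
      linarith
    linarith
  set a := 1 / ((m : ℝ) + 3) with ha
  set b := 1 - 1 / ((m : ℝ) + 3) with hb
  have hIcc : uIcc a b = Icc a b := uIcc_of_le (hlt m).le
  have hd := ht m (by rw [hIcc]; exact ⟨hta.le, htb.le⟩) a (by rw [hIcc]; exact ⟨le_refl _, (hlt m).le⟩)
  have hs := hd.tendsto_slope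
  have hs' : Tendsto (slope (fun x => ∫ (t : ℝ) in a..x, k t) t) (𝓝[>] t) (𝓝 (k t)) :=
    hs.mono_left (nhdsWithin_mono _ fun x hx => ne_of_gt hx)
  refine ge_of_tendsto hs' ?_
  have hnb : ∀ᶠ y in 𝓝[>] t, y < b :=
    (Ioo_mem_nhdsGT htb) |> fun hh => by
      filter_upwards [hh] with y hy using hy.2
  filter_upwards [hnb, self_mem_nhdsWithin] with y hyb hty
  have hty' : t < y := hty
  rw [slope_def_field]
  have hi1 : IntervalIntegrable k volume a t := hk a t (hpos m) hta (by linarith [hone m])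
  have hi2 : IntervalIntegrable k volume t y := hk t y (by linarith [hpos m]) hty' (by linarith [hone m])
  have e : (∫ (t : ℝ) in a..y, k t) - (∫ (s : ℝ) in a..t, k s) = ∫ s in t..y, k s := by
    rw [← intervalIntegral.integral_add_adjacent_intervals hi1 hi2]
    ring
  rw [e]
  exact div_nonneg (h t y (by linarith [hpos m]) hty' (by linarith [hone m])) (by linarith)

theorem real_part {n : ℕ} (hn : 3 ≤ n) (k : ℝ → ℝ) (hk : ∀ b : ℝ, 0 < b → b < 1 → IntervalIntegrable k volume 0 b)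
    {c M : ℝ} (hM : ∀ b : ℝ, 0 < b → b < 1 → ∫ t in (0 : ℝ)..b, max (k t) 0 ≤ M)
    (hmono : MonotoneOn (fun b : ℝ => ((√(1 - b ^ 2)) ^ (n - 2))⁻¹ * (c + ∫ t in (0 : ℝ)..b, k t)) (Ioo 0 1)) :
    (∃ C : ℝ, ∀ᵐ t : ℝ, t ∈ Ioo (0 : ℝ) 1 → -(C * (t / (1 - t ^ 2))) ≤ k t) ∧ IntegrableOn k (Ioo 0 1) := by
  set m : ℕ := n - 2 with hm
  set ψ : ℝ → ℝ := fun b => ((√(1 - b ^ 2)) ^ m)⁻¹ with hψ
  have hpos1 : ∀ b : ℝ, 0 < b → b < 1 → 0 < 1 - b ^ 2 := fun b h0 h1 => by nlinarith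
  have hsq : ∀ b : ℝ, 0 < b → b < 1 → 0 < √(1 - b ^ 2) := fun b h0 h1 => Real.sqrt_pos.mpr (hpos1 b h0 h1)
  have hsq1 : ∀ b : ℝ, 0 < b → b < 1 → √(1 - b ^ 2) ≤ 1 := fun b h0 h1 => by
    rw [Real.sqrt_le_one]
    nlinarith [sq_nonneg b]
  have hψpos : ∀ b : ℝ, 0 < b → b < 1 → 0 < ψ b := fun b h0 h1 => by
    have := hsq b h0 h1
    rw [hψ]; positivity
  have hψ1 : ∀ b : ℝ, 0 < b → b < 1 → 1 ≤ ψ b := fun b h0 h1 => by
    rw [hψ]
    exact (one_le_inv₀ (pow_pos (hsq b h0 h1) m)).mpr (pow_le_one₀ (hsq b h0 h1).le (hsq1 b h0 h1))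
  have hψanti : ∀ a b : ℝ, 0 < a → a < b → b < 1 → ψ a ≤ ψ b := fun a b h0 h1 h2 => by
    rw [hψ]
    apply inv_anti₀ (pow_pos (hsq b (h0.trans h1) h2) m)
    apply pow_le_pow_left₀ (Real.sqrt_nonneg _)
    apply Real.sqrt_le_sqrt
    nlinarith
  have hmaxint : ∀ b : ℝ, 0 < b → b < 1 → IntervalIntegrable (fun t => max (k t) 0) volume 0 b :=
    fun b h0 h1 => by
      have h2 := hk b h0 h1
      have h3 : IntervalIntegrable (fun _ : ℝ => (0 : ℝ)) volume 0 b := intervalIntegrable_const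
      rw [intervalIntegrable_iff] at h2 h3 ⊢
      exact h2.sup h3
  have hΦM : ∀ b : ℝ, 0 < b → b < 1 → ∫ t in (0 : ℝ)..b, k t ≤ M := fun b h0 h1 => by
    refine le_trans ?_ (hM b h0 h1)
    exact intervalIntegral.integral_mono_on h0.le (hk b h0 h1) (hmaxint b h0 h1) fun x _ => le_max_left _ _
  have hmono' : ∀ a b : ℝ, 0 < a → a ≤ b → b < 1 →
      ψ a * (c + ∫ t in (0 : ℝ)..a, k t) ≤ ψ b * (c + ∫ t in (0 : ℝ)..b, k t) := fun a b h0 h1 h2 =>
    hmono (Set.mem_Ioo.mpr ⟨h0, h1.trans_lt h2⟩) (Set.mem_Ioo.mpr ⟨h0.trans_le h1, h2⟩) h1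
  have hkab : ∀ a b : ℝ, 0 < a → a < b → b < 1 → IntervalIntegrable k volume a b := fun a b h0 h1 h2 =>
    (hk a h0 (h1.trans h2)).symm.trans (hk b (h0.trans h1) h2)
  constructor
  · set D : ℝ := |c| + |M| with hD
    have hD0 : 0 ≤ D := by positivity
    refine ⟨D * m, ?_⟩
    have hfint : ∀ a b : ℝ, 0 < a → a < b → b < 1 →
        IntervalIntegrable (fun t : ℝ => t / (1 - t ^ 2)) volume a b := fun a b h0 h1 h2 => by
      apply ContinuousOn.intervalIntegrable
      rw [uIcc_of_le h1.le]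
      intro t ht
      apply ContinuousAt.continuousWithinAt
      apply ContinuousAt.div continuousAt_id (by fun_prop)
      exact (hpos1 t (h0.trans_le ht.1) (ht.2.trans_lt h2)).ne'
    have hfval : ∀ a b : ℝ, 0 < a → a < b → b < 1 →
        ∫ t in a..b, t / (1 - t ^ 2) = -(1 / 2) * Real.log (1 - b ^ 2) - -(1 / 2) * Real.log (1 - a ^ 2) :=
      fun a b h0 h1 h2 => by
      apply intervalIntegral.integral_eq_sub_of_hasDerivAt _ (hfint a b h0 h1 h2)
      intro t ht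
      rw [uIcc_of_le h1.le] at ht
      have ht0 : 0 < t := h0.trans_le ht.1
      have hp := hpos1 t ht0 (ht.2.trans_lt h2)
      have hd1 : HasDerivAt (fun t : ℝ => 1 - t ^ 2) (-(2 * t)) t := by
        have := (hasDerivAt_pow 2 t).const_sub 1
        simpa using this
      have hd2 := (hd1.log hp.ne').const_mul (-(1 / 2) : ℝ)
      have he : t / (1 - t ^ 2) = -(1 / 2) * (-(2 * t) / (1 - t ^ 2)) := by ring
      rw [he]
      exact hd2
    have hlogψ : ∀ b : ℝ, 0 < b → b < 1 → Real.log (ψ b) = -((m : ℝ) * ((1 / 2) * Real.log (1 - b ^ 2))) :=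
      fun b h0 h1 => by
      rw [hψ]
      dsimp only
      rw [Real.log_inv, Real.log_pow, Real.log_sqrt (hpos1 b h0 h1).le]
      ring
    have key : ∀ a b : ℝ, 0 < a → a < b → b < 1 →
        0 ≤ ∫ t in a..b, (k t + D * m * (t / (1 - t ^ 2))) := by
      intro a b h0 h1 h2
      rw [intervalIntegral.integral_add (hkab a b h0 h1 h2) ((hfint a b h0 h1 h2).const_mul _),
        intervalIntegral.integral_const_mul, hfval a b h0 h1 h2]
      have hb0 := h0.trans h1
      have ha1 := h1.trans h2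
      have e : ∫ t in a..b, k t = (∫ t in (0 : ℝ)..b, k t) - ∫ t in (0 : ℝ)..a, k t := by
        rw [← intervalIntegral.integral_add_adjacent_intervals (hk a h0 ha1) (hkab a b h0 h1 h2)]
        ring
      set Φa := ∫ t in (0 : ℝ)..a, k t with hΦa
      set Φb := ∫ t in (0 : ℝ)..b, k t with hΦb
      have hmm := hmono' a b h0 h1.le h2
      have hpa := hψpos a h0 ha1
      have hpb := hψpos b hb0 h2
      set y : ℝ := ψ a / ψ b with hy
      have hy0 : 0 < y := div_pos hpa hpb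
      have hy1 : y ≤ 1 := (div_le_one hpb).mpr (hψanti a b h0 h1 h2)
      have h3 : (c + Φa) * y ≤ c + Φb := by
        rw [hy, mul_div_assoc', div_le_iff₀ hpb]
        linarith
      have h4 : c + Φa ≤ D := by
        have h5 := hΦM a h0 ha1
        have h6 := le_abs_self c
        have h7 := le_abs_self M
        rw [hD]; linarith
      have h5 : D * (y - 1) ≤ (c + Φa) * (y - 1) := by nlinarith
      have h6 : Real.log y ≤ y - 1 := Real.log_le_sub_one_of_pos hy0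
      have h7 : D * Real.log y ≤ D * (y - 1) := mul_le_mul_of_nonneg_left h6 hD0
      have h8 : Real.log y = (m : ℝ) * ((1 / 2) * (Real.log (1 - b ^ 2) - Real.log (1 - a ^ 2))) := by
        rw [hy, Real.log_div hpa.ne' hpb.ne', hlogψ a h0 ha1, hlogψ b hb0 h2]
        ring
      rw [e]
      rw [h8] at h7
      nlinarith
    have hfin := ae_nonneg_of_intervals (fun t => k t + D * m * (t / (1 - t ^ 2)))
      (fun a b h0 h1 h2 => (hkab a b h0 h1 h2).add ((hfint a b h0 h1 h2).const_mul _)) key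
    filter_upwards [hfin] with t ht ht01
    have := ht ht01
    linarith
  · set E : ℝ := ψ (1 / 2) * (c + ∫ t in (0 : ℝ)..(1 / 2), k t) with hE
    have hlow : ∀ b : ℝ, 1 / 2 ≤ b → b < 1 → -|E| ≤ c + ∫ t in (0 : ℝ)..b, k t := by
      intro b h1 h2
      have hb0 : 0 < b := by linarith
      have h3 := hmono' (1 / 2) b (by norm_num) h1 h2
      have h4 := hψ1 b hb0 h2
      by_contra hcon
      rw [not_le] at hcon
      have h5 : ψ b * (c + ∫ t in (0 : ℝ)..b, k t) < -|E| := by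
        have h6 : c + ∫ t in (0 : ℝ)..b, k t < 0 := lt_of_lt_of_le hcon (by simp)
        nlinarith
      have h7 := neg_abs_le E
      linarith
    have hbd : ∀ b : ℝ, 1 / 2 ≤ b → b < 1 → ∫ t in (0 : ℝ)..b, ‖k t‖ ≤ 2 * M + c + |E| := by
      intro b h1 h2
      have hb0 : 0 < b := by linarith
      have h3 : ∫ t in (0 : ℝ)..b, ‖k t‖ = ∫ t in (0 : ℝ)..b, (2 * max (k t) 0 - k t) := by
        congr 1
        funext t
        rw [Real.norm_eq_abs]
        rcases le_total 0 (k t) with h | h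
        · rw [max_eq_left h, abs_of_nonneg h]; ring
        · rw [max_eq_right h, abs_of_nonpos h]; ring
      rw [h3, intervalIntegral.integral_sub ((hmaxint b hb0 h2).const_mul 2) (hk b hb0 h2),
        intervalIntegral.integral_const_mul]
      have h4 := hM b hb0 h2
      have h5 := hlow b h1 h2
      linarith
    have hb : ∀ i : ℕ, 1 / 2 ≤ 1 - 1 / ((i : ℝ) + 3) ∧ 1 - 1 / ((i : ℝ) + 3) < 1 := by
      intro i
      have h0 : (0 : ℝ) ≤ i := Nat.cast_nonneg i
      have h1 : 1 / ((i : ℝ) + 3) ≤ 1 / 3 := by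
        apply one_div_le_one_div_of_le <;> linarith
      have h2 : (0 : ℝ) < 1 / ((i : ℝ) + 3) := by positivity
      constructor <;> linarith
    have hlim : Tendsto (fun i : ℕ => 1 - 1 / ((i : ℝ) + 3)) atTop (𝓝 1) := by
      have h1 : Tendsto (fun i : ℕ => (i : ℝ) + 3) atTop atTop :=
        tendsto_atTop_add_const_right _ _ tendsto_natCast_atTop_atTop
      have h2 := h1.inv_tendsto_atTop.const_sub (1 : ℝ)
      simpa [one_div] using h2
    have hIoc : IntegrableOn k (Ioc 0 1) := by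
      apply MeasureTheory.integrableOn_Ioc_of_intervalIntegral_norm_bounded_right
        (b := fun i : ℕ => 1 - 1 / ((i : ℝ) + 3)) (l := atTop) (I := 2 * M + c + |E|) _ hlim
      · filter_upwards with i
        have h1 := hbd _ (hb i).1 (hb i).2
        rwa [intervalIntegral.integral_of_le (by linarith [(hb i).1])] at h1
      · intro i
        have h1 := hk (1 - 1 / ((i : ℝ) + 3)) (by linarith [(hb i).1]) (hb i).2
        rwa [intervalIntegrable_iff_integrableOn_Ioc_of_le (by linarith [(hb i).1])] at h1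
    exact hIoc.mono_set Ioo_subset_Ioc_self

end Pool.Agent.Helper115_ME.VV
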