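import Mathlib
import Pool.Agent.Helper115_ME.VV.AbsSuff
import Pool.Agent.Helper115_ME.VV.V09

/-!
# Absorption: necessity and the criterion
-/

set_option autoImplicit false

namespace Pool.Agent.Helper115_ME

open MeasureTheory Metric Set Filter Topology

noncomputable section

variable {n : ℕ}

theorem rpow_split3 {t : ℝ} (h1 : 0 < 1 - t ^ 2) :
    (√(1 - t ^ 2))⁻¹ * (1 - t ^ 2) ^ (((n : ℝ) - 3) / 2) = (1 - t ^ 2) ^ (((n : ℝ) - 4) / 2) := by
  rw [Real.sqrt_eq_rpow, ← Real.rpow_neg h1.le, ← Real.rpow_add h1]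
  congr 1
  ring

theorem rpow_split2 (hn : 3 ≤ n) {t : ℝ} (h1 : 0 < 1 - t ^ 2) :
    (1 - t ^ 2) * (1 - t ^ 2) ^ (((n : ℝ) - 4) / 2) = (√(1 - t ^ 2)) ^ (n - 2) := by
  have h2 : ((n - 2 : ℕ) : ℝ) = (n : ℝ) - 2 := by
    rw [Nat.cast_sub (by omega : 2 ≤ n)]; norm_num
  have h3 : (√(1 - t ^ 2)) ^ (n - 2) = (1 - t ^ 2) ^ (((n : ℝ) - 2) / 2) := by
    rw [Real.sqrt_eq_rpow, ← Real.rpow_natCast ((1 - t ^ 2) ^ (1 / 2 : ℝ)) (n - 2), ← Real.rpow_mul h1.le, h2]
    congr 1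
    ring
  have h4 : (1 - t ^ 2) * (1 - t ^ 2) ^ (((n : ℝ) - 4) / 2) = (1 - t ^ 2) ^ (1 + ((n : ℝ) - 4) / 2) := by
    rw [Real.rpow_add h1, Real.rpow_one]
  rw [h3, h4]
  congr 1
  ring

theorem one_side (hn : 3 ≤ n) {x : E n} (hx : ‖x‖ = 1) {G : ℝ → ℝ} (hGm : Measurable G)
    (hGi : Integrable (fun v : Sph n => G (inner ℝ x (v : E n))) (sig n))
    (hGp : IntegrableOn (fun t => max (G t) 0 * (1 - t ^ 2) ^ (((n : ℝ) - 4) / 2)) (Ioo (-1) 1))
    {c₁ : ℝ} (hmono : MonotoneOn (fun b : ℝ => VV.psi n b *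
      (c₁ + (Phi x (posM fun v : Sph n => G (inner ℝ x (v : E n))) b -
        Phi x (posM fun v : Sph n => -G (inner ℝ x (v : E n))) b))) (Ioo 0 1)) :
    (∃ C : ℝ, ∀ᵐ t : ℝ, t ∈ Ioo (0 : ℝ) 1 → -(C * ((√(1 - t ^ 2)) ^ (n - 2))⁻¹) ≤ G t) ∧
      IntegrableOn (fun t => G t * (1 - t ^ 2) ^ (((n : ℝ) - 4) / 2)) (Ioo 0 1) := by
  obtain ⟨om, hom0, hom⟩ := exists_height hn
  set W : ℝ → ℝ := fun t => (1 - t ^ 2) ^ (((n : ℝ) - 4) / 2) with hW
  have hWm : Measurable W := by fun_prop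
  have hWnn : ∀ t ∈ Ioo (-1 : ℝ) 1, 0 ≤ W t := fun t ht => Real.rpow_nonneg (by nlinarith [ht.1, ht.2]) _
  set k : ℝ → ℝ := fun t => om * (G t * W t) with hk
  have hkm : Measurable k := (hGm.mul hWm).const_mul om
  have hhi := (hom x hx G hGm).1.1 hGi
  -- integrability of `k` on `(0, b)`
  have hkb : ∀ b : ℝ, 0 < b → b < 1 → IntervalIntegrable k volume 0 b := by
    intro b hb0 hb
    rw [intervalIntegrable_iff_integrableOn_Ioc_of_le hb0.le]
    have hs : 0 < √(1 - b ^ 2) := Real.sqrt_pos.2 (by nlinarith)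
    have h1 : IntegrableOn (fun t => G t * (1 - t ^ 2) ^ (((n : ℝ) - 3) / 2)) (Ioc 0 b) :=
      hhi.mono_set fun t ht => ⟨by linarith [ht.1], by linarith [ht.2]⟩
    refine (h1.norm.const_mul (om * (√(1 - b ^ 2))⁻¹)).mono' hkm.aestronglyMeasurable ?_
    filter_upwards [ae_restrict_mem measurableSet_Ioc] with t ht
    have h2 : 0 < 1 - t ^ 2 := by nlinarith [ht.1, ht.2]
    have h3 : 0 ≤ (1 - t ^ 2) ^ (((n : ℝ) - 3) / 2) := Real.rpow_nonneg h2.le _
    have h4 : (√(1 - t ^ 2))⁻¹ ≤ (√(1 - b ^ 2))⁻¹ :=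
      inv_anti₀ hs (Real.sqrt_le_sqrt (by nlinarith [ht.1, ht.2]))
    simp only [hk, hW]
    rw [← rpow_split3 h2, norm_mul, norm_mul, norm_mul, norm_mul, Real.norm_of_nonneg hom0.le, Real.norm_of_nonneg h3,
      Real.norm_of_nonneg (inv_nonneg.2 (Real.sqrt_nonneg _))]
    have h5 : om * (‖G t‖ * ((√(1 - t ^ 2))⁻¹ * (1 - t ^ 2) ^ (((n : ℝ) - 3) / 2))) =
        (om * (√(1 - t ^ 2))⁻¹) * (‖G t‖ * (1 - t ^ 2) ^ (((n : ℝ) - 3) / 2)) := by ring
    rw [h5]
    exact mul_le_mul_of_nonneg_right (mul_le_mul_of_nonneg_left h4 hom0.le) (mul_nonneg (norm_nonneg _) h3)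
  -- the upper bound
  have hM : ∀ b : ℝ, 0 < b → b < 1 → ∫ t in (0 : ℝ)..b, max (k t) 0 ≤
      om * ∫ t in Ioo (-1 : ℝ) 1, max (G t) 0 * W t := by
    intro b hb0 hb
    have hsub : Ioc (0 : ℝ) b ⊆ Ioo (-1) 1 := fun t ht => ⟨by linarith [ht.1], by linarith [ht.2]⟩
    rw [intervalIntegral.integral_of_le hb0.le, ← integral_const_mul]
    have h1 : ∫ t in Ioc (0 : ℝ) b, max (k t) 0 = ∫ t in Ioc (0 : ℝ) b, om * (max (G t) 0 * W t) := by
      refine setIntegral_congr_fun measurableSet_Ioc fun t ht => ?_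
      have h2 := hWnn t (hsub ht)
      show max (om * (G t * W t)) 0 = om * (max (G t) 0 * W t)
      rw [max_mul_of_nonneg _ _ h2, zero_mul, mul_max_of_nonneg _ _ hom0.le, mul_zero]
    rw [h1]
    refine setIntegral_mono_set (hGp.const_mul om) ?_ hsub.eventuallyLE
    filter_upwards [ae_restrict_mem measurableSet_Ioo] with t ht
    exact mul_nonneg hom0.le (mul_nonneg (le_max_right _ _) (hWnn t ht))
  have hmono' : MonotoneOn (fun b : ℝ => ((√(1 - b ^ 2)) ^ (n - 2))⁻¹ * (c₁ + ∫ t in (0 : ℝ)..b, k t)) (Ioo 0 1) := by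
    refine hmono.congr fun b hb => ?_
    simp only
    rw [Phi_density hn hom hx hGm hGi hb.1 hb.2, ← intervalIntegral.integral_const_mul]
    rfl
  obtain ⟨⟨C, hC⟩, hki⟩ := VV.real_part hn k hkb hM hmono'
  constructor
  · refine ⟨|C| / om, ?_⟩
    filter_upwards [hC] with t ht hmem
    have h1 := ht hmem
    have h2 : 0 < 1 - t ^ 2 := by nlinarith [hmem.1, hmem.2]
    have h3 : 0 < W t := Real.rpow_pos_of_pos h2 _
    have h4 : (1 - t ^ 2) * W t = (√(1 - t ^ 2)) ^ (n - 2) := rpow_split2 hn h2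
    have h5 : C * (t / (1 - t ^ 2)) ≤ |C| * (1 - t ^ 2)⁻¹ := by
      rw [div_eq_mul_inv]
      have h6 : t * (1 - t ^ 2)⁻¹ ≤ (1 - t ^ 2)⁻¹ := mul_le_of_le_one_left (inv_nonneg.2 h2.le) hmem.2.le
      have h7 : 0 ≤ t * (1 - t ^ 2)⁻¹ := mul_nonneg hmem.1.le (inv_nonneg.2 h2.le)
      calc C * (t * (1 - t ^ 2)⁻¹) ≤ |C| * (t * (1 - t ^ 2)⁻¹) := mul_le_mul_of_nonneg_right (le_abs_self _) h7
        _ ≤ |C| * (1 - t ^ 2)⁻¹ := mul_le_mul_of_nonneg_left h6 (abs_nonneg _)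
    rw [← h4]
    have h8 : -(|C| / om * ((1 - t ^ 2) * W t)⁻¹) * (om * W t) = -(|C| * (1 - t ^ 2)⁻¹) := by
      field_simp
    have h9 : -(|C| / om * ((1 - t ^ 2) * W t)⁻¹) * (om * W t) ≤ G t * (om * W t) := by
      rw [h8]
      have h10 : k t = G t * (om * W t) := by simp only [hk]; ring
      rw [← h10]
      linarith
    exact le_of_mul_le_mul_right h9 (mul_pos hom0 h3)
  · have h1 : IntegrableOn (fun t => om⁻¹ * k t) (Ioo 0 1) := hki.const_mul om⁻¹
    refine h1.congr_fun (fun t _ => ?_) measurableSet_Ioo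
    simp only [hk]
    rw [← mul_assoc, inv_mul_cancel₀ hom0.ne', one_mul]

theorem absorb_nec (hn : 3 ≤ n) (e : Sph n) {g : ℝ → ℝ} (hg : Measurable g)
    (hG : Integrable (fun v : Sph n => g (inner ℝ (e : E n) (v : E n))) (sig n))
    (hgp : IntegrableOn (fun t => max (g t) 0 * (1 - t ^ 2) ^ (((n : ℝ) - 4) / 2)) (Ioo (-1) 1))
    {c : ℝ} {μ : Distr n} (hμ : HasDensity e (fun t => g t + c) μ) {T : Body n → Body n} (hT : Generates e μ T) :
    (∃ C : ℝ, ∀ᵐ t : ℝ, t ∈ Ioo (-1 : ℝ) 1 → -(C * ((√(1 - t ^ 2)) ^ (n - 2))⁻¹) ≤ g t) ∧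
      IntegrableOn (fun t => g t * (1 - t ^ 2) ^ (((n : ℝ) - 4) / 2)) (Ioo (-1) 1) := by
  have he : ‖(e : E n)‖ = 1 := norm_coe_sph e
  have hwi : IntegrableOn (fun t : ℝ => (1 - t ^ 2) ^ (((n : ℝ) - 4) / 2)) (Ioo (-1) 1) :=
    (C04.w_int hn).mono_set Ioo_subset_Icc_self
  set G : ℝ → ℝ := fun t => g t + c with hGd
  have hGm : Measurable G := hg.add_const c
  have hGi : Integrable (fun v : Sph n => G (inner ℝ (e : E n) (v : E n))) (sig n) := hG.add (integrable_const _)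
  have hGp : IntegrableOn (fun t => max (G t) 0 * (1 - t ^ 2) ^ (((n : ℝ) - 4) / 2)) (Ioo (-1) 1) := by
    refine (hgp.add (hwi.const_mul |c|)).mono' ?_ ?_
    · exact ((hGm.max measurable_const).mul (by fun_prop)).aestronglyMeasurable
    · filter_upwards [ae_restrict_mem measurableSet_Ioo] with t ht
      have h1 : 0 ≤ (1 - t ^ 2) ^ (((n : ℝ) - 4) / 2) := Real.rpow_nonneg (by nlinarith [ht.1, ht.2]) _
      rw [Real.norm_of_nonneg (mul_nonneg (le_max_right _ _) h1)]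
      show max (g t + c) 0 * _ ≤ max (g t) 0 * _ + |c| * _
      rw [← add_mul]
      refine mul_le_mul_of_nonneg_right (max_le ?_ ?_) h1
      · exact add_le_add (le_max_left _ _) (le_abs_self _)
      · exact add_nonneg (le_max_right _ _) (abs_nonneg _)
  have hGneg : Integrable (fun v : Sph n => -G (inner ℝ (e : E n) (v : E n))) (sig n) := hGi.neg
  have hGvm : Measurable (fun v : Sph n => G (inner ℝ (e : E n) (v : E n))) := hGm.comp (measurable_height _)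
  have hGvm' : Measurable (fun v : Sph n => -G (inner ℝ (e : E n) (v : E n))) := hGvm.neg
  have hf1 := isFiniteMeasure_posM hGi
  have hf2 := isFiniteMeasure_posM hGneg
  have hval : ∀ f : SmoothFun n, val μ f = (∫ v, f.1 v ∂(posM fun v : Sph n => G (inner ℝ (e : E n) (v : E n)))) -
      ∫ v, f.1 v ∂(posM fun v : Sph n => -G (inner ℝ (e : E n) (v : E n))) := by
    intro f
    rw [integral_posM hGvm, integral_posM hGvm', hμ f]
    have i1 : Integrable (fun v : Sph n => f.1 v * max (G (inner ℝ (e : E n) (v : E n))) 0) (sig n) :=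
      integrable_mul_density hGi.pos_part (IsSmooth.continuous f.2)
    have i2 : Integrable (fun v : Sph n => f.1 v * max (-G (inner ℝ (e : E n) (v : E n))) 0) (sig n) :=
      integrable_mul_density hGneg.pos_part (IsSmooth.continuous f.2)
    rw [← integral_sub i1 i2]
    refine integral_congr_ae (Eventually.of_forall fun v => ?_)
    show f.1 v * G (inner ℝ (e : E n) (v : E n)) = f.1 v * max (G (inner ℝ (e : E n) (v : E n))) 0 -
      f.1 v * max (-G (inner ℝ (e : E n) (v : E n))) 0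
    rw [← mul_sub]
    congr 1
    rcases le_total 0 (G (inner ℝ (e : E n) (v : E n))) with h | h
    · rw [max_eq_left h, max_eq_right (by linarith)]; ring
    · rw [max_eq_right h, max_eq_left (by linarith)]; ring
  have hμz : IsZonalDistribution (e : E n) μ := ⟨isContFun_of_density hGi hμ, isZonalFun_of_density hGi hμ⟩
  obtain ⟨c₁, c₂, -, hm1, hm2⟩ := necessary_condition hn e hμz hval hT
  obtain ⟨⟨C₁, hC₁⟩, hi1⟩ := one_side hn he hGm hGi hGp hm1
  -- the other side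
  have hneg : ∀ v : Sph n, G (inner ℝ (e : E n) (v : E n)) = (fun t => G (-t)) (inner ℝ (-(e : E n)) (v : E n)) := fun v => by
    simp only [inner_neg_left, neg_neg]
  have hGi' : Integrable (fun v : Sph n => (fun t => G (-t)) (inner ℝ (-(e : E n)) (v : E n))) (sig n) :=
    hGi.congr (Eventually.of_forall hneg)
  have hmpn : MeasurePreserving (fun t : ℝ => -t) volume volume := Measure.measurePreserving_neg volume
  have hrefl : ∀ (F : ℝ → ℝ) (a b : ℝ), IntegrableOn F (Ioo a b) → IntegrableOn (fun t => F (-t)) (Ioo (-b) (-a)) := by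
    intro F a b hF
    have h1 : (fun t : ℝ => -t) ⁻¹' (Ioo a b) = Ioo (-b) (-a) := by
      ext t
      simp only [mem_preimage, mem_Ioo]
      constructor
      · rintro ⟨h2, h3⟩; constructor <;> linarith
      · rintro ⟨h2, h3⟩; constructor <;> linarith
    rw [← h1]
    exact (hmpn.integrableOn_comp_preimage (Homeomorph.neg ℝ).measurableEmbedding).2 hF
  have hGp' : IntegrableOn (fun t => max ((fun t => G (-t)) t) 0 * (1 - t ^ 2) ^ (((n : ℝ) - 4) / 2)) (Ioo (-1) 1) := by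
    have h1 := hrefl _ _ _ hGp
    rw [neg_neg] at h1
    refine h1.congr_fun (fun t _ => ?_) measurableSet_Ioo
    simp only [neg_sq]
  have hm2' : MonotoneOn (fun b : ℝ => VV.psi n b *
      (c₂ + (Phi (-(e : E n)) (posM fun v : Sph n => (fun t => G (-t)) (inner ℝ (-(e : E n)) (v : E n))) b -
        Phi (-(e : E n)) (posM fun v : Sph n => -(fun t => G (-t)) (inner ℝ (-(e : E n)) (v : E n))) b))) (Ioo 0 1) := by
    have h1 : (fun v : Sph n => (fun t => G (-t)) (inner ℝ (-(e : E n)) (v : E n))) =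
        fun v : Sph n => G (inner ℝ (e : E n) (v : E n)) := funext fun v => (hneg v).symm
    have h2 : (fun v : Sph n => -(fun t => G (-t)) (inner ℝ (-(e : E n)) (v : E n))) =
        fun v : Sph n => -G (inner ℝ (e : E n) (v : E n)) := funext fun v => by rw [← hneg v]
    rw [h1, h2]
    exact hm2
  obtain ⟨⟨C₂, hC₂⟩, hi2⟩ := one_side hn (by rw [norm_neg, he]) (hGm.comp measurable_neg) hGi' hGp' hm2'
  constructor
  · refine ⟨max |C₁| |C₂| + |c|, ?_⟩
    have hC₂' : ∀ᵐ t : ℝ, (-t) ∈ Ioo (0 : ℝ) 1 → -(C₂ * ((√(1 - (-t) ^ 2)) ^ (n - 2))⁻¹) ≤ G (- -t) :=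
      hmpn.quasiMeasurePreserving.ae hC₂
    have h0 : ∀ᵐ t : ℝ, t ≠ 0 := by
      rw [ae_iff]
      simp
    filter_upwards [hC₁, hC₂', h0] with t h1 h2 h3 ht
    have h4 : 0 < 1 - t ^ 2 := by nlinarith [ht.1, ht.2]
    have h5 : 0 < (√(1 - t ^ 2)) ^ (n - 2) := pow_pos (Real.sqrt_pos.2 h4) _
    have h6 : 1 ≤ ((√(1 - t ^ 2)) ^ (n - 2))⁻¹ := by
      refine (one_le_inv₀ h5).2 (pow_le_one₀ (Real.sqrt_nonneg _) ?_)
      rw [Real.sqrt_le_one]
      nlinarith [sq_nonneg t]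
    have h7 : -(max |C₁| |C₂| * ((√(1 - t ^ 2)) ^ (n - 2))⁻¹) ≤ G t := by
      rcases lt_or_gt_of_ne h3 with h8 | h8
      · have h9 := h2 ⟨by linarith, by linarith [ht.1]⟩
        rw [neg_neg, neg_sq] at h9
        have h10 : C₂ * ((√(1 - t ^ 2)) ^ (n - 2))⁻¹ ≤ max |C₁| |C₂| * ((√(1 - t ^ 2)) ^ (n - 2))⁻¹ :=
          mul_le_mul_of_nonneg_right ((le_abs_self _).trans (le_max_right _ _)) (inv_nonneg.2 h5.le)
        linarith
      · have h9 := h1 ⟨h8, ht.2⟩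
        have h10 : C₁ * ((√(1 - t ^ 2)) ^ (n - 2))⁻¹ ≤ max |C₁| |C₂| * ((√(1 - t ^ 2)) ^ (n - 2))⁻¹ :=
          mul_le_mul_of_nonneg_right ((le_abs_self _).trans (le_max_left _ _)) (inv_nonneg.2 h5.le)
        linarith
    have h11 : |c| ≤ |c| * ((√(1 - t ^ 2)) ^ (n - 2))⁻¹ := le_mul_of_one_le_right (abs_nonneg _) h6
    have h12 : G t = g t + c := rfl
    have h13 := le_abs_self c
    rw [add_mul]
    linarith
  · have hi3 : IntegrableOn (fun t => G t * (1 - t ^ 2) ^ (((n : ℝ) - 4) / 2)) (Ioo (-1) 0) := by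
      have h1 := hrefl _ _ _ hi2
      rw [neg_zero] at h1
      refine h1.congr_fun (fun t _ => ?_) measurableSet_Ioo
      simp only [Function.comp, neg_neg, neg_sq]
    have hi4 : IntegrableOn (fun t => G t * (1 - t ^ 2) ^ (((n : ℝ) - 4) / 2)) (Ioo (-1) 1) := by
      have h1 : IntegrableOn (fun t => G t * (1 - t ^ 2) ^ (((n : ℝ) - 4) / 2)) (Ioc (-1) 0) := by
        rw [integrableOn_Ioc_iff_integrableOn_Ioo]; exact hi3
      have h2 := h1.union hi1
      rwa [Ioc_union_Ioo_eq_Ioo (by norm_num) (by norm_num)] at h2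
    have hi5 : IntegrableOn (fun t => G t * (1 - t ^ 2) ^ (((n : ℝ) - 4) / 2) -
        c * (1 - t ^ 2) ^ (((n : ℝ) - 4) / 2)) (Ioo (-1) 1) := hi4.sub (hwi.const_mul c)
    refine hi5.congr_fun (fun t _ => ?_) measurableSet_Ioo
    simp only [hGd]
    ring

end

end Pool.Agent.Helper115_ME
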